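import Pool.Agent.Helper8.RU.V3

/-!
# RU-R8: the level of a pair which starts at the level `c ≥ 1` reaches `s` with probability `≥ c / (2 s)` within `K s ^ 2` steps

* `rr s k x`: the probability that the level is `≥ s` at some time `≤ k`; `ww s k x`: the probability that the level is `< s` and the state is not `(0, 0)` at
  all times `≤ k`. The level is a submartingale (`av_lv_ge`) and changes by at most `1`, so `x.1 ≤ s rr s k x + s ww s k x` (`x.1 ≤ s`).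
* `ww_le`, `ww_two`: as `uu_le_U1`, `uu_two`, without the term `V x / M`:
  `ww s (j + k) x ≤ (qq x + j + k) / q + 2 (1 - 1 / (124 s ^ 2)) ^ k uu j x`. With `j = s ^ 2`, `k = K s ^ 2`, `q = s ^ 4` and `uu_sharp` the right side is
  `≤ x.1 / (2 s)`.
-/

set_option autoImplicit false

namespace Pool.Agent.Helper8.RU

open Finset Filter Topology Pool.Agent.Helper8.CO

/-- The probability that the level reaches `s` at a time `≤ k`. -/
noncomputable def rr (s : ℕ) : ℕ → ℕ × ℤ → ℝ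
  | 0 => fun x => if s ≤ x.1 then 1 else 0
  | k + 1 => fun x => if s ≤ x.1 then 1 else av (rr s k) x

/-- The probability that at all times `≤ k` the level is `< s` and the orbits have not merged. -/
noncomputable def ww (s : ℕ) : ℕ → ℕ × ℤ → ℝ
  | 0 => fun x => if s ≤ x.1 ∨ x = (0, 0) then 0 else 1
  | k + 1 => fun x => if s ≤ x.1 then 0 else av (ww s k) x

theorem rr_out {s : ℕ} {x : ℕ × ℤ} (h : s ≤ x.1) (k : ℕ) : rr s k x = 1 := by
  cases k with
  | zero => exact if_pos h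
  | succ k => exact if_pos h

theorem rr_in {s : ℕ} {x : ℕ × ℤ} (h : ¬ s ≤ x.1) (k : ℕ) : rr s (k + 1) x = av (rr s k) x := if_neg h

theorem ww_out {s : ℕ} {x : ℕ × ℤ} (h : s ≤ x.1) (k : ℕ) : ww s k x = 0 := by
  cases k with
  | zero => exact if_pos (Or.inl h)
  | succ k => exact if_pos h

theorem ww_in {s : ℕ} {x : ℕ × ℤ} (h : ¬ s ≤ x.1) (k : ℕ) : ww s (k + 1) x = av (ww s k) x := if_neg h

theorem rr_nonneg (s k : ℕ) (x : ℕ × ℤ) : 0 ≤ rr s k x := by
  induction k generalizing x with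
  | zero => unfold rr; split_ifs <;> norm_num
  | succ k ih =>
    by_cases h : s ≤ x.1
    · rw [rr_out h]; norm_num
    · rw [rr_in h, av]
      linarith [ih (nx0 x), ih (nx1 x)]

theorem rr_le_one (s k : ℕ) (x : ℕ × ℤ) : rr s k x ≤ 1 := by
  induction k generalizing x with
  | zero => unfold rr; split_ifs <;> norm_num
  | succ k ih =>
    by_cases h : s ≤ x.1
    · rw [rr_out h]
    · rw [rr_in h, av]
      linarith [ih (nx0 x), ih (nx1 x)]

theorem ww_nonneg (s k : ℕ) (x : ℕ × ℤ) : 0 ≤ ww s k x := by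
  induction k generalizing x with
  | zero => unfold ww; split_ifs <;> norm_num
  | succ k ih =>
    by_cases h : s ≤ x.1
    · rw [ww_out h]
    · rw [ww_in h, av]
      linarith [ih (nx0 x), ih (nx1 x)]

theorem ww_le_one (s k : ℕ) (x : ℕ × ℤ) : ww s k x ≤ 1 := by
  induction k generalizing x with
  | zero => unfold ww; split_ifs <;> norm_num
  | succ k ih =>
    by_cases h : s ≤ x.1
    · rw [ww_out h]; norm_num
    · rw [ww_in h, av]
      linarith [ih (nx0 x), ih (nx1 x)]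

theorem ww_merged (s k : ℕ) : ww s k (0, 0) = 0 := by
  induction k with
  | zero => exact if_pos (Or.inr rfl)
  | succ k ih =>
    by_cases h : s ≤ ((0, 0) : ℕ × ℤ).1
    · rw [ww_out h]
    · rw [ww_in h, av_zero, ih]

theorem nx0_level (x : ℕ × ℤ) : (nx0 x).1 ≤ x.1 + 1 := by
  unfold nx0
  split_ifs <;> simp

theorem nx1_level (x : ℕ × ℤ) : (nx1 x).1 ≤ x.1 + 1 := by
  unfold nx1
  split_ifs with h1 h2
  · simp
  · simp
  · simp only; omega

/-- The level is a submartingale. -/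
theorem level_le (s k : ℕ) (x : ℕ × ℤ) (hx : x.1 ≤ s) :
    (x.1 : ℝ) ≤ s * rr s k x + s * ww s k x := by
  induction k generalizing x with
  | zero =>
    by_cases h : s ≤ x.1
    · rw [rr_out h, ww_out h]
      have : (x.1 : ℝ) ≤ s := by exact_mod_cast hx
      linarith
    · by_cases h0 : x = (0, 0)
      · subst h0
        have h1 := rr_nonneg s 0 (0, 0)
        have h2 := ww_nonneg s 0 (0, 0)
        have : (0 : ℝ) ≤ s := Nat.cast_nonneg s
        simp only [Nat.cast_zero]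
        positivity
      · have h1 : ww s 0 x = 1 := if_neg (by tauto)
        have h2 := rr_nonneg s 0 x
        have h3 : (x.1 : ℝ) ≤ s := by exact_mod_cast hx
        have : (0 : ℝ) ≤ s := Nat.cast_nonneg s
        rw [h1]
        nlinarith
  | succ k ih =>
    by_cases h : s ≤ x.1
    · rw [rr_out h, ww_out h]
      have : (x.1 : ℝ) ≤ s := by exact_mod_cast hx
      linarith
    · rw [rr_in h, ww_in h]
      have h1 := ih (nx0 x) (by have := nx0_level x; omega)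
      have h2 := ih (nx1 x) (by have := nx1_level x; omega)
      have h3 := av_lv_ge x
      unfold av lv at h3
      unfold av
      linarith

section
variable {M : ℕ} {W₀ q : ℝ}

private theorem wt_lt48 (hM : 1 ≤ M) (hW : W₀ ≤ M) {x : ℕ × ℤ} (hx : x.1 < M)
    (h : x.1 = 0 → wt x ≤ W₀) : wt x ≤ 5 * (M : ℝ) := by
  have hM1 : (1 : ℝ) ≤ M := by exact_mod_cast hM
  rcases Nat.eq_zero_or_pos x.1 with h0 | h0
  · have := h h0
    linarith
  · have h1 := wt_le_sqrt (s := x) h0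
    have h2 : Real.sqrt x.1 ≤ M := by
      rw [Real.sqrt_le_left (by linarith)]
      have h3 : (x.1 : ℝ) ≤ M := by exact_mod_cast hx.le
      nlinarith
    linarith

private theorem Psi_le48 (hM : 1 ≤ M) (hW0 : 0 ≤ W₀) (hW : W₀ ≤ M) {x : ℕ × ℤ} (hx : x.1 < M)
    (h : x.1 = 0 → wt x ≤ W₀) : Psi W₀ M x ≤ 62 * (M : ℝ) ^ 2 := by
  have hM1 : (1 : ℝ) ≤ M := by exact_mod_cast hM
  have h1 := FF_le hW0 hM x.1
  have h2 := wt_lt48 hM hW hx h
  unfold Psi
  nlinarith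

/-- As `uu_le_U1`. -/
theorem ww_le (hM : 1 ≤ M)
    (hW0 : 0 ≤ W₀) (hW : W₀ ≤ M) (hq : 0 < q)
    (hw0 : ∀ x : ℕ × ℤ, qq x ≤ q → x.1 = 0 → wt x ≤ W₀)
    (hw1 : ∀ x : ℕ × ℤ, qq x ≤ q → (nx1 x).1 = 0 → wt (nx1 x) ≤ W₀)
    (k : ℕ) (x : ℕ × ℤ) :
    ww M k x ≤ (qq x + k) / q +
      (1 - 1 / (124 * (M : ℝ) ^ 2)) ^ k * (1 + Psi W₀ M x / (62 * (M : ℝ) ^ 2)) := by
  have hM0 : (1 : ℝ) ≤ M := by exact_mod_cast hM
  have hMp : (0 : ℝ) < (M : ℝ) := by linarith
  have hM2 : (1 : ℝ) ≤ (M : ℝ) ^ 2 := by nlinarith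
  have hden : (1 : ℝ) ≤ 124 * (M : ℝ) ^ 2 := by linarith
  set r : ℝ := 1 - 1 / (124 * (M : ℝ) ^ 2) with hr
  have hr0 : 0 ≤ r := by
    rw [hr, sub_nonneg, div_le_one (by linarith)]
    exact hden
  have hB : ∀ (k : ℕ) x, 0 ≤ (qq x + k) / q := fun k x =>
    div_nonneg (add_nonneg (qq_nonneg x) (Nat.cast_nonneg k)) hq.le
  have hG1 : ∀ x, 1 ≤ 1 + Psi W₀ M x / (62 * (M : ℝ) ^ 2) := fun x => by
    have := div_nonneg (Psi_nonneg hW0 M x) (by positivity : (0 : ℝ) ≤ 62 * (M : ℝ) ^ 2)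
    linarith
  have hC : ∀ (k : ℕ) x, 0 ≤ r ^ k * (1 + Psi W₀ M x / (62 * (M : ℝ) ^ 2)) := fun k x =>
    mul_nonneg (pow_nonneg hr0 k) (by linarith [hG1 x])
  induction k generalizing x with
  | zero =>
    have h1 := hG1 x
    have h2 := ww_le_one M 0 x
    rw [pow_zero, one_mul]
    linarith [hB 0 x]
  | succ k ih =>
    by_cases h0 : x = (0, 0)
    · subst h0
      rw [ww_merged]
      linarith [hB (k + 1) (0, 0), hC (k + 1) (0, 0)]
    by_cases hx : x.1 < M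
    swap
    · push Not at hx
      rw [ww_out hx]
      linarith [hC (k + 1) x, hB (k + 1) x]
    by_cases hqx : qq x ≤ q
    swap
    · push Not at hqx
      have h2 := ww_le_one M (k + 1) x
      have h3 : (1 : ℝ) ≤ (qq x + (k + 1 : ℕ)) / q := by
        rw [le_div_iff₀ hq, one_mul]
        have : (0 : ℝ) ≤ ((k + 1 : ℕ) : ℝ) := Nat.cast_nonneg _
        linarith
      linarith [hC (k + 1) x]
    have hd : av (Psi W₀ M) x ≤ Psi W₀ M x - 1 := by
      refine Psi_drift h0 hx fun _ => ?_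
      by_cases h1 : (nx1 x).1 = 0
      · exact Or.inl (hw1 x hqx h1)
      · exact Or.inr h1
    have hP := Psi_le48 hM hW0 hW hx (hw0 x hqx)
    have hqd := av_qq x
    have hqx0 := qq_nonneg x
    rw [ww_in (not_le.2 hx)]
    have e1 : av (ww M k) x ≤ (av qq x + k) / q +
        r ^ k * (1 + av (Psi W₀ M) x / (62 * (M : ℝ) ^ 2)) := by
      unfold av
      have i0 := ih (nx0 x)
      have i1 := ih (nx1 x)
      have e : ((qq (nx0 x) + qq (nx1 x)) / 2 + k) / q +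
          r ^ k * (1 + (Psi W₀ M (nx0 x) + Psi W₀ M (nx1 x)) / 2 / (62 * (M : ℝ) ^ 2)) =
          (((qq (nx0 x) + k) / q +
            r ^ k * (1 + Psi W₀ M (nx0 x) / (62 * (M : ℝ) ^ 2))) +
          ((qq (nx1 x) + k) / q +
            r ^ k * (1 + Psi W₀ M (nx1 x) / (62 * (M : ℝ) ^ 2)))) / 2 := by
        ring
      rw [e]
      linarith
    have e3 : (av qq x + k) / q ≤ (qq x + ((k + 1 : ℕ) : ℝ)) / q := by
      refine div_le_div_of_nonneg_right ?_ hq.le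
      push_cast
      linarith
    have e4 : 1 + av (Psi W₀ M) x / (62 * (M : ℝ) ^ 2) ≤
        r * (1 + Psi W₀ M x / (62 * (M : ℝ) ^ 2)) := by
      obtain ⟨B, hB⟩ : ∃ B : ℝ, B = 62 * (M : ℝ) ^ 2 := ⟨_, rfl⟩
      have hB0 : 0 < B := by rw [hB]; positivity
      have hrB : r = 1 - 1 / (2 * B) := by rw [hr, hB]; ring_nf
      rw [← hB] at hP ⊢
      rw [hrB]
      have h1 : av (Psi W₀ M) x / B ≤ (Psi W₀ M x - 1) / B := div_le_div_of_nonneg_right hd hB0.le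
      have h2 : (1 - 1 / (2 * B)) * (1 + Psi W₀ M x / B) =
          1 + Psi W₀ M x / B - 1 / (2 * B) * (1 + Psi W₀ M x / B) := by ring
      rw [h2]
      have h3 : 1 / (2 * B) * (1 + Psi W₀ M x / B) ≤ 1 / (2 * B) * 2 := by
        apply mul_le_mul_of_nonneg_left _ (by positivity)
        have : Psi W₀ M x / B ≤ 1 := (div_le_one hB0).2 hP
        linarith
      have h4 : 1 / (2 * B) * 2 = 1 / B := by field_simp
      have h5 : (Psi W₀ M x - 1) / B = Psi W₀ M x / B - 1 / B := by ring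
      linarith
    have e5 : r ^ k * (1 + av (Psi W₀ M) x / (62 * (M : ℝ) ^ 2)) ≤
        r ^ (k + 1) * (1 + Psi W₀ M x / (62 * (M : ℝ) ^ 2)) := by
      have h5 : r ^ (k + 1) * (1 + Psi W₀ M x / (62 * (M : ℝ) ^ 2)) =
          r ^ k * (r * (1 + Psi W₀ M x / (62 * (M : ℝ) ^ 2))) := by ring
      rw [h5]
      exact mul_le_mul_of_nonneg_left e4 (pow_nonneg hr0 k)
    linarith

/-- As `uu_two`. -/
theorem ww_two (hM : 1 ≤ M)
    (hW0 : 0 ≤ W₀) (hW : W₀ ≤ M) (hq : 0 < q)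
    (hw0 : ∀ x : ℕ × ℤ, qq x ≤ q → x.1 = 0 → wt x ≤ W₀)
    (hw1 : ∀ x : ℕ × ℤ, qq x ≤ q → (nx1 x).1 = 0 → wt (nx1 x) ≤ W₀)
    (k j : ℕ) (x : ℕ × ℤ) :
    ww M (j + k) x ≤ (qq x + (j + k : ℕ)) / q +
      2 * (1 - 1 / (124 * (M : ℝ) ^ 2)) ^ k * uu j x := by
  have hM0 : (1 : ℝ) ≤ M := by exact_mod_cast hM
  have hMp : (0 : ℝ) < (M : ℝ) := by linarith
  have hM2 : (1 : ℝ) ≤ (M : ℝ) ^ 2 := by nlinarith
  have hden : (1 : ℝ) ≤ 124 * (M : ℝ) ^ 2 := by linarith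
  have hU := ww_le hM hW0 hW hq hw0 hw1 k
  set r : ℝ := 1 - 1 / (124 * (M : ℝ) ^ 2) with hr
  have hr0 : 0 ≤ r := by
    rw [hr, sub_nonneg, div_le_one (by linarith)]
    exact hden
  have hB : ∀ (k : ℕ) x, 0 ≤ (qq x + k) / q := fun k x =>
    div_nonneg (add_nonneg (qq_nonneg x) (Nat.cast_nonneg k)) hq.le
  have hC : ∀ (j : ℕ) x, 0 ≤ 2 * r ^ k * uu j x := fun j x =>
    mul_nonneg (mul_nonneg (by norm_num) (pow_nonneg hr0 k)) (uu_nonneg j x)
  induction j generalizing x with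
  | zero =>
    rw [zero_add]
    by_cases h0 : x = (0, 0)
    · subst h0
      rw [ww_merged]
      linarith [hB k (0, 0), hC 0 (0, 0)]
    by_cases hx : x.1 < M
    swap
    · push Not at hx
      rw [ww_out hx]
      linarith [hB k x, hC 0 x]
    by_cases hqx : qq x ≤ q
    swap
    · push Not at hqx
      have h2 := ww_le_one M k x
      have h3 : (1 : ℝ) ≤ (qq x + k) / q := by
        rw [le_div_iff₀ hq, one_mul]
        have : (0 : ℝ) ≤ (k : ℝ) := Nat.cast_nonneg _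
        linarith
      linarith [hC 0 x]
    have hP := Psi_le48 hM hW0 hW hx (hw0 x hqx)
    have h1 : Psi W₀ M x / (62 * (M : ℝ) ^ 2) ≤ 1 := (div_le_one (by positivity)).2 hP
    have h2 : r ^ k * (1 + Psi W₀ M x / (62 * (M : ℝ) ^ 2)) ≤ r ^ k * 2 :=
      mul_le_mul_of_nonneg_left (by linarith) (pow_nonneg hr0 k)
    rw [uu_zero_ne h0, mul_one]
    linarith [hU x]
  | succ j ih =>
    by_cases hx : x.1 < M
    swap
    · push Not at hx
      rw [ww_out hx]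
      linarith [hB (j + 1 + k) x, hC (j + 1) x]
    rw [show j + 1 + k = (j + k) + 1 by ring, uu_succ, ww_in (not_le.2 hx)]
    have hqd := av_qq x
    have hqx0 := qq_nonneg x
    have e1 : av (ww M (j + k)) x ≤ (av qq x + (j + k : ℕ)) / q +
        2 * r ^ k * av (uu j) x := by
      unfold av
      have i0 := ih (nx0 x)
      have i1 := ih (nx1 x)
      have e : ((qq (nx0 x) + qq (nx1 x)) / 2 + (j + k : ℕ)) / q +
          2 * r ^ k * ((uu j (nx0 x) + uu j (nx1 x)) / 2) =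
          (((qq (nx0 x) + (j + k : ℕ)) / q + 2 * r ^ k * uu j (nx0 x)) +
          ((qq (nx1 x) + (j + k : ℕ)) / q + 2 * r ^ k * uu j (nx1 x))) / 2 := by
        ring
      rw [e]
      linarith
    have e3 : (av qq x + (j + k : ℕ)) / q ≤ (qq x + ((j + k + 1 : ℕ) : ℝ)) / q := by
      refine div_le_div_of_nonneg_right ?_ hq.le
      push_cast
      linarith
    linarith

end

private theorem wt_zero48 {x : ℕ × ℤ} (hx : x.1 = 0) {k : ℝ} (hk : 2 ≤ k) (hq : qq x ≤ 2 * k ^ 2) :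
    wt x ≤ 8 + 8 * Real.log k := by
  have h1 := wt_log x
  rw [hx, Nat.cast_zero, zero_add, Real.log_one, mul_zero, add_zero] at h1
  have hZ : Zs x = qq x ^ 2 := by
    unfold qq
    rw [Real.sq_sqrt (Zs_nonneg x)]
  have h2 : Zs x + 1 ≤ 5 * k ^ 4 := by
    rw [hZ]
    have h3 : qq x ^ 2 ≤ (2 * k ^ 2) ^ 2 := pow_le_pow_left₀ (qq_nonneg x) hq 2
    have h4 : (1 : ℝ) ≤ k ^ 4 := one_le_pow₀ (by linarith)
    nlinarith
  have h3 : Real.log (Zs x + 1) ≤ Real.log (5 * k ^ 4) :=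
    Real.log_le_log (by linarith [Zs_nonneg x]) h2
  rw [Real.log_mul (by norm_num) (by positivity), Real.log_pow] at h3
  have h4 : Real.log 5 ≤ 2 := by
    rw [Real.log_le_iff_le_exp (by norm_num)]
    have h5 := Real.add_one_le_exp (1 : ℝ)
    have h6 : Real.exp 2 = Real.exp 1 * Real.exp 1 := by rw [← Real.exp_add]; norm_num
    have h7 := Real.exp_one_gt_d9
    rw [h6]
    nlinarith
  push_cast at h3
  linarith

/-- The level reaches `s` within `K s ^ 2` steps with probability `≥ c / (2 s)`, if it starts at `c ≥ 1`. -/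
theorem reach (Q : ℝ) (hQ : 0 ≤ Q) : ∃ K s₀ : ℕ, 1 ≤ K ∧ 1 ≤ s₀ ∧ ∀ (s : ℕ) (x : ℕ × ℤ), s₀ ≤ s →
    1 ≤ x.1 → x.1 ≤ s → qq x ≤ Q → (x.1 : ℝ) / (2 * s) ≤ rr s (K * s ^ 2) x := by
  obtain ⟨D, hD, hu⟩ := uu_sharp
  -- the number `K`
  have hlim : Tendsto (fun n : ℕ => 2 * (Real.exp (-(1 / 124))) ^ n * (D * (Q + 2))) atTop (𝓝 0) := by
    have h1 : Tendsto (fun n : ℕ => (Real.exp (-(1 / 124))) ^ n) atTop (𝓝 0) :=
      tendsto_pow_atTop_nhds_zero_of_lt_one (Real.exp_pos _).le (Real.exp_lt_one_iff.2 (by norm_num))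
    simpa using (h1.const_mul 2).mul_const (D * (Q + 2))
  obtain ⟨K', hK'⟩ := (hlim.eventually (gt_mem_nhds (by norm_num : (0 : ℝ) < 1 / 4))).exists
  -- the threshold
  have hlog : ∀ᶠ y : ℝ in atTop, 8 + 8 * Real.log (y ^ 2) ≤ y := by
    have h1 : (fun y : ℝ => Real.log y) =o[atTop] fun y : ℝ => y ^ (1 : ℝ) :=
      isLittleO_log_rpow_atTop one_pos
    have h2 := h1.bound (by norm_num : (0 : ℝ) < 1 / 32)
    filter_upwards [h2, eventually_ge_atTop (16 : ℝ)] with y hy hy1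
    rw [Real.norm_of_nonneg (Real.log_nonneg (by linarith)), Real.norm_of_nonneg (by positivity), Real.rpow_one] at hy
    rw [Real.log_pow]
    push_cast
    linarith
  obtain ⟨Y, hY⟩ := eventually_atTop.1 hlog
  obtain ⟨s₀, hs₀⟩ := exists_nat_ge (max Y (max 2 (4 * (Q + (K' + 1)))))
  refine ⟨K' + 1, s₀, by omega, ?_, fun s x hs hx1 hxs hqx => ?_⟩
  · have : (2 : ℝ) ≤ s₀ := ((le_max_left _ _).trans (le_max_right _ _)).trans hs₀
    have : 2 ≤ s₀ := by exact_mod_cast this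
    omega
  have hs' : (s₀ : ℝ) ≤ s := by exact_mod_cast hs
  have hsY : Y ≤ s := ((le_max_left _ _).trans hs₀).trans hs'
  have hs2 : (2 : ℝ) ≤ s := (((le_max_left _ _).trans (le_max_right _ _)).trans hs₀).trans hs'
  have hsK : 4 * (Q + (K' + 1)) ≤ (s : ℝ) := (((le_max_right _ _).trans (le_max_right _ _)).trans hs₀).trans hs'
  have hs0 : (0 : ℝ) < s := by linarith
  have hs1 : 1 ≤ s := by
    have : (1 : ℝ) ≤ s := by linarith
    exact_mod_cast this
  have hxr : (1 : ℝ) ≤ x.1 := by exact_mod_cast hx1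
  obtain ⟨W₀, hW₀⟩ : ∃ W₀ : ℝ, W₀ = 8 + 8 * Real.log ((s : ℝ) ^ 2) := ⟨_, rfl⟩
  have hW0 : 0 ≤ W₀ := by
    rw [hW₀]
    have : 0 ≤ Real.log ((s : ℝ) ^ 2) := Real.log_nonneg (by nlinarith)
    linarith
  have hW : W₀ ≤ s := by
    rw [hW₀]
    exact hY s hsY
  have hs22 : (4 : ℝ) ≤ (s : ℝ) ^ 2 := by nlinarith
  have hw0 : ∀ y : ℕ × ℤ, qq y ≤ ((s : ℝ) ^ 2) ^ 2 → y.1 = 0 → wt y ≤ W₀ := by
    intro y hy hy0
    rw [hW₀]
    exact wt_zero48 hy0 (by linarith) (by nlinarith [qq_nonneg y])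
  have hw1 : ∀ y : ℕ × ℤ, qq y ≤ ((s : ℝ) ^ 2) ^ 2 → (nx1 y).1 = 0 → wt (nx1 y) ≤ W₀ := by
    intro y hy hy0
    rw [hW₀]
    refine wt_zero48 hy0 (by linarith) ((qq_nx1 y).trans ?_)
    nlinarith [qq_nonneg y]
  have h1 := ww_two hs1 hW0 hW (q := ((s : ℝ) ^ 2) ^ 2) (by positivity) hw0 hw1 (K' * s ^ 2) (s ^ 2) x
  have e1 : s ^ 2 + K' * s ^ 2 = (K' + 1) * s ^ 2 := by ring
  rw [e1] at h1
  -- the first term
  have h2 : (qq x + ((K' + 1) * s ^ 2 : ℕ)) / ((s : ℝ) ^ 2) ^ 2 ≤ x.1 / (4 * s) := by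
    rw [div_le_div_iff₀ (by positivity) (by positivity)]
    push_cast
    have h3 : qq x + (K' + 1) * (s : ℝ) ^ 2 ≤ (Q + (K' + 1)) * (s : ℝ) ^ 2 := by nlinarith
    calc (qq x + (K' + 1) * (s : ℝ) ^ 2) * (4 * s) ≤ ((Q + (K' + 1)) * (s : ℝ) ^ 2) * (4 * s) :=
          mul_le_mul_of_nonneg_right h3 (by positivity)
      _ = (4 * (Q + (K' + 1))) * (s : ℝ) ^ 3 := by ring
      _ ≤ s * (s : ℝ) ^ 3 := mul_le_mul_of_nonneg_right hsK (by positivity)
      _ = 1 * ((s : ℝ) ^ 2) ^ 2 := by ring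
      _ ≤ x.1 * ((s : ℝ) ^ 2) ^ 2 := mul_le_mul_of_nonneg_right hxr (by positivity)
  -- the second term
  have h3 : (1 - 1 / (124 * (s : ℝ) ^ 2)) ^ (K' * s ^ 2) ≤ (Real.exp (-(1 / 124))) ^ K' := by
    have h4 : 1 - 1 / (124 * (s : ℝ) ^ 2) ≤ Real.exp (-(1 / (124 * (s : ℝ) ^ 2))) := by
      have := Real.add_one_le_exp (-(1 / (124 * (s : ℝ) ^ 2)))
      linarith
    have h5 : 0 ≤ 1 - 1 / (124 * (s : ℝ) ^ 2) := by
      rw [sub_nonneg, div_le_one (by positivity)]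
      linarith
    calc (1 - 1 / (124 * (s : ℝ) ^ 2)) ^ (K' * s ^ 2) ≤
          (Real.exp (-(1 / (124 * (s : ℝ) ^ 2)))) ^ (K' * s ^ 2) := pow_le_pow_left₀ h5 h4 _
      _ = (Real.exp (-(1 / 124))) ^ K' := by
          rw [← Real.exp_nat_mul, ← Real.exp_nat_mul]
          congr 1
          push_cast
          field_simp
  have h4 : uu (s ^ 2) x ≤ D * (Q + 2) * x.1 / s := by
    have h5 := hu (s ^ 2) x (Nat.one_le_pow _ _ hs1)
    have h6 : Real.sqrt ((s ^ 2 : ℕ) : ℝ) = s := by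
      push_cast
      exact Real.sqrt_sq hs0.le
    rw [h6] at h5
    refine h5.trans (div_le_div_of_nonneg_right ?_ hs0.le)
    have h7 : (x.1 : ℝ) + qq x + 1 ≤ (Q + 2) * x.1 := by nlinarith
    calc D * (x.1 + qq x + 1) ≤ D * ((Q + 2) * x.1) := mul_le_mul_of_nonneg_left h7 hD.le
      _ = D * (Q + 2) * x.1 := by ring
  have h5 : 2 * (1 - 1 / (124 * (s : ℝ) ^ 2)) ^ (K' * s ^ 2) * uu (s ^ 2) x ≤ x.1 / (4 * s) := by
    calc 2 * (1 - 1 / (124 * (s : ℝ) ^ 2)) ^ (K' * s ^ 2) * uu (s ^ 2) x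
        ≤ 2 * (Real.exp (-(1 / 124))) ^ K' * (D * (Q + 2) * x.1 / s) :=
          mul_le_mul (by linarith) h4 (uu_nonneg _ _) (by positivity)
      _ = (2 * (Real.exp (-(1 / 124))) ^ K' * (D * (Q + 2))) * (x.1 / s) := by ring
      _ ≤ 1 / 4 * (x.1 / s) := mul_le_mul_of_nonneg_right hK'.le (by positivity)
      _ = x.1 / (4 * s) := by
          field_simp
  have h6 := level_le s ((K' + 1) * s ^ 2) x hxs
  have h7 : (s : ℝ) * ww s ((K' + 1) * s ^ 2) x ≤ x.1 / 2 := by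
    calc (s : ℝ) * ww s ((K' + 1) * s ^ 2) x ≤ s * (x.1 / (4 * s) + x.1 / (4 * s)) :=
          mul_le_mul_of_nonneg_left (h1.trans (add_le_add h2 h5)) hs0.le
      _ = x.1 / 2 := by field_simp; norm_num
  rw [div_le_iff₀ (by positivity)]
  nlinarith

end Pool.Agent.Helper8.RU
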