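import Pool.Agent.Helper8.RU.R6
import Pool.Agent.Helper8.RU.R8

/-!
# RU-R9: the recursion for the number of the pairs with different first times

`Dg i y y'`: there is a `t` which is the first time in `F` of `y` but not of `y'` (`i = true`), or of `y'` but not of `y` (`i = false`). `Bc i c β j b Z` is the
number of the `z ∈ [Z, 2 Z)` such that `Dg i y (3 ^ c y + ρ β)`, `y = 3 ^ j z + b`. The parity of `z` decides the parity of `y`, and after one step of `T` the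
pair is of the same form, with the state `nx0 (c, β)` or `nx1 (c, β)` (`step49`). So, if `Bc i s β j b Z ≥ c₀ Z` for all the states of the level `s`, then
`Bc i c β j b (2 ^ k Z) ≥ c₀ 2 ^ k Z rr s k (c, β)` (`rec49`).
-/

set_option autoImplicit false

namespace Pool.Agent.Helper8.RU

open Pool.Agent.Helper68.Moeller Pool.Agent.Helper8.CO Pool.Agent.Helper85.ST Finset Classical

variable {ρ : ℤ}

theorem two_T_even {x : ℤ} (h : Even x) : 2 * T 2 3 (fun _ => ρ) x = x := by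
  unfold T
  rw [if_pos (by exact_mod_cast h.two_dvd)]
  push_cast
  exact Int.mul_ediv_cancel' h.two_dvd

theorem two_T_odd (hρ : Odd ρ) {x : ℤ} (h : ¬ Even x) : 2 * T 2 3 (fun _ => ρ) x = 3 * x - ρ := by
  unfold T
  have h1 : ¬ ((2 : ℕ) : ℤ) ∣ x := fun h2 => h (even_iff_two_dvd.2 (by exact_mod_cast h2))
  rw [if_neg h1]
  push_cast
  have h2 : (2 : ℤ) ∣ 3 * x - ρ := by
    rw [Int.not_even_iff_odd] at h
    obtain ⟨a, ha⟩ := h
    obtain ⟨b, hb⟩ := hρ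
    exact ⟨3 * a + 1 - b, by rw [ha, hb]; ring⟩
  exact Int.mul_ediv_cancel' h2

theorem two_nx0 (c : ℕ) (β : ℤ) :
    (Even β ∧ (nx0 (c, β)).1 = c ∧ 2 * (nx0 (c, β)).2 = β) ∨
      (¬ Even β ∧ (nx0 (c, β)).1 = c + 1 ∧ 2 * (nx0 (c, β)).2 = 3 * β - 1) := by
  by_cases h : Even β
  · left
    rw [nx0_even h]
    exact ⟨h, rfl, Int.mul_ediv_cancel' h.two_dvd⟩
  · right
    rw [nx0_odd h]
    refine ⟨h, rfl, ?_⟩
    rw [Int.not_even_iff_odd] at h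
    obtain ⟨a, ha⟩ := h
    simp only
    omega

theorem two_nx1 (c : ℕ) (β : ℤ) :
    (Even β ∧ (nx1 (c, β)).1 = c ∧ 2 * (nx1 (c, β)).2 = 3 * β + 3 ^ c - 1) ∨
      (¬ Even β ∧ c = 0 ∧ (nx1 (c, β)).1 = 1 ∧ 2 * (nx1 (c, β)).2 = -(3 * β + 1)) ∨
      (¬ Even β ∧ 1 ≤ c ∧ (nx1 (c, β)).1 = c - 1 ∧ 2 * (nx1 (c, β)).2 = β + 3 ^ (c - 1)) := by
  have h3 : ∀ n : ℕ, ∃ a : ℤ, (3 : ℤ) ^ n = 2 * a + 1 := fun n => (Odd.pow (by decide) : Odd ((3 : ℤ) ^ n))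
  by_cases h : Even β
  · left
    rw [nx1_even h]
    refine ⟨h, rfl, ?_⟩
    obtain ⟨a, ha⟩ := h3 c
    obtain ⟨b, hb⟩ := h
    simp only
    omega
  · right
    rcases Nat.eq_zero_or_pos c with hc | hc
    · left
      subst hc
      rw [nx1_odd_zero h]
      refine ⟨h, rfl, rfl, ?_⟩
      rw [Int.not_even_iff_odd] at h
      obtain ⟨b, hb⟩ := h
      simp only
      omega
    · right
      rw [nx1_odd h (by omega)]
      refine ⟨h, hc, rfl, ?_⟩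
      rw [Int.not_even_iff_odd] at h
      obtain ⟨b, hb⟩ := h
      obtain ⟨a, ha⟩ := h3 (c - 1)
      simp only
      omega

theorem odd_mul_even {c : ℕ} {y β : ℤ} (hρ : Odd ρ) : Even (3 ^ c * y + ρ * β) ↔ (Even y ↔ Even β) := by
  have h3 : ¬ Even ((3 : ℤ) ^ c) := by
    rw [Int.not_even_iff_odd]
    exact Odd.pow (by decide)
  have h4 : ¬ Even ρ := by rwa [Int.not_even_iff_odd]
  rw [Int.even_add, Int.even_mul, Int.even_mul]
  tauto

theorem T_pair_even (hρ : Odd ρ) (c : ℕ) (β : ℤ) {y : ℤ} (hy : Even y) :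
    T 2 3 (fun _ => ρ) (3 ^ c * y + ρ * β) =
      3 ^ (nx0 (c, β)).1 * T 2 3 (fun _ => ρ) y + ρ * (nx0 (c, β)).2 := by
  have h1 := two_T_even (ρ := ρ) hy
  rcases two_nx0 c β with ⟨hb, h2, h3⟩ | ⟨hb, h2, h3⟩
  · have h4 : Even (3 ^ c * y + ρ * β) := (odd_mul_even hρ).2 (by tauto)
    have h5 := two_T_even (ρ := ρ) h4
    rw [h2]
    have h6 : 2 * T 2 3 (fun _ => ρ) (3 ^ c * y + ρ * β) =
        2 * (3 ^ c * T 2 3 (fun _ => ρ) y + ρ * (nx0 (c, β)).2) := by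
      linear_combination h5 - 3 ^ c * h1 - ρ * h3
    linarith
  · have h4 : ¬ Even (3 ^ c * y + ρ * β) := fun h => by
      have := (odd_mul_even hρ).1 h
      tauto
    have h5 := two_T_odd hρ h4
    rw [h2]
    have h6 : 2 * T 2 3 (fun _ => ρ) (3 ^ c * y + ρ * β) =
        2 * (3 ^ (c + 1) * T 2 3 (fun _ => ρ) y + ρ * (nx0 (c, β)).2) := by
      linear_combination h5 - 3 ^ (c + 1) * h1 - ρ * h3
    linarith

theorem T_pair_odd (hρ : Odd ρ) (c : ℕ) (β : ℤ) {y : ℤ} (hy : ¬ Even y) (hc : 1 ≤ c ∨ Even β) :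
    T 2 3 (fun _ => ρ) (3 ^ c * y + ρ * β) =
      3 ^ (nx1 (c, β)).1 * T 2 3 (fun _ => ρ) y + ρ * (nx1 (c, β)).2 := by
  have h1 := two_T_odd hρ hy
  rcases two_nx1 c β with ⟨hb, h2, h3⟩ | ⟨hb, h0, h2, h3⟩ | ⟨hb, h0, h2, h3⟩
  · have h4 : ¬ Even (3 ^ c * y + ρ * β) := fun h => by
      have := (odd_mul_even hρ).1 h
      tauto
    have h5 := two_T_odd hρ h4
    rw [h2]
    have h6 : 2 * T 2 3 (fun _ => ρ) (3 ^ c * y + ρ * β) =
        2 * (3 ^ c * T 2 3 (fun _ => ρ) y + ρ * (nx1 (c, β)).2) := by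
      linear_combination h5 - 3 ^ c * h1 - ρ * h3
    linarith
  · exfalso
    rcases hc with h | h
    · omega
    · exact hb h
  · have h4 : Even (3 ^ c * y + ρ * β) := (odd_mul_even hρ).2 (by tauto)
    have h5 := two_T_even (ρ := ρ) h4
    rw [h2]
    obtain ⟨c', rfl⟩ := Nat.exists_eq_add_of_le' h0
    rw [Nat.add_sub_cancel] at h3 ⊢
    have h6 : 2 * T 2 3 (fun _ => ρ) (3 ^ (c' + 1) * y + ρ * β) =
        2 * (3 ^ c' * T 2 3 (fun _ => ρ) y + ρ * (nx1 (c' + 1, β)).2) := by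
      linear_combination h5 - 3 ^ c' * h1 - ρ * h3
    linarith

theorem T_pair_swap (hρ : Odd ρ) {β : ℤ} (hβ : ¬ Even β) {y : ℤ} (hy : ¬ Even y) :
    Even (y + ρ * β) ∧ (nx1 (0, β)).1 = 1 ∧
    T 2 3 (fun _ => ρ) y = 3 ^ (nx1 (0, β)).1 * T 2 3 (fun _ => ρ) (y + ρ * β) + ρ * (nx1 (0, β)).2 := by
  have h1 := two_T_odd hρ hy
  have h4 : Even (y + ρ * β) := by
    have := (odd_mul_even (c := 0) (y := y) (β := β) hρ).2 (by tauto)
    rwa [pow_zero, one_mul] at this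
  have h5 := two_T_even (ρ := ρ) h4
  rcases two_nx1 0 β with ⟨hb, h2, h3⟩ | ⟨hb, h0, h2, h3⟩ | ⟨hb, h0, h2, h3⟩
  · exact absurd hb hβ
  · refine ⟨h4, h2, ?_⟩
    rw [h2]
    have h6 : 2 * T 2 3 (fun _ => ρ) y = 2 * (3 ^ 1 * T 2 3 (fun _ => ρ) (y + ρ * β) + ρ * (nx1 (0, β)).2) := by
      linear_combination h1 - 3 * h5 - ρ * h3
    linarith
  · omega

/-! ### The first times -/

/-- Some `t` is the first time of `y` but not of `y'`. -/
def Df (ρ : ℤ) (F : Set ℤ) (y y' : ℤ) : Prop := ∃ t : ℕ, First ρ F t y ∧ ¬ First ρ F t y'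

/-- The same, in both orders. -/
def Dg (ρ : ℤ) (F : Set ℤ) (i : Bool) (y y' : ℤ) : Prop := if i then Df ρ F y y' else Df ρ F y' y

theorem Dg_swap (F : Set ℤ) (i : Bool) (y y' : ℤ) : Dg ρ F i y y' ↔ Dg ρ F (!i) y' y := by
  cases i <;> simp [Dg]

theorem First_succ {F : Set ℤ} {y : ℤ} (hy : y ∉ F) (t : ℕ) :
    First ρ F (t + 1) y ↔ First ρ F t (T 2 3 (fun _ => ρ) y) := by
  unfold First
  rw [Function.iterate_succ_apply]
  refine and_congr_right fun _ => ⟨fun h i hi => ?_, fun h i hi => ?_⟩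
  · have := h (i + 1) (by omega)
    rwa [Function.iterate_succ_apply] at this
  · cases i with
    | zero => exact hy
    | succ i =>
      rw [Function.iterate_succ_apply]
      exact h i (by omega)

theorem First_zero {F : Set ℤ} {y : ℤ} (hy : y ∉ F) : ¬ First ρ F 0 y := fun h => hy h.1

theorem Df_T {F : Set ℤ} {y y' : ℤ} (hy : y ∉ F) (hy' : y' ∉ F) :
    Df ρ F y y' ↔ Df ρ F (T 2 3 (fun _ => ρ) y) (T 2 3 (fun _ => ρ) y') := by
  constructor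
  · rintro ⟨t, h1, h2⟩
    cases t with
    | zero => exact absurd h1 (First_zero hy)
    | succ t =>
      rw [First_succ hy] at h1
      rw [First_succ hy'] at h2
      exact ⟨t, h1, h2⟩
  · rintro ⟨t, h1, h2⟩
    exact ⟨t + 1, (First_succ hy t).2 h1, fun h => h2 ((First_succ hy' t).1 h)⟩

theorem Dg_T {F : Set ℤ} {y y' : ℤ} (i : Bool) (hy : y ∉ F) (hy' : y' ∉ F) :
    Dg ρ F i y y' ↔ Dg ρ F i (T 2 3 (fun _ => ρ) y) (T 2 3 (fun _ => ρ) y') := by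
  cases i
  · exact Df_T hy' hy
  · exact Df_T hy hy'

/-! ### The counts -/

/-- The number of the `z ∈ [Z, 2 Z)` for which the first times of the two points differ. -/
noncomputable def Bc (ρ : ℤ) (F : Set ℤ) (i : Bool) (c : ℕ) (β : ℤ) (j : ℕ) (b : ℤ) (Z : ℕ) : ℝ :=
  ∑ z ∈ Ico Z (2 * Z), if Dg ρ F i (3 ^ j * (z : ℤ) + b) (3 ^ c * (3 ^ j * (z : ℤ) + b) + ρ * β) then 1 else 0

theorem Bc_nonneg (F : Set ℤ) (i : Bool) (c : ℕ) (β : ℤ) (j : ℕ) (b : ℤ) (Z : ℕ) : 0 ≤ Bc ρ F i c β j b Z := by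
  unfold Bc
  refine sum_nonneg fun z _ => ?_
  split_ifs <;> norm_num

private theorem sum_double49 (f : ℕ → ℝ) (m n : ℕ) (h : m ≤ n) :
    ∑ z ∈ Ico (2 * m) (2 * n), f z = ∑ u ∈ Ico m n, (f (2 * u) + f (2 * u + 1)) := by
  induction n, h using Nat.le_induction with
  | base => simp
  | succ n hn ih =>
    rw [sum_Ico_succ_top hn, show 2 * (n + 1) = 2 * n + 1 + 1 by ring, sum_Ico_succ_top (by omega),
      sum_Ico_succ_top (by omega), ih]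
    ring

/-- A bound for the next values. -/
private theorem nx0_bd49 {c : ℕ} {β : ℤ} {R : ℤ} (hR : 1 ≤ R) (h : |β| ≤ R * 3 ^ c) :
    |(nx0 (c, β)).2| ≤ 2 * R * 3 ^ (nx0 (c, β)).1 := by
  have h3 : (1 : ℤ) ≤ 3 ^ c := one_le_pow₀ (by norm_num)
  have hR3 : (3 : ℤ) ^ c ≤ R * 3 ^ c := le_mul_of_one_le_left (by positivity) hR
  have hh := abs_le.1 h
  rcases two_nx0 c β with ⟨hb, h1, h2⟩ | ⟨hb, h1, h2⟩
  · rw [h1, abs_le]
    constructor <;> nlinarith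
  · rw [h1, pow_succ, abs_le]
    constructor <;> nlinarith

private theorem nx1_bd49 {c : ℕ} {β : ℤ} {R : ℤ} (hR : 1 ≤ R) (h : |β| ≤ R * 3 ^ c) :
    |(nx1 (c, β)).2| ≤ 2 * R * 3 ^ (nx1 (c, β)).1 := by
  have h3 : (1 : ℤ) ≤ 3 ^ c := one_le_pow₀ (by norm_num)
  have hR3 : (3 : ℤ) ^ c ≤ R * 3 ^ c := le_mul_of_one_le_left (by positivity) hR
  have hh := abs_le.1 h
  rcases two_nx1 c β with ⟨hb, h1, h2⟩ | ⟨hb, h0, h1, h2⟩ | ⟨hb, h0, h1, h2⟩
  · rw [h1, abs_le]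
    constructor <;> nlinarith
  · subst h0
    rw [h1, abs_le]
    rw [pow_zero, mul_one] at hh
    constructor <;> nlinarith
  · obtain ⟨c', rfl⟩ := Nat.exists_eq_add_of_le' h0
    rw [Nat.add_sub_cancel] at h1 h2
    have h4 : (1 : ℤ) ≤ 3 ^ c' := one_le_pow₀ (by norm_num)
    have h5 : (3 : ℤ) ^ c' ≤ R * 3 ^ c' := le_mul_of_one_le_left (by positivity) hR
    rw [pow_succ] at hh
    rw [h1, abs_le]
    constructor <;> nlinarith

/-- The points are beyond `F`. -/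
private theorem notin49 {F : Set ℤ} {B : ℝ} (hB : 0 ≤ B) (hF : ∀ a ∈ F, (a : ℝ) ≤ B) {c j : ℕ} {β b R : ℤ}
    (hβ : |β| ≤ R * 3 ^ c) (hb : |b| ≤ R * 3 ^ j) {z : ℕ} (hR : 1 ≤ R) (hz : B + (|ρ| + 1 : ℤ) * R < z) :
    3 ^ j * (z : ℤ) + b ∉ F ∧ 3 ^ c * (3 ^ j * (z : ℤ) + b) + ρ * β ∉ F := by
  obtain ⟨y, hy⟩ : ∃ y : ℤ, y = 3 ^ j * (z : ℤ) + b := ⟨_, rfl⟩
  have hρ0 := abs_nonneg ρ
  have hRr : (1 : ℝ) ≤ R := by exact_mod_cast hR
  have hzR : R ≤ (z : ℤ) := by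
    have h1 : (R : ℝ) ≤ z := by
      push_cast at hz
      have h2 : (0 : ℝ) ≤ |(ρ : ℝ)| := abs_nonneg _
      nlinarith
    exact_mod_cast h1
  have h3 : (1 : ℤ) ≤ 3 ^ j := one_le_pow₀ (by norm_num)
  have h3c : (1 : ℤ) ≤ 3 ^ c := one_le_pow₀ (by norm_num)
  have h1 : (z : ℤ) - R ≤ y := by
    have h4 := (abs_le.1 hb).1
    rw [hy]
    nlinarith
  have h5 : B + |ρ| * R < y := by
    have h6 : ((z : ℤ) : ℝ) - R ≤ y := by exact_mod_cast h1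
    push_cast at hz h6 ⊢
    linarith
  have h7 : (0 : ℝ) ≤ |(ρ : ℝ)| * R := mul_nonneg (abs_nonneg _) (by linarith)
  rw [← hy]
  constructor
  · intro h
    have := hF _ h
    push_cast at h5
    linarith
  · intro h
    have h8 := hF _ h
    have h9 : -(|ρ| * (R * 3 ^ c)) ≤ ρ * β := by
      have h10 := neg_abs_le (ρ * β)
      rw [abs_mul] at h10
      have h11 := mul_le_mul_of_nonneg_left hβ hρ0
      linarith
    have h10 : -(|(ρ : ℝ)| * (R * 3 ^ c)) ≤ ρ * β := by exact_mod_cast h9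
    have h3r : (1 : ℝ) ≤ 3 ^ c := by exact_mod_cast h3c
    push_cast at h8 h5
    nlinarith

/-- One step. -/
theorem step49 (hρ : Odd ρ) {F : Set ℤ} {B : ℝ} (hB : 0 ≤ B) (hF : ∀ a ∈ F, (a : ℝ) ≤ B) (i : Bool) {c j : ℕ}
    {β b R : ℤ} (hR : 1 ≤ R) (hβ : |β| ≤ R * 3 ^ c) (hb : |b| ≤ R * 3 ^ j) {Z : ℕ}
    (hZ : B + (|ρ| + 1 : ℤ) * R < ((2 * Z : ℕ) : ℝ)) :
    ∃ (i₁ : Bool) (j₁ : ℕ) (b₀ b₁ : ℤ), j₁ ≤ j + 1 ∧ |b₀| ≤ (|ρ| + 4) * R * 3 ^ j ∧
      |b₁| ≤ (|ρ| + 4) * R * 3 ^ j₁ ∧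
      Bc ρ F i c β j b (2 * Z) = Bc ρ F i (nx0 (c, β)).1 (nx0 (c, β)).2 j b₀ Z +
        Bc ρ F i₁ (nx1 (c, β)).1 (nx1 (c, β)).2 j₁ b₁ Z := by
  have hρ0 := abs_nonneg ρ
  have h3 : (1 : ℤ) ≤ 3 ^ j := one_le_pow₀ (by norm_num)
  have hR3 : (3 : ℤ) ^ j ≤ R * 3 ^ j := le_mul_of_one_le_left (by positivity) hR
  have hbb := abs_le.1 hb
  -- the two digits
  obtain ⟨e₀, e₁, he₀, he₁, hE, hO, hsplit⟩ : ∃ e₀ e₁ : ℕ, e₀ ≤ 1 ∧ e₁ ≤ 1 ∧ Even (3 ^ j * (e₀ : ℤ) + b) ∧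
      ¬ Even (3 ^ j * (e₁ : ℤ) + b) ∧ ∀ (f : ℕ → ℝ) (u : ℕ), f (2 * u) + f (2 * u + 1) = f (2 * u + e₀) + f (2 * u + e₁) := by
    have h3e : ¬ Even ((3 : ℤ) ^ j) := by
      rw [Int.not_even_iff_odd]
      exact Odd.pow (by decide)
    by_cases hbe : Even b
    · refine ⟨0, 1, by norm_num, le_rfl, ?_, ?_, fun f u => by rw [add_zero]⟩
      · simpa using hbe
      · rw [Int.even_add, Int.even_mul]
        push_cast
        have : ¬ Even (1 : ℤ) := by decide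
        tauto
    · refine ⟨1, 0, le_rfl, by norm_num, ?_, ?_, fun f u => by rw [add_zero]; ring⟩
      · rw [Int.even_add, Int.even_mul]
        push_cast
        have : ¬ Even (1 : ℤ) := by decide
        tauto
      · simpa using hbe
  have he₀' : (0 : ℤ) ≤ e₀ ∧ (e₀ : ℤ) ≤ 1 := ⟨by positivity, by exact_mod_cast he₀⟩
  have he₁' : (0 : ℤ) ≤ e₁ ∧ (e₁ : ℤ) ≤ 1 := ⟨by positivity, by exact_mod_cast he₁⟩
  obtain ⟨b₀, hb₀⟩ := hE.two_dvd
  have hb₀b : |b₀| ≤ (|ρ| + 4) * R * 3 ^ j := by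
    have h4 : 0 ≤ |ρ| * (R * 3 ^ j) := by positivity
    rw [abs_le]
    constructor <;> nlinarith
  have hsum : Bc ρ F i c β j b (2 * Z) =
      ∑ u ∈ Ico Z (2 * Z), (if Dg ρ F i (3 ^ j * ((2 * u + e₀ : ℕ) : ℤ) + b)
        (3 ^ c * (3 ^ j * ((2 * u + e₀ : ℕ) : ℤ) + b) + ρ * β) then (1 : ℝ) else 0) +
      ∑ u ∈ Ico Z (2 * Z), (if Dg ρ F i (3 ^ j * ((2 * u + e₁ : ℕ) : ℤ) + b)
        (3 ^ c * (3 ^ j * ((2 * u + e₁ : ℕ) : ℤ) + b) + ρ * β) then (1 : ℝ) else 0) := by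
    unfold Bc
    rw [sum_double49 _ Z (2 * Z) (by omega), ← sum_add_distrib]
    refine sum_congr rfl fun u _ => ?_
    exact hsplit (fun z : ℕ => if Dg ρ F i (3 ^ j * (z : ℤ) + b)
        (3 ^ c * (3 ^ j * (z : ℤ) + b) + ρ * β) then (1 : ℝ) else 0) u
  have hout : ∀ u ∈ Ico Z (2 * Z), ∀ e : ℕ, 3 ^ j * ((2 * u + e : ℕ) : ℤ) + b ∉ F ∧
      3 ^ c * (3 ^ j * ((2 * u + e : ℕ) : ℤ) + b) + ρ * β ∉ F := by
    intro u hu e
    refine notin49 hB hF hβ hb hR (lt_of_lt_of_le hZ ?_)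
    have := (mem_Ico.1 hu).1
    exact_mod_cast (by omega : 2 * Z ≤ 2 * u + e)
  -- the digit 0
  have hE1 : ∑ u ∈ Ico Z (2 * Z), (if Dg ρ F i (3 ^ j * ((2 * u + e₀ : ℕ) : ℤ) + b)
        (3 ^ c * (3 ^ j * ((2 * u + e₀ : ℕ) : ℤ) + b) + ρ * β) then (1 : ℝ) else 0) =
      Bc ρ F i (nx0 (c, β)).1 (nx0 (c, β)).2 j b₀ Z := by
    unfold Bc
    refine sum_congr rfl fun u hu => ?_
    obtain ⟨h4, h5⟩ := hout u hu e₀
    have ey : Even (3 ^ j * ((2 * u + e₀ : ℕ) : ℤ) + b) := by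
      have : 3 ^ j * ((2 * u + e₀ : ℕ) : ℤ) + b = 2 * (3 ^ j * u) + (3 ^ j * (e₀ : ℤ) + b) := by
        push_cast
        ring
      rw [this]
      exact (even_two_mul _).add hE
    have eT : T 2 3 (fun _ => ρ) (3 ^ j * ((2 * u + e₀ : ℕ) : ℤ) + b) = 3 ^ j * (u : ℤ) + b₀ := by
      have h6 := two_T_even (ρ := ρ) ey
      have h7 : 2 * T 2 3 (fun _ => ρ) (3 ^ j * ((2 * u + e₀ : ℕ) : ℤ) + b) = 2 * (3 ^ j * (u : ℤ) + b₀) := by
        rw [h6]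
        push_cast
        linear_combination hb₀
      linarith
    have e := Dg_T (ρ := ρ) i h4 h5
    rw [T_pair_even hρ c β ey, eT] at e
    simp only [e]
  by_cases hsw : 1 ≤ c ∨ Even β
  · -- the digit 1
    have hd : (2 : ℤ) ∣ 3 * (3 ^ j * (e₁ : ℤ) + b) - ρ := by
      rw [Int.not_even_iff_odd] at hO
      obtain ⟨a, ha⟩ := hO
      obtain ⟨a', ha'⟩ := hρ
      exact ⟨3 * a + 1 - a', by rw [ha, ha']; ring⟩
    obtain ⟨b₁, hb₁⟩ := hd
    refine ⟨i, j + 1, b₀, b₁, le_rfl, hb₀b, ?_, ?_⟩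
    · have h4 : 0 ≤ |ρ| * (R * 3 ^ j) := by positivity
      have h5 : |ρ| ≤ |ρ| * (R * 3 ^ j) := le_mul_of_one_le_right hρ0 (by nlinarith)
      have h6 := abs_le.1 (le_refl |ρ|)
      have h7 : (|ρ| + 4) * R * 3 ^ (j + 1) = 3 * (|ρ| * (R * 3 ^ j)) + 12 * (R * 3 ^ j) := by
        rw [pow_succ]
        ring
      rw [h7, abs_le]
      constructor <;> nlinarith
    · rw [hsum, hE1]
      congr 1
      unfold Bc
      refine sum_congr rfl fun u hu => ?_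
      obtain ⟨h4, h5⟩ := hout u hu e₁
      have ey : ¬ Even (3 ^ j * ((2 * u + e₁ : ℕ) : ℤ) + b) := by
        have : 3 ^ j * ((2 * u + e₁ : ℕ) : ℤ) + b = 2 * (3 ^ j * u) + (3 ^ j * (e₁ : ℤ) + b) := by
          push_cast
          ring
        rw [this, Int.even_add]
        have := even_two_mul (3 ^ j * (u : ℤ))
        tauto
      have eT : T 2 3 (fun _ => ρ) (3 ^ j * ((2 * u + e₁ : ℕ) : ℤ) + b) = 3 ^ (j + 1) * (u : ℤ) + b₁ := by
        have h6 := two_T_odd hρ ey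
        have h7 : 2 * T 2 3 (fun _ => ρ) (3 ^ j * ((2 * u + e₁ : ℕ) : ℤ) + b) = 2 * (3 ^ (j + 1) * (u : ℤ) + b₁) := by
          rw [h6]
          push_cast
          linear_combination hb₁
        linarith
      have e := Dg_T (ρ := ρ) i h4 h5
      rw [T_pair_odd hρ c β ey hsw, eT] at e
      simp only [e]
  · -- the exchange
    push Not at hsw
    obtain ⟨hc0, hβo⟩ := hsw
    have hc : c = 0 := by omega
    subst hc
    have hd : (2 : ℤ) ∣ 3 ^ j * (e₁ : ℤ) + b + ρ * β := by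
      rw [Int.not_even_iff_odd] at hO hβo
      exact (hO.add_odd (hρ.mul hβo)).two_dvd
    obtain ⟨b₁, hb₁⟩ := hd
    refine ⟨!i, j, b₀, b₁, by omega, hb₀b, ?_, ?_⟩
    · rw [pow_zero, mul_one] at hβ
      have h4 : |ρ * β| ≤ |ρ| * R := by
        rw [abs_mul]
        exact mul_le_mul_of_nonneg_left hβ hρ0
      have h5 := abs_le.1 h4
      have h6 : |ρ| * R ≤ |ρ| * (R * 3 ^ j) := by
        refine mul_le_mul_of_nonneg_left ?_ hρ0
        exact le_mul_of_one_le_right (by linarith) h3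
      rw [abs_le]
      constructor <;> nlinarith
    · rw [hsum, hE1]
      congr 1
      unfold Bc
      refine sum_congr rfl fun u hu => ?_
      obtain ⟨h4, h5⟩ := hout u hu e₁
      have ey : ¬ Even (3 ^ j * ((2 * u + e₁ : ℕ) : ℤ) + b) := by
        have : 3 ^ j * ((2 * u + e₁ : ℕ) : ℤ) + b = 2 * (3 ^ j * u) + (3 ^ j * (e₁ : ℤ) + b) := by
          push_cast
          ring
        rw [this, Int.even_add]
        have := even_two_mul (3 ^ j * (u : ℤ))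
        tauto
      obtain ⟨ey', -, eT1⟩ := T_pair_swap hρ hβo ey
      have eT : T 2 3 (fun _ => ρ) (3 ^ j * ((2 * u + e₁ : ℕ) : ℤ) + b + ρ * β) = 3 ^ j * (u : ℤ) + b₁ := by
        have h6 := two_T_even (ρ := ρ) ey'
        have h7 : 2 * T 2 3 (fun _ => ρ) (3 ^ j * ((2 * u + e₁ : ℕ) : ℤ) + b + ρ * β) =
            2 * (3 ^ j * (u : ℤ) + b₁) := by
          rw [h6]
          push_cast
          linear_combination hb₁
        linarith
      have e := (Dg_T (ρ := ρ) i h4 h5).trans (Dg_swap F i _ _)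
      rw [pow_zero, one_mul, eT1, eT] at e
      simp only [pow_zero, one_mul, e]

/-- The recursion. -/
theorem rec49 (hρ : Odd ρ) {F : Set ℤ} {B : ℝ} (hB : 0 ≤ B) (hF : ∀ a ∈ F, (a : ℝ) ≤ B) {s J : ℕ} {R : ℤ} {c₀ : ℝ}
    {Z₀ : ℕ} (hZ₀ : B + (|ρ| + 1 : ℤ) * R < Z₀) (K : ℕ)
    (H : ∀ (i : Bool) (j : ℕ) (β b : ℤ) (k : ℕ), j ≤ J → k ≤ K → |β| ≤ R * 3 ^ s → |b| ≤ R * 3 ^ j →
      c₀ * (2 ^ k * Z₀) ≤ Bc ρ F i s β j b (2 ^ k * Z₀)) :
    ∀ k ≤ K, ∀ (i : Bool) (c : ℕ) (β : ℤ) (j : ℕ) (b : ℤ) (R' : ℤ), 1 ≤ R' → (|ρ| + 4) ^ k * R' ≤ R → c ≤ s →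
      j + k ≤ J → |β| ≤ R' * 3 ^ c → |b| ≤ R' * 3 ^ j →
      c₀ * (2 ^ k * Z₀) * rr s k (c, β) ≤ Bc ρ F i c β j b (2 ^ k * Z₀) := by
  have hρ0 := abs_nonneg ρ
  intro k
  induction k with
  | zero =>
    intro hk i c β j b R' hR' hRR hcs hjk hβ hb
    rw [pow_zero, one_mul] at hRR
    by_cases hs : s ≤ c
    · have hcs' : c = s := le_antisymm hcs hs
      subst hcs'
      rw [rr_out (x := (c, β)) le_rfl, mul_one]
      refine H i j β b 0 (by omega) hk (hβ.trans ?_) (hb.trans ?_)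
      · exact mul_le_mul_of_nonneg_right hRR (by positivity)
      · exact mul_le_mul_of_nonneg_right hRR (by positivity)
    · have : rr s 0 (c, β) = 0 := if_neg hs
      rw [this, mul_zero]
      exact Bc_nonneg _ _ _ _ _ _ _
  | succ k ih =>
    intro hk i c β j b R' hR' hRR hcs hjk hβ hb
    have hAk : (1 : ℤ) ≤ (|ρ| + 4) ^ (k + 1) := one_le_pow₀ (by linarith)
    have hR'R : R' ≤ R := by nlinarith
    by_cases hs : s ≤ c
    · have hcs' : c = s := le_antisymm hcs hs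
      subst hcs'
      rw [rr_out (x := (c, β)) le_rfl, mul_one]
      have h := H i j β b (k + 1) (by omega) hk (hβ.trans (mul_le_mul_of_nonneg_right hR'R (by positivity)))
        (hb.trans (mul_le_mul_of_nonneg_right hR'R (by positivity)))
      exact h
    · have hZ : B + (|ρ| + 1 : ℤ) * R' < ((2 * (2 ^ k * Z₀) : ℕ) : ℝ) := by
        have h1 : (Z₀ : ℝ) ≤ ((2 * (2 ^ k * Z₀) : ℕ) : ℝ) := by
          have : 1 ≤ 2 ^ k := Nat.one_le_two_pow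
          exact_mod_cast (by nlinarith : Z₀ ≤ 2 * (2 ^ k * Z₀))
        have h2 : ((|ρ| + 1 : ℤ) : ℝ) * R' ≤ ((|ρ| + 1 : ℤ) : ℝ) * R := by
          refine mul_le_mul_of_nonneg_left (by exact_mod_cast hR'R) ?_
          exact_mod_cast (by linarith : (0 : ℤ) ≤ |ρ| + 1)
        linarith
      obtain ⟨i₁, j₁, b₀, b₁, hj₁, hb₀, hb₁, e⟩ := step49 hρ hB hF i hR' hβ hb hZ
      have hAR : 1 ≤ (|ρ| + 4) * R' := by nlinarith
      have hARR : (|ρ| + 4) ^ k * ((|ρ| + 4) * R') ≤ R := by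
        have : (|ρ| + 4) ^ k * ((|ρ| + 4) * R') = (|ρ| + 4) ^ (k + 1) * R' := by ring
        rw [this]
        exact hRR
      have h2A : ∀ n : ℕ, 2 * R' * 3 ^ n ≤ (|ρ| + 4) * R' * 3 ^ n := by
        intro n
        refine mul_le_mul_of_nonneg_right ?_ (by positivity)
        nlinarith
      have h0 := ih (by omega) i (nx0 (c, β)).1 (nx0 (c, β)).2 j b₀ ((|ρ| + 4) * R') hAR hARR
        (by have := nx0_level (c, β); simp only at this; omega) (by omega)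
        ((nx0_bd49 hR' hβ).trans (h2A _)) hb₀
      have h1 := ih (by omega) i₁ (nx1 (c, β)).1 (nx1 (c, β)).2 j₁ b₁ ((|ρ| + 4) * R') hAR hARR
        (by have := nx1_level (c, β); simp only at this; omega) (by omega)
        ((nx1_bd49 hR' hβ).trans (h2A _)) hb₁
      have e2 : 2 ^ (k + 1) * Z₀ = 2 * (2 ^ k * Z₀) := by ring
      rw [e2, e, rr_in (x := (c, β)) hs, av]
      have e3 : c₀ * ((2 : ℝ) ^ (k + 1) * Z₀) * ((rr s k (nx0 (c, β)) + rr s k (nx1 (c, β))) / 2) =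
          c₀ * (2 ^ k * Z₀) * rr s k (nx0 (c, β)) + c₀ * (2 ^ k * Z₀) * rr s k (nx1 (c, β)) := by
        rw [pow_succ]
        ring
      rw [e3]
      exact add_le_add h0 h1

end Pool.Agent.Helper8.RU
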