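import Pool.Agent.Helper8.ST.Lim
import Pool.Agent.Helper8.PW.CF
import Pool.Agent.Helper8.PW.MIXa

/-!
# RU-R10: the hitting times in the residue classes modulo `m ^ k`

* `class_hit`: for `k ≤ κ log x` the relative number of the elements of `hit F s` in every class modulo `m ^ k` in `[x, 2x)` is the relative number
  of all its elements in `[x, 2x)`, up to `ε` (`class_flow`), for all `s`; and the same for `hitI F`.
* `two_scales`: there is a `g > 0` such that with `s = ⌊log a / γ⌋`: the density of `hit F s` in `[a, 2a)` is at least the density in `[a', 2a')` plus `D g`,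
  if `log a + Λ √(log a) ≤ log a' ≤ 2 log a`.
-/

set_option autoImplicit false

namespace Pool.Agent.Helper8.RU

open Pool.Agent.Helper68.Moeller Pool.Agent.Helper52.Tao Pool.Agent.Helper8.ND Pool.Agent.Helper28 Pool.Agent.Helper8.PW
  Pool.Agent.Helper8.ST Pool.Agent.Helper91 ProbabilityTheory Filter Topology

variable {d m : ℕ} {r : ℤ → ℤ}

theorem fdc_congr {A A' : Set ℤ} {N : ℕ} {b : ℤ} {x : ℝ} (h : ∀ n : ℤ, x ≤ n → (n ∈ A ↔ n ∈ A')) :
    fdc A N b x = fdc A' N b x := by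
  have e : {n : ℤ | x ≤ n ∧ (n : ℝ) < 2 * x ∧ (N : ℤ) ∣ n - b ∧ n ∈ A} =
      {n : ℤ | x ≤ n ∧ (n : ℝ) < 2 * x ∧ (N : ℤ) ∣ n - b ∧ n ∈ A'} := by
    ext n
    simp only [Set.mem_ofPred_eq]
    constructor
    · rintro ⟨h1, h2, h3, h4⟩
      exact ⟨h1, h2, h3, (h n h1).1 h4⟩
    · rintro ⟨h1, h2, h3, h4⟩
      exact ⟨h1, h2, h3, (h n h1).2 h4⟩
  unfold fdc
  rw [e]

theorem class_hit (h : POSB.Std d m r) {F : Set ℤ} {b : ℝ} (hb : 0 ≤ b) (hF : ∀ n ∈ F, (n : ℝ) ≤ b) :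
    ∃ κ : ℝ, 0 < κ ∧ ∀ ε : ℝ, 0 < ε → ∃ X : ℝ, ∀ x : ℝ, X ≤ x → ∀ k : ℕ, (k : ℝ) ≤ κ * Real.log x → ∀ c : ℤ,
      (∀ s : ℕ, |fdc (hit d m r F s) (m ^ k) c x - fd (hit d m r F s) x| ≤ ε) ∧
      |fdc (hitI d m r F) (m ^ k) c x - fd (hitI d m r F) x| ≤ ε := by
  obtain ⟨κ, C, hκ, hC, hflow⟩ := class_flow h.hd h.hdm h.hco h.hr (mixS_std h) 1
  obtain ⟨B, hB⟩ := FL_exists_B d r
  have hd1R : (1 : ℝ) ≤ d := by exact_mod_cast (by have := h.hd; omega : 1 ≤ d)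
  have hm1R : (1 : ℝ) ≤ m := by exact_mod_cast (by have := h.hd; have := h.hdm; omega : 1 ≤ m)
  have hdm4 : (4 : ℝ) ≤ (d : ℝ) * m := by
    have h1 : (2 : ℝ) ≤ d := by exact_mod_cast h.hd
    have h2 : (3 : ℝ) ≤ m := by exact_mod_cast (by have := h.hd; have := h.hdm; omega : 3 ≤ m)
    nlinarith
  obtain ⟨q, hq⟩ : ∃ q : ℝ, q = Real.log ((d : ℝ) * m) := ⟨_, rfl⟩
  have hq0 : 0 < q := by rw [hq]; exact Real.log_pos (by linarith)
  refine ⟨κ / (32 * q), by positivity, fun ε hε => ?_⟩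
  -- the constant
  obtain ⟨C', hC'⟩ : ∃ C' : ℝ, C' = C + (B + b) + 1 := ⟨_, rfl⟩
  have hB0 : (0 : ℝ) ≤ B := Nat.cast_nonneg B
  have hC'0 : 1 ≤ C' := by
    rw [hC']
    linarith
  have hlC' : 0 ≤ Real.log C' := Real.log_nonneg hC'0
  refine ⟨Real.exp (16 * q * (C / ε + 1) + 32 * q + 2 * Real.log C'), fun x hx k hk c => ?_⟩
  have hx0 : 0 < x := (Real.exp_pos _).trans_le hx
  have hL := (Real.le_log_iff_exp_le hx0).2 hx
  obtain ⟨L, hLd⟩ : ∃ L : ℝ, L = Real.log x := ⟨_, rfl⟩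
  rw [← hLd] at hL hk
  have hCε : 0 < C / ε := by positivity
  have hqCε : 0 ≤ 16 * q * (C / ε + 1) := by positivity
  have hL16 : 32 * q ≤ L := by linarith
  -- the number of the steps
  obtain ⟨t, ht⟩ : ∃ t : ℕ, t = ⌊L / (16 * q)⌋₊ := ⟨_, rfl⟩
  have hLq : 2 ≤ L / (16 * q) := by rw [le_div_iff₀ (by positivity)]; linarith
  have ht1 : 1 ≤ t := by rw [ht]; exact (Nat.one_le_floor_iff _).2 (by linarith)
  have htle : (t : ℝ) ≤ L / (16 * q) := by rw [ht]; exact Nat.floor_le (by linarith)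
  have htge : L / (16 * q) < t + 1 := by rw [ht]; exact Nat.lt_floor_add_one _
  have ht1' : (1 : ℝ) ≤ t := by exact_mod_cast ht1
  have htC : C / ε ≤ t := by
    have h1 : C / ε + 1 ≤ L / (16 * q) := by
      rw [le_div_iff₀ (by positivity)]
      nlinarith
    linarith
  have hkt : (k : ℝ) ≤ κ * t := by
    refine hk.trans ?_
    have h1 : L / (32 * q) ≤ t := by
      have h2 : L / (32 * q) = L / (16 * q) / 2 := by rw [div_div]; congr 1; ring
      rw [h2]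
      linarith
    calc κ / (32 * q) * L = κ * (L / (32 * q)) := by ring
      _ ≤ κ * t := mul_le_mul_of_nonneg_left h1 hκ.le
  have hpow : ((d : ℝ) * m) ^ (8 * t) ≤ Real.exp (L / 2) := by
    have h1 : ((d : ℝ) * m) ^ (8 * t) = Real.exp (q * ((8 * t : ℕ) : ℝ)) := by
      rw [mul_comm q, Real.exp_nat_mul, hq, Real.exp_log (by linarith)]
    rw [h1]
    apply Real.exp_le_exp.2
    push_cast
    rw [le_div_iff₀ (by positivity)] at htle
    linarith
  have hCx : C' * ((d : ℝ) * m) ^ (8 * t) ≤ x := by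
    have h1 : C' ≤ Real.exp (L / 2) := by
      rw [← Real.exp_log (by linarith : 0 < C')]
      exact Real.exp_le_exp.2 (by linarith)
    calc C' * ((d : ℝ) * m) ^ (8 * t) ≤ Real.exp (L / 2) * Real.exp (L / 2) :=
          mul_le_mul h1 hpow (by positivity) (Real.exp_pos _).le
      _ = x := by
          rw [← Real.exp_add, add_halves, hLd, Real.exp_log hx0]
  have hP1 : (1 : ℝ) ≤ ((d : ℝ) * m) ^ (8 * t) := one_le_pow₀ (by linarith)
  have hx1 : C * ((d : ℝ) * m) ^ (8 * t) ≤ x := by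
    refine le_trans (mul_le_mul_of_nonneg_right ?_ (by positivity)) hCx
    rw [hC']
    linarith
  have hbig : ∀ n : ℤ, x ≤ n → (B : ℝ) * m ^ t + b * d ^ t < n := by
    intro n hn
    have h1 : (m : ℝ) ^ t ≤ ((d : ℝ) * m) ^ (8 * t) := by
      calc (m : ℝ) ^ t ≤ ((d : ℝ) * m) ^ t := pow_le_pow_left₀ (by linarith) (by nlinarith) t
        _ ≤ ((d : ℝ) * m) ^ (8 * t) := pow_le_pow_right₀ (by linarith) (by omega)
    have h2 : (d : ℝ) ^ t ≤ ((d : ℝ) * m) ^ (8 * t) := by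
      calc (d : ℝ) ^ t ≤ ((d : ℝ) * m) ^ t := pow_le_pow_left₀ (by linarith) (by nlinarith) t
        _ ≤ ((d : ℝ) * m) ^ (8 * t) := pow_le_pow_right₀ (by linarith) (by omega)
    have h3 : (B : ℝ) * m ^ t ≤ B * ((d : ℝ) * m) ^ (8 * t) := mul_le_mul_of_nonneg_left h1 hB0
    have h4 : b * (d : ℝ) ^ t ≤ b * ((d : ℝ) * m) ^ (8 * t) := mul_le_mul_of_nonneg_left h2 hb
    have h5 : C' * ((d : ℝ) * m) ^ (8 * t) = C * ((d : ℝ) * m) ^ (8 * t) + (B * ((d : ℝ) * m) ^ (8 * t) +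
        b * ((d : ℝ) * m) ^ (8 * t)) + ((d : ℝ) * m) ^ (8 * t) := by
      rw [hC']
      ring
    have h6 : 0 < C * ((d : ℝ) * m) ^ (8 * t) := by positivity
    linarith
  have herr : C * (t : ℝ) ^ (-(1 : ℝ)) ≤ ε := by
    rw [Real.rpow_neg_one, ← div_eq_mul_inv, div_le_iff₀ (by linarith)]
    rw [div_le_iff₀ hε] at htC
    linarith
  have hmain : ∀ A G : Set ℤ, (∀ n : ℤ, x ≤ n → (n ∈ A ↔ (T d m r)^[t] n ∈ G)) →
      |fdc A (m ^ k) c x - fd A x| ≤ ε := by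
    intro A G hAG
    have h1 := hflow t ht1 k hkt c x hx1 G
    rw [fdc_congr (A := A) (A' := {n | (T d m r)^[t] n ∈ G}) (fun n hn => hAG n hn),
      fd_congr (A := A) (A' := {n | (T d m r)^[t] n ∈ G}) (fun n hn => hAG n hn)]
    exact h1.trans herr
  refine ⟨fun s => ?_, ?_⟩
  · by_cases hts : t ≤ s
    · exact hmain _ (hit d m r F (s - t)) fun n hn => hit_iter h.hd h.hdm h.hr hB hb hF hts (hbig n hn)
    · refine hmain _ ∅ fun n hn => ?_
      simp only [Set.mem_empty_iff_false, iff_false]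
      rintro ⟨i, hi, hni⟩
      have h1 := iter_gt h.hd h.hdm h.hr hB hb (hbig n hn) i (by omega)
      linarith [hF _ hni]
  · refine hmain _ (hitI d m r F) fun n hn => ?_
    have h1 := iter_gt h.hd h.hdm h.hr hB hb (hbig n hn)
    constructor
    · rintro ⟨i, hi⟩
      have h2 : t ≤ i := by
        by_contra hcon
        push Not at hcon
        have := h1 i hcon.le
        linarith [hF _ hi]
      refine ⟨i - t, ?_⟩
      rw [← Function.iterate_add_apply, Nat.sub_add_cancel h2]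
      exact hi
    · rintro ⟨i, hi⟩
      refine ⟨i + t, ?_⟩
      rw [Function.iterate_add_apply]
      exact hi

/-- `g = Φ(0) - Φ(-δ) > 0`. -/
theorem cdf_gap {δ : ℝ} (hδ : 0 < δ) : cdf (gaussianReal 0 1) (-δ) < cdf (gaussianReal 0 1) 0 := by
  rw [cdf_eq_real, cdf_eq_real]
  have h1 : Set.Iic (0 : ℝ) = Set.Iic (-δ) ∪ Set.Ioc (-δ) 0 := (Set.Iic_union_Ioc_eq_Iic (by linarith)).symm
  have h2 : Disjoint (Set.Iic (-δ)) (Set.Ioc (-δ) 0) := by
    rw [Set.disjoint_left]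
    intro x hx hx'
    exact absurd hx'.1 (not_lt.2 hx)
  rw [h1, MeasureTheory.measureReal_union h2 measurableSet_Ioc]
  have h3 : 0 < (gaussianReal 0 1).real (Set.Ioc (-δ) 0) := by
    rw [MeasureTheory.measureReal_def, ENNReal.toReal_pos_iff]
    refine ⟨?_, MeasureTheory.measure_lt_top _ _⟩
    rw [pos_iff_ne_zero]
    intro h4
    have h5 := gaussianReal_absolutelyContinuous' 0 (v := 1) one_ne_zero h4
    rw [Real.volume_Ioc] at h5
    have h6 : ENNReal.ofReal (0 - -δ) ≠ 0 := by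
      rw [Ne, ENNReal.ofReal_eq_zero, not_le]
      linarith
    exact h6 h5
  linarith

theorem two_scales (h : POSB.Std d m r) {F : Set ℤ} {b : ℝ} (hb : 0 ≤ b) (hF : ∀ n ∈ F, (n : ℝ) ≤ b) {Λ : ℝ}
    (hΛ : 0 < Λ) : ∃ g : ℝ, 0 < g ∧ ∀ ε : ℝ, 0 < ε → ∃ X : ℝ, ∀ a : ℝ, X ≤ a →
      |fd (hitI d m r F) a - PL.dens (hitI d m r F)| ≤ ε ∧
      ∀ a' : ℝ, 0 < a' → Real.log a + Λ * Real.sqrt (Real.log a) ≤ Real.log a' → Real.log a' ≤ 2 * Real.log a →
        fd (hit d m r F ⌊Real.log a / PL.gam d m⌋₊) a' + PL.dens (hitI d m r F) * g - ε ≤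
          fd (hit d m r F ⌊Real.log a / PL.gam d m⌋₊) a := by
  have hγ : 0 < PL.gam d m := h.gam
  obtain ⟨γ, hγd⟩ : ∃ γ, γ = PL.gam d m := ⟨_, rfl⟩
  rw [← hγd] at hγ
  have hd1 : (1 : ℝ) < d := by exact_mod_cast (by have := h.hd; omega : 1 < d)
  have hd0 : (0 : ℝ) < d := by linarith
  have hm1 : (1 : ℝ) < m := by exact_mod_cast (by have := h.hd; have := h.hdm; omega : 1 < m)
  have hsd : 0 < sd d m := by
    unfold sd
    have h1 : 1 / (d : ℝ) < 1 := by rw [div_lt_one hd0]; exact hd1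
    have h2 : 0 < (1 - 1 / (d : ℝ)) * (1 / (d : ℝ)) := mul_pos (by linarith) (by positivity)
    have h3 := Real.sqrt_pos.2 h2
    have h4 : 0 < Real.log m := Real.log_pos hm1
    have h5 := Real.sqrt_pos.2 h.gam
    have h6 := h.gam
    positivity
  obtain ⟨δ, hδd⟩ : ∃ δ, δ = Λ / (2 * (γ * sd d m)) := ⟨_, rfl⟩
  have hδ : 0 < δ := by rw [hδd]; positivity
  refine ⟨cdf (gaussianReal 0 1) 0 - cdf (gaussianReal 0 1) (-δ), by linarith [cdf_gap hδ], fun ε hε => ?_⟩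
  obtain ⟨D, hD⟩ : ∃ D, D = PL.dens (hitI d m r F) := ⟨_, rfl⟩
  have htend : Tendsto (fun x : ℝ => fd (hitI d m r F) x) atTop (𝓝 D) := by
    rw [hD]
    exact PL.stab_tendsto h.hd h.hdm h.hco h.hr h.gam h.mix (tinv_hitI hF)
  have hD0 : 0 ≤ D := by
    refine ge_of_tendsto htend ?_
    filter_upwards [eventually_ge_atTop 0] with x hx
    exact fd_nonneg _ hx
  have hD2 : D ≤ 2 := by
    refine le_of_tendsto htend ?_
    filter_upwards [eventually_ge_atTop 1] with x hx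
    exact fd_le_two _ hx
  obtain ⟨X₁, hX₁⟩ := eventually_atTop.1 (Metric.tendsto_nhds.1 htend ε hε)
  obtain ⟨ε₁, hε₁d⟩ : ∃ ε₁, ε₁ = ε / 8 := ⟨_, rfl⟩
  have hε₁ : 0 < ε₁ := by rw [hε₁d]; positivity
  obtain ⟨z, A, hz, hA, hbd⟩ := bounds h hb hF hε₁
  rw [← hD] at hbd
  obtain ⟨L₁, hL₁, h1⟩ := Wf_lim h.hd h.hdm h.gam (-A) 1 0 hε₁
  obtain ⟨L₂, hL₂, h2⟩ := Wf_lim h.hd h.hdm h.gam A 1 (-δ) hε₁
  rw [← hγd] at h1 h2 ⊢
  rw [← hD]
  refine ⟨max (max X₁ z) (Real.exp (max (max L₁ L₂) 1)), fun a ha => ?_⟩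
  have haX : X₁ ≤ a := ((le_max_left _ _).trans (le_max_left _ _)).trans ha
  have haz : z ≤ a := ((le_max_right _ _).trans (le_max_left _ _)).trans ha
  have hae : Real.exp (max (max L₁ L₂) 1) ≤ a := (le_max_right _ _).trans ha
  have ha0 : 0 < a := (Real.exp_pos _).trans_le hae
  have hL := (Real.le_log_iff_exp_le ha0).2 hae
  obtain ⟨L, hLd⟩ : ∃ L, L = Real.log a := ⟨_, rfl⟩
  rw [← hLd] at hL ⊢
  have hLL₁ : L₁ ≤ L := ((le_max_left _ _).trans (le_max_left _ _)).trans hL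
  have hLL₂ : L₂ ≤ L := ((le_max_right _ _).trans (le_max_left _ _)).trans hL
  have hL1 : 1 ≤ L := (le_max_right _ _).trans hL
  refine ⟨?_, ?_⟩
  · have := hX₁ a haX
    rw [Real.dist_eq] at this
    exact this.le
  intro a' ha'0 hlow hupp
  obtain ⟨L', hLd'⟩ : ∃ L', L' = Real.log a' := ⟨_, rfl⟩
  rw [← hLd'] at hlow hupp
  have hsL : 0 < Real.sqrt L := Real.sqrt_pos.2 (by linarith)
  have hLL' : L ≤ L' := by
    have : 0 ≤ Λ * Real.sqrt L := by positivity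
    linarith
  have haa' : a ≤ a' := by
    rw [← Real.log_le_log_iff ha0 ha'0, ← hLd, ← hLd']
    exact hLL'
  -- the lower bound at `a`
  have hLγ : 0 ≤ L / γ := by positivity
  obtain ⟨s, hs⟩ : ∃ s : ℕ, s = ⌊L / γ⌋₊ := ⟨_, rfl⟩
  have hs1 : (s : ℝ) ≤ L / γ := by rw [hs]; exact Nat.floor_le hLγ
  have hs2 : L / γ < s + 1 := by rw [hs]; exact Nat.lt_floor_add_one _
  have h3 := h1 a (by rw [← hLd]; exact hLL₁) s (by
    rw [← hLd, abs_le]
    constructor <;> linarith)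
  have h4 := (hbd a haz s).1
  have h5 : D * cdf (gaussianReal 0 1) 0 - 3 * ε₁ ≤ fd (hit d m r F s) a := by
    have h6 := (abs_le.1 h3).1
    nlinarith
  -- the upper bound at `a'`
  have hδs : δ * sd d m * Real.sqrt L' ≤ (L' - L) / γ := by
    have h6 : Real.sqrt L' ≤ 2 * Real.sqrt L := by
      rw [Real.sqrt_le_left (by positivity), mul_pow, Real.sq_sqrt (by linarith)]
      linarith
    have h7 : δ * sd d m = Λ / (2 * γ) := by
      rw [hδd]
      field_simp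
    rw [h7, le_div_iff₀ hγ]
    calc Λ / (2 * γ) * Real.sqrt L' * γ = Λ * (Real.sqrt L' / 2) := by field_simp
      _ ≤ Λ * Real.sqrt L := mul_le_mul_of_nonneg_left (by linarith) hΛ.le
      _ ≤ L' - L := by linarith
  have hval : L / γ ≤ L' / γ + -δ * sd d m * Real.sqrt L' := by
    rw [sub_div] at hδs
    linarith
  obtain ⟨s', hs'⟩ : ∃ s' : ℕ, s' = ⌈L' / γ + -δ * sd d m * Real.sqrt L'⌉₊ := ⟨_, rfl⟩
  have hs1' : L' / γ + -δ * sd d m * Real.sqrt L' ≤ s' := by rw [hs']; exact Nat.le_ceil _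
  have hs2' : (s' : ℝ) < L' / γ + -δ * sd d m * Real.sqrt L' + 1 := by
    rw [hs']
    exact Nat.ceil_lt_add_one (hLγ.trans hval)
  have hss : s ≤ s' := by
    have : (s : ℝ) ≤ s' := by linarith
    exact_mod_cast this
  have h6 := h2 a' (by rw [← hLd']; exact hLL₂.trans hLL') s' (by
    rw [← hLd', abs_le]
    constructor <;> linarith)
  have h7 := (hbd a' (haz.trans haa') s').2
  have h8 : fd (hit d m r F s) a' ≤ fd (hit d m r F s') a' :=
    fd_mono ha'0.le fun n _ _ hn => hit_mono hss hn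
  have h9 : fd (hit d m r F s') a' ≤ D * cdf (gaussianReal 0 1) (-δ) + 3 * ε₁ := by
    have h10 := (abs_le.1 h6).2
    nlinarith
  rw [← hs, hε₁d] at *
  nlinarith

end Pool.Agent.Helper8.RU
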