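import Pool.Agent.Helper8.RU.R9
import Pool.Agent.Helper8.RU.R10
import Pool.Agent.Helper8.POS.Cons

/-!
# RU-R11: the pairs of the level `s ≥ λ √(log x)`

`terminal`: for the pairs `y = 3 ^ j z + b`, `y' = 3 ^ s y + ρ β` with `Λ √(log a) ≤ s log 3 ≤ log a`, `a = 3 ^ j Z`, the first times are different for a
positive proportion of the `z ∈ [Z, 2 Z)`: by `class_hit` the points `y` and `y'` are distributed as all integers of `[a, 2 a)` and `[3 ^ s a, 2 3 ^ s a)`, and the laws of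
the hitting times at these two scales are different (`two_scales`).
-/

set_option autoImplicit false

namespace Pool.Agent.Helper8.RU

open Pool.Agent.Helper68.Moeller Pool.Agent.Helper8.ND Pool.Agent.Helper28 Pool.Agent.Helper8.PW
  Pool.Agent.Helper8.ST Pool.Agent.Helper85.ST Pool.Agent.Helper91 Filter Topology

variable {ρ : ℤ}

theorem std_odd (hρ : Odd ρ) : POSB.Std 2 3 (fun _ => ρ) := by
  refine ⟨le_refl 2, by norm_num, by norm_num, POS.three_hyp.1, fun j h1 h2 => ?_⟩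
  have hj : j = 1 := by
    push_cast at h2
    omega
  subst hj
  obtain ⟨a, ha⟩ := hρ
  rw [Int.modEq_iff_dvd]
  exact ⟨1 - a, by rw [ha]; push_cast; ring⟩

/-- Counting a progression by its index. -/
theorem class_count (G : Set ℤ) {N Z : ℕ} (hN : 0 < N) (hZ : 0 < Z) {b : ℤ} {R : ℕ} (hb : |b| ≤ R * N) :
    |(({z : ℤ | (Z : ℤ) ≤ z ∧ z < 2 * Z ∧ N * z + b ∈ G}.ncard : ℕ) : ℝ) - Z * fdc G N b ((N : ℝ) * Z)| ≤ 2 * R := by
  have hNr : (0 : ℝ) < N := by exact_mod_cast hN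
  have hZr : (0 : ℝ) < Z := by exact_mod_cast hZ
  have hNz : (0 : ℤ) < N := by exact_mod_cast hN
  have e1 : (Z : ℝ) * fdc G N b ((N : ℝ) * Z) =
      (({z : ℤ | (N : ℤ) * Z ≤ N * z + b ∧ (N : ℤ) * z + b < 2 * (N * Z) ∧ N * z + b ∈ G}.ncard : ℕ) : ℝ) := by
    unfold fdc
    have e2 : {n : ℤ | ((N : ℝ) * Z) ≤ n ∧ (n : ℝ) < 2 * ((N : ℝ) * Z) ∧ (N : ℤ) ∣ n - b ∧ n ∈ G} =
        (fun z : ℤ => (N : ℤ) * z + b) ''
          {z : ℤ | (N : ℤ) * Z ≤ N * z + b ∧ (N : ℤ) * z + b < 2 * (N * Z) ∧ N * z + b ∈ G} := by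
      ext n
      simp only [Set.mem_ofPred_eq, Set.mem_image]
      constructor
      · rintro ⟨h1, h2, ⟨z, hz⟩, h3⟩
        have hn : (N : ℤ) * z + b = n := by linarith
        refine ⟨z, ⟨?_, ?_, ?_⟩, hn⟩
        · rw [hn]; exact_mod_cast h1
        · rw [hn]; exact_mod_cast h2
        · rw [hn]; exact h3
      · rintro ⟨z, ⟨h1, h2, h3⟩, rfl⟩
        refine ⟨by exact_mod_cast h1, by exact_mod_cast h2, ⟨z, by ring⟩, h3⟩
    have hinj : Function.Injective (fun z : ℤ => (N : ℤ) * z + b) := by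
      intro z z' h
      have h' : (N : ℤ) * z + b = N * z' + b := h
      have h'' : (N : ℤ) * z = N * z' := by linarith
      exact mul_left_cancel₀ hNz.ne' h''
    rw [e2, Set.ncard_image_of_injective _ hinj]
    field_simp
  rw [e1]
  have hbb := abs_le.1 hb
  have hfin1 : {z : ℤ | (Z : ℤ) ≤ z ∧ z < 2 * Z ∧ N * z + b ∈ G}.Finite :=
    (Set.finite_Ico (Z : ℤ) (2 * Z)).subset fun z hz => ⟨hz.1, hz.2.1⟩
  have hsub2 : {z : ℤ | (N : ℤ) * Z ≤ N * z + b ∧ (N : ℤ) * z + b < 2 * (N * Z) ∧ N * z + b ∈ G} ⊆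
      {z : ℤ | (Z : ℤ) ≤ z ∧ z < 2 * Z ∧ N * z + b ∈ G} ∪
        (((Finset.Ico ((Z : ℤ) - R) Z ∪ Finset.Ico (2 * (Z : ℤ)) (2 * Z + R) : Finset ℤ)) : Set ℤ) := by
    rintro z ⟨h1, h2, h3⟩
    rw [Set.mem_union, Finset.mem_coe, Finset.mem_union, Finset.mem_Ico, Finset.mem_Ico]
    have h4 : (Z : ℤ) - R ≤ z := by
      by_contra hcon
      push Not at hcon
      nlinarith
    have h5 : z < 2 * Z + R := by
      by_contra hcon
      push Not at hcon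
      nlinarith
    by_cases h6 : (Z : ℤ) ≤ z
    · by_cases h7 : z < 2 * Z
      · exact Or.inl ⟨h6, h7, h3⟩
      · exact Or.inr (Or.inr ⟨not_lt.1 h7, h5⟩)
    · exact Or.inr (Or.inl ⟨h4, not_le.1 h6⟩)
  have hsub1 : {z : ℤ | (Z : ℤ) ≤ z ∧ z < 2 * Z ∧ N * z + b ∈ G} ⊆
      {z : ℤ | (N : ℤ) * Z ≤ N * z + b ∧ (N : ℤ) * z + b < 2 * (N * Z) ∧ N * z + b ∈ G} ∪
        (((Finset.Ico (Z : ℤ) (Z + R) ∪ Finset.Ico (2 * (Z : ℤ) - R) (2 * Z) : Finset ℤ)) : Set ℤ) := by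
    rintro z ⟨h1, h2, h3⟩
    rw [Set.mem_union, Finset.mem_coe, Finset.mem_union, Finset.mem_Ico, Finset.mem_Ico]
    by_cases h6 : (Z : ℤ) + R ≤ z
    · by_cases h7 : z < 2 * Z - R
      · refine Or.inl ⟨?_, ?_, h3⟩ <;> nlinarith
      · exact Or.inr (Or.inr ⟨not_lt.1 h7, h2⟩)
    · exact Or.inr (Or.inl ⟨h1, not_le.1 h6⟩)
  have hfin2 : {z : ℤ | (N : ℤ) * Z ≤ N * z + b ∧ (N : ℤ) * z + b < 2 * (N * Z) ∧ N * z + b ∈ G}.Finite :=
    (hfin1.union (Finset.finite_toSet _)).subset hsub2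
  have h1 := Set.ncard_le_ncard hsub1 (hfin2.union (Finset.finite_toSet _))
  have h2 := Set.ncard_le_ncard hsub2 (hfin1.union (Finset.finite_toSet _))
  have h3 := h1.trans (Set.ncard_union_le _ _)
  have h4 := h2.trans (Set.ncard_union_le _ _)
  rw [Set.ncard_coe_finset] at h3 h4
  have h5 := Finset.card_union_le (Finset.Ico (Z : ℤ) (Z + R)) (Finset.Ico (2 * (Z : ℤ) - R) (2 * Z))
  have h6 := Finset.card_union_le (Finset.Ico ((Z : ℤ) - R) Z) (Finset.Ico (2 * (Z : ℤ)) (2 * Z + R))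
  simp only [Int.card_Ico] at h5 h6
  have h7 : ((Z : ℤ) + R - Z).toNat = R := by omega
  have h8 : (2 * (Z : ℤ) - (2 * Z - R)).toNat = R := by omega
  have h9 : ((Z : ℤ) - (Z - R)).toNat = R := by omega
  have h10 : (2 * (Z : ℤ) + R - 2 * Z).toNat = R := by omega
  rw [h7, h8] at h5
  rw [h9, h10] at h6
  rw [abs_le]
  have h11 : (({z : ℤ | (Z : ℤ) ≤ z ∧ z < 2 * Z ∧ N * z + b ∈ G}.ncard : ℕ) : ℝ) ≤
      (({z : ℤ | (N : ℤ) * Z ≤ N * z + b ∧ (N : ℤ) * z + b < 2 * (N * Z) ∧ N * z + b ∈ G}.ncard : ℕ) : ℝ) + 2 * R := by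
    have := h3.trans (Nat.add_le_add_left h5 _)
    have e : R + R = 2 * R := by ring
    rw [e] at this
    exact_mod_cast this
  have h12 : (({z : ℤ | (N : ℤ) * Z ≤ N * z + b ∧ (N : ℤ) * z + b < 2 * (N * Z) ∧ N * z + b ∈ G}.ncard : ℕ) : ℝ) ≤
      (({z : ℤ | (Z : ℤ) ≤ z ∧ z < 2 * Z ∧ N * z + b ∈ G}.ncard : ℕ) : ℝ) + 2 * R := by
    have := h4.trans (Nat.add_le_add_left h6 _)
    have e : R + R = 2 * R := by ring
    rw [e] at this
    exact_mod_cast this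
  constructor <;> linarith

open Classical in
private theorem sum_ind51 (G : Set ℤ) (M b : ℤ) (Z : ℕ) :
    (∑ z ∈ Finset.Ico Z (2 * Z), if M * (z : ℤ) + b ∈ G then (1 : ℝ) else 0) =
      (({z : ℤ | (Z : ℤ) ≤ z ∧ z < 2 * Z ∧ M * z + b ∈ G}.ncard : ℕ) : ℝ) := by
  rw [Finset.sum_boole]
  have e : {z : ℤ | (Z : ℤ) ≤ z ∧ z < 2 * Z ∧ M * z + b ∈ G} =
      (fun z : ℕ => (z : ℤ)) '' (((Finset.Ico Z (2 * Z)).filter (fun z : ℕ => M * (z : ℤ) + b ∈ G) : Finset ℕ) : Set ℕ) := by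
    ext z
    simp only [Set.mem_ofPred_eq, Set.mem_image, Finset.mem_coe, Finset.mem_filter, Finset.mem_Ico]
    constructor
    · rintro ⟨h1, h2, h3⟩
      obtain ⟨w, hw⟩ := Int.eq_ofNat_of_zero_le (by omega : 0 ≤ z)
      subst hw
      exact ⟨w, ⟨⟨by omega, by omega⟩, h3⟩, rfl⟩
    · rintro ⟨w, ⟨⟨h1, h2⟩, h3⟩, rfl⟩
      exact ⟨by omega, by omega, h3⟩
  rw [e, Set.ncard_image_of_injective _ Nat.cast_injective, Set.ncard_coe_finset]

private theorem first51 {F : Set ℤ} {y : ℤ} {s : ℕ} (h : y ∈ hit 2 3 (fun _ => ρ) F s) :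
    ∃ t ≤ s, First ρ F t y := by
  classical
  obtain ⟨t, ht, hy⟩ := h
  have hex : ∃ t : ℕ, (T 2 3 (fun _ => ρ))^[t] y ∈ F := ⟨t, hy⟩
  exact ⟨Nat.find hex, (Nat.find_min' hex hy).trans ht, Nat.find_spec hex, fun i hi => Nat.find_min hex hi⟩

theorem Df_of_hit {F : Set ℤ} {y y' : ℤ} {s : ℕ} (h : y ∈ hit 2 3 (fun _ => ρ) F s)
    (h' : y' ∉ hit 2 3 (fun _ => ρ) F s) : Df ρ F y y' := by
  obtain ⟨t, ht, h1⟩ := first51 h
  exact ⟨t, h1, fun h2 => h' ⟨t, ht, h2.1⟩⟩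

theorem Df_of_late {F : Set ℤ} {y y' : ℤ} {s : ℕ} (h : y ∈ hitI 2 3 (fun _ => ρ) F)
    (h1 : y ∉ hit 2 3 (fun _ => ρ) F s)
    (h' : ¬ (y' ∈ hitI 2 3 (fun _ => ρ) F ∧ y' ∉ hit 2 3 (fun _ => ρ) F s)) : Df ρ F y y' := by
  obtain ⟨t₀, ht₀⟩ := h
  obtain ⟨t, ht, h2⟩ := first51 (y := y) (s := t₀) ⟨t₀, le_rfl, ht₀⟩
  refine ⟨t, h2, fun h3 => h' ⟨⟨t, h3.1⟩, ?_⟩⟩
  rintro ⟨i, hi, h4⟩
  have h5 : t ≤ i := by
    by_contra hcon
    exact h3.2 i (not_le.1 hcon) h4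
  exact h1 ⟨t, h5.trans hi, h2.1⟩

open Classical in
theorem terminal (hρ : Odd ρ) {F : Set ℤ} {B : ℝ} (hB : 0 ≤ B) (hF : ∀ a ∈ F, (a : ℝ) ≤ B)
    (hD : 0 < PL.dens (hitI 2 3 (fun _ => ρ) F)) : ∃ κ : ℝ, 0 < κ ∧ ∀ Λ : ℝ, 0 < Λ → ∃ c₀ X : ℝ, 0 < c₀ ∧ 1 ≤ X ∧
    ∀ (i : Bool) (s j : ℕ) (β b : ℤ) (R Z : ℕ), X ≤ Z → Λ * Real.sqrt (Real.log (3 ^ j * Z)) ≤ s * Real.log 3 →
      s * Real.log 3 ≤ Real.log (3 ^ j * Z) → (j : ℝ) + s ≤ κ * Real.log (3 ^ j * Z) → |β| ≤ R * 3 ^ s →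
      |b| ≤ R * 3 ^ j → X * R ≤ Z → c₀ * Z ≤ Bc ρ F i s β j b Z := by
  have hstd := std_odd hρ
  obtain ⟨κ, hκ, hcl⟩ := class_hit hstd hB hF
  refine ⟨κ, hκ, fun Λ hΛ => ?_⟩
  obtain ⟨g, hg, hsc⟩ := two_scales hstd hB hF hΛ
  obtain ⟨D, hDd⟩ : ∃ D, D = PL.dens (hitI 2 3 (fun _ => ρ) F) := ⟨_, rfl⟩
  rw [← hDd] at hD hsc
  obtain ⟨ε, hεd⟩ : ∃ ε, ε = D * g / 20 := ⟨_, rfl⟩
  have hε : 0 < ε := by rw [hεd]; positivity
  obtain ⟨X₁, h1⟩ := hcl ε hε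
  obtain ⟨X₂, h2⟩ := hsc ε hε
  have hρ0 : (0 : ℝ) ≤ ρ.natAbs := Nat.cast_nonneg _
  refine ⟨D * g / 2, max (max X₁ X₂) (max 1 ((8 + 4 * ρ.natAbs) / ε)), by positivity,
    (le_max_left _ _).trans (le_max_right _ _), ?_⟩
  intro i s j β b R Z hZ hs1 hs2 hjs hβ hb hRZ
  have hZ1 : (1 : ℝ) ≤ Z := ((le_max_left _ _).trans (le_max_right _ _)).trans hZ
  have hZ0 : 0 < Z := by
    have : (0 : ℝ) < Z := by linarith
    exact_mod_cast this
  have hZr : (0 : ℝ) < Z := by linarith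
  have hRr : (0 : ℝ) ≤ R := Nat.cast_nonneg R
  have hRZ' : (8 + 4 * ρ.natAbs) * (R : ℝ) ≤ ε * Z := by
    have h3 : (8 + 4 * ρ.natAbs) / ε * (R : ℝ) ≤ Z :=
      (mul_le_mul_of_nonneg_right ((le_max_right _ _).trans (le_max_right _ _)) hRr).trans hRZ
    rw [div_mul_eq_mul_div, div_le_iff₀ hε] at h3
    linarith
  have hl3 : 0 < Real.log 3 := Real.log_pos (by norm_num)
  -- the two scales
  obtain ⟨a, ha⟩ : ∃ a : ℝ, a = ((3 ^ j : ℕ) : ℝ) * Z := ⟨_, rfl⟩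
  obtain ⟨a', ha'⟩ : ∃ a' : ℝ, a' = ((3 ^ (j + s) : ℕ) : ℝ) * Z := ⟨_, rfl⟩
  have h3j : (1 : ℝ) ≤ 3 ^ j := one_le_pow₀ (by norm_num)
  have h3s : (1 : ℝ) ≤ 3 ^ s := one_le_pow₀ (by norm_num)
  have haZ : (Z : ℝ) ≤ a := by
    rw [ha]
    push_cast
    exact le_mul_of_one_le_left hZr.le h3j
  have ha0 : 0 < a := by linarith
  have haa' : a' = 3 ^ s * a := by
    rw [ha, ha']
    push_cast
    rw [pow_add]
    ring
  have hale : a ≤ a' := by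
    rw [haa']
    exact le_mul_of_one_le_left ha0.le h3s
  have ha'0 : 0 < a' := by linarith
  have hla : Real.log a = Real.log (3 ^ j * Z) := by rw [ha]; push_cast; rfl
  have hla' : Real.log a' = Real.log a + s * Real.log 3 := by
    rw [haa', Real.log_mul (by positivity) ha0.ne', Real.log_pow]
    ring
  rw [← hla] at hs1 hs2 hjs
  have hX₁ : X₁ ≤ a := (((le_max_left _ _).trans (le_max_left _ _)).trans hZ).trans haZ
  have hX₂ : X₂ ≤ a := (((le_max_right _ _).trans (le_max_left _ _)).trans hZ).trans haZ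
  have hsn : (0 : ℝ) ≤ s := Nat.cast_nonneg s
  have hk : (j : ℝ) ≤ κ * Real.log a := by linarith
  have hk' : ((j + s : ℕ) : ℝ) ≤ κ * Real.log a' := by
    push_cast
    refine hjs.trans (mul_le_mul_of_nonneg_left ?_ hκ.le)
    rw [hla']
    have : 0 ≤ s * Real.log 3 := by positivity
    linarith
  obtain ⟨s₀, hs₀⟩ : ∃ s₀, s₀ = ⌊Real.log a / PL.gam 2 3⌋₊ := ⟨_, rfl⟩
  obtain ⟨hI, hgap⟩ := h2 a hX₂
  have hgap' := hgap a' ha'0 (by rw [hla']; linarith) (by rw [hla']; linarith)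
  have hI' := (h2 a' (hX₂.trans hale)).1
  rw [← hs₀] at hgap'
  -- the second class
  obtain ⟨b', hb'⟩ : ∃ b' : ℤ, b' = 3 ^ s * b + ρ * β := ⟨_, rfl⟩
  have hbb' : |b'| ≤ (((1 + ρ.natAbs) * R : ℕ) : ℤ) * ((3 ^ (j + s) : ℕ) : ℤ) := by
    have h3 : |b'| ≤ 3 ^ s * |b| + |ρ| * |β| := by
      rw [hb']
      refine (abs_add_le _ _).trans ?_
      rw [abs_mul, abs_mul, abs_of_nonneg (by positivity : (0 : ℤ) ≤ 3 ^ s)]
    have h4 : (3 : ℤ) ^ s * |b| ≤ 3 ^ s * (R * 3 ^ j) := mul_le_mul_of_nonneg_left hb (by positivity)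
    have h5 : |ρ| * |β| ≤ |ρ| * (R * 3 ^ s) := mul_le_mul_of_nonneg_left hβ (abs_nonneg ρ)
    have h6 : |ρ| * (R * (3 : ℤ) ^ s) ≤ |ρ| * (R * 3 ^ (j + s)) := by
      refine mul_le_mul_of_nonneg_left (mul_le_mul_of_nonneg_left ?_ (by positivity)) (abs_nonneg ρ)
      exact pow_le_pow_right₀ (by norm_num) (by omega)
    push_cast
    rw [pow_add] at h6 ⊢
    nlinarith
  have hcls := h1 a hX₁ j hk b
  have hcls' := h1 a' (hX₁.trans hale) (j + s) hk' b'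
  have hbN : |b| ≤ (R : ℤ) * ((3 ^ j : ℕ) : ℤ) := by push_cast; exact hb
  have hc1 := fun G : Set ℤ => class_count G (N := 3 ^ j) (Z := Z) (by positivity) hZ0 hbN
  have hc2 := fun G : Set ℤ => class_count G (N := 3 ^ (j + s)) (Z := Z) (by positivity) hZ0 hbb'
  rw [← ha] at hc1
  rw [← ha'] at hc2
  -- the counts
  obtain ⟨S1, hS1⟩ : ∃ S1 : Set ℤ → ℝ, S1 = fun G => ∑ z ∈ Finset.Ico Z (2 * Z),
      if (3 ^ j * (z : ℤ) + b) ∈ G then (1 : ℝ) else 0 := ⟨_, rfl⟩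
  obtain ⟨S2, hS2⟩ : ∃ S2 : Set ℤ → ℝ, S2 = fun G => ∑ z ∈ Finset.Ico Z (2 * Z),
      if (3 ^ s * (3 ^ j * (z : ℤ) + b) + ρ * β) ∈ G then (1 : ℝ) else 0 := ⟨_, rfl⟩
  have e1 : ∀ G : Set ℤ, |S1 G - Z * fdc G (3 ^ j) b a| ≤ 2 * R := by
    intro G
    have h3 := hc1 G
    have h4 := sum_ind51 G (((3 ^ j : ℕ) : ℤ)) b Z
    rw [← h4] at h3
    rw [hS1]
    push_cast at h3 ⊢
    exact h3
  have e2 : ∀ G : Set ℤ, |S2 G - Z * fdc G (3 ^ (j + s)) b' a'| ≤ 2 * ((1 + ρ.natAbs) * R) := by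
    intro G
    have h3 := hc2 G
    have h4 := sum_ind51 G (((3 ^ (j + s) : ℕ) : ℤ)) b' Z
    rw [← h4] at h3
    have h5 : S2 G = ∑ z ∈ Finset.Ico Z (2 * Z), if (((3 ^ (j + s) : ℕ) : ℤ) * (z : ℤ) + b') ∈ G then (1 : ℝ) else 0 := by
      rw [hS2]
      refine Finset.sum_congr rfl fun z _ => ?_
      have h6 : (3 : ℤ) ^ s * (3 ^ j * (z : ℤ) + b) + ρ * β = (((3 ^ (j + s) : ℕ) : ℤ) * (z : ℤ) + b') := by
        rw [hb']
        push_cast
        rw [pow_add]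
        ring
      rw [h6]
    rw [h5]
    have h6 : (2 : ℝ) * (((1 + ρ.natAbs) * R : ℕ) : ℝ) = 2 * ((1 + ρ.natAbs) * R) := by push_cast; ring
    rw [← h6]
    exact h3
  obtain ⟨H, hH⟩ : ∃ H, H = hit 2 3 (fun _ => ρ) F s₀ := ⟨_, rfl⟩
  obtain ⟨I, hId⟩ : ∃ I, I = hitI 2 3 (fun _ => ρ) F := ⟨_, rfl⟩
  have hclH := hcls.1 s₀
  have hclI := hcls.2
  have hclH' := hcls'.1 s₀
  have hclI' := hcls'.2
  rw [← hH] at hclH hclH' hgap'
  rw [← hId] at hclI hclI' hI hI'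
  -- the four estimates
  have g1 : Z * (fd H a - ε) - 2 * R ≤ S1 H := by
    have h3 := (abs_le.1 (e1 H)).1
    have h4 := (abs_le.1 hclH).1
    have h5 : (Z : ℝ) * (fd H a - ε) ≤ Z * fdc H (3 ^ j) b a := mul_le_mul_of_nonneg_left (by linarith) hZr.le
    linarith
  have g2 : S2 H ≤ Z * (fd H a' + ε) + 2 * ((1 + ρ.natAbs) * R) := by
    have h3 := (abs_le.1 (e2 H)).2
    have h4 := (abs_le.1 hclH').2
    have h5 : (Z : ℝ) * fdc H (3 ^ (j + s)) b' a' ≤ Z * (fd H a' + ε) := mul_le_mul_of_nonneg_left (by linarith) hZr.le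
    linarith
  have g3 : S1 I ≤ Z * (D + 2 * ε) + 2 * R := by
    have h3 := (abs_le.1 (e1 I)).2
    have h4 := (abs_le.1 hclI).2
    have h6 := (abs_le.1 hI).2
    have h5 : (Z : ℝ) * fdc I (3 ^ j) b a ≤ Z * (D + 2 * ε) := mul_le_mul_of_nonneg_left (by linarith) hZr.le
    linarith
  have g4 : Z * (D - 2 * ε) - 2 * ((1 + ρ.natAbs) * R) ≤ S2 I := by
    have h3 := (abs_le.1 (e2 I)).1
    have h4 := (abs_le.1 hclI').1
    have h6 := (abs_le.1 hI').1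
    have h5 : (Z : ℝ) * (D - 2 * ε) ≤ Z * fdc I (3 ^ (j + s)) b' a' := mul_le_mul_of_nonneg_left (by linarith) hZr.le
    linarith
  have hgapZ : (Z : ℝ) * (fd H a' + D * g - ε) ≤ Z * fd H a := mul_le_mul_of_nonneg_left hgap' hZr.le
  have hεZ : (Z : ℝ) * ε = Z * (D * g) / 20 := by rw [hεd]; ring
  have hDgZ : 0 ≤ (Z : ℝ) * (D * g) := by positivity
  have hR2 : 2 * (R : ℝ) + 2 * ((1 + ρ.natAbs) * R) + (2 * R + 2 * ((1 + ρ.natAbs) * R)) ≤ Z * ε := by nlinarith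
  have hR3 : 0 ≤ (ρ.natAbs : ℝ) * R := by positivity
  have hHI : H ⊆ I := by rw [hH, hId]; exact hit_sub
  cases i with
  | true =>
    have h3 : S1 H - S2 H ≤ Bc ρ F true s β j b Z := by
      rw [hS1, hS2]
      unfold Bc
      simp only
      rw [← Finset.sum_sub_distrib]
      refine Finset.sum_le_sum fun z _ => ?_
      by_cases h4 : (3 ^ j * (z : ℤ) + b) ∈ H
      · by_cases h5 : (3 ^ s * (3 ^ j * (z : ℤ) + b) + ρ * β) ∈ H
        · rw [if_pos h4, if_pos h5]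
          split_ifs <;> norm_num
        · have h6 : Dg ρ F true (3 ^ j * (z : ℤ) + b) (3 ^ s * (3 ^ j * (z : ℤ) + b) + ρ * β) := by
            rw [hH] at h4 h5
            exact Df_of_hit h4 h5
          rw [if_pos h4, if_neg h5, if_pos h6]
          norm_num
      · rw [if_neg h4]
        split_ifs <;> norm_num
    refine le_trans ?_ h3
    have e : D * g / 2 * (Z : ℝ) = Z * (D * g) / 2 := by ring
    rw [e]
    have hR4 : 0 ≤ (R : ℝ) := hRr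
    nlinarith
  | false =>
    have h3 : (S2 I - S2 H) - (S1 I - S1 H) ≤ Bc ρ F false s β j b Z := by
      rw [hS1, hS2]
      unfold Bc
      simp only
      rw [← Finset.sum_sub_distrib, ← Finset.sum_sub_distrib, ← Finset.sum_sub_distrib]
      refine Finset.sum_le_sum fun z _ => ?_
      by_cases h6 : Dg ρ F false (3 ^ j * (z : ℤ) + b) (3 ^ s * (3 ^ j * (z : ℤ) + b) + ρ * β)
      · rw [if_pos h6]
        by_cases h4 : (3 ^ j * (z : ℤ) + b) ∈ H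
        · have h4' := hHI h4
          rw [if_pos h4, if_pos h4']
          split_ifs <;> norm_num
        · rw [if_neg h4]
          split_ifs <;> norm_num
      · rw [if_neg h6]
        have h7 : (3 ^ s * (3 ^ j * (z : ℤ) + b) + ρ * β) ∈ I → (3 ^ s * (3 ^ j * (z : ℤ) + b) + ρ * β) ∉ H →
            (3 ^ j * (z : ℤ) + b) ∈ I ∧ (3 ^ j * (z : ℤ) + b) ∉ H := by
          intro h8 h9
          by_contra hcon
          rw [hId] at h8 hcon
          rw [hH] at h9 hcon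
          exact h6 (Df_of_late h8 h9 hcon)
        by_cases h8 : (3 ^ s * (3 ^ j * (z : ℤ) + b) + ρ * β) ∈ H
        · have h8' := hHI h8
          rw [if_pos h8, if_pos h8']
          by_cases h4 : (3 ^ j * (z : ℤ) + b) ∈ H
          · rw [if_pos h4, if_pos (hHI h4)]
            norm_num
          · rw [if_neg h4]
            split_ifs <;> norm_num
        · by_cases h9 : (3 ^ s * (3 ^ j * (z : ℤ) + b) + ρ * β) ∈ I
          · obtain ⟨h10, h11⟩ := h7 h9 h8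
            rw [if_pos h9, if_neg h8, if_pos h10, if_neg h11]
            norm_num
          · rw [if_neg h8, if_neg h9]
            by_cases h4 : (3 ^ j * (z : ℤ) + b) ∈ H
            · rw [if_pos h4, if_pos (hHI h4)]
              norm_num
            · rw [if_neg h4]
              split_ifs <;> norm_num
    refine le_trans ?_ h3
    have e : D * g / 2 * (Z : ℝ) = Z * (D * g) / 2 := by ring
    rw [e]
    nlinarith

end Pool.Agent.Helper8.RU
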