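import Pool.Agent.Helper8.RU.R11

/-!
# RU-R12: the pairs `(n, 2 ^ l z)` in a window

Let `n = 2 ^ l z - |ρ| e`, `0 ≤ e < 2 ^ l`, and `k = 2 ^ l z`. After `l` steps `k` is at `z`, and `n` is at `3 ^ j z + ρ β`, where `j = jj e`, `β = bb e` depend only on
`e`, `|β| ≤ 2 3 ^ j`, and `∑ j = l 2 ^ l / 2` (`sum_jj`).
-/

set_option autoImplicit false

namespace Pool.Agent.Helper8.RU

open Pool.Agent.Helper68.Moeller Pool.Agent.Helper8.ND Pool.Agent.Helper8.CO Pool.Agent.Helper28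
  Pool.Agent.Helper85.ST Finset

variable {ρ : ℤ}

private theorem cnt_even52 {x : ℤ} (h : Even x) (k : ℕ) :
    cnt 2 3 (fun _ => ρ) (k + 1) x = cnt 2 3 (fun _ => ρ) k (T 2 3 (fun _ => ρ) x) := by
  rw [cnt, if_pos (by exact_mod_cast h.two_dvd), zero_add]

private theorem cnt_odd52 {x : ℤ} (h : ¬ Even x) (k : ℕ) :
    cnt 2 3 (fun _ => ρ) (k + 1) x = 1 + cnt 2 3 (fun _ => ρ) k (T 2 3 (fun _ => ρ) x) := by
  have h1 : ¬ ((2 : ℕ) : ℤ) ∣ x := fun h2 => h (even_iff_two_dvd.2 (by exact_mod_cast h2))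
  rw [cnt, if_neg h1]

theorem cnt_le_self (k : ℕ) (x : ℤ) : cnt 2 3 (fun _ => ρ) k x ≤ k := by
  induction k generalizing x with
  | zero => simp [cnt]
  | succ k ih =>
    by_cases h : Even x
    · rw [cnt_even52 h]
      exact (ih _).trans (Nat.le_succ k)
    · rw [cnt_odd52 h]
      have := ih (T 2 3 (fun _ => ρ) x)
      omega

private theorem two_abs52 (y : ℤ) : |2 * y| = 2 * |y| := by rw [abs_mul, abs_two]

/-- The size of the points. -/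
theorem iter_size (hρ : Odd ρ) (l : ℕ) (x : ℤ) :
    2 ^ l * |(T 2 3 (fun _ => ρ))^[l] x| ≤ 3 ^ cnt 2 3 (fun _ => ρ) l x * (|x| + |ρ| * (2 ^ l - 1)) := by
  have hρ0 := abs_nonneg ρ
  induction l generalizing x with
  | zero => simp [cnt]
  | succ l ih =>
    have h := ih (T 2 3 (fun _ => ρ) x)
    have h2l : (1 : ℤ) ≤ 2 ^ l := one_le_pow₀ (by norm_num)
    have hc : (0 : ℤ) < 3 ^ cnt 2 3 (fun _ => ρ) l (T 2 3 (fun _ => ρ) x) := by positivity
    rw [Function.iterate_succ_apply]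
    by_cases hx : Even x
    · rw [cnt_even52 hx]
      have h1 : 2 * |T 2 3 (fun _ => ρ) x| = |x| := by
        rw [← two_abs52, two_T_even hx]
      have h3 : 2 * (|T 2 3 (fun _ => ρ) x| + |ρ| * (2 ^ l - 1)) ≤ |x| + |ρ| * (2 ^ (l + 1) - 1) := by
        rw [pow_succ]
        nlinarith
      calc 2 ^ (l + 1) * |(T 2 3 (fun _ => ρ))^[l] (T 2 3 (fun _ => ρ) x)| =
            2 * (2 ^ l * |(T 2 3 (fun _ => ρ))^[l] (T 2 3 (fun _ => ρ) x)|) := by ring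
        _ ≤ 2 * (3 ^ cnt 2 3 (fun _ => ρ) l (T 2 3 (fun _ => ρ) x) *
            (|T 2 3 (fun _ => ρ) x| + |ρ| * (2 ^ l - 1))) := by linarith
        _ = 3 ^ cnt 2 3 (fun _ => ρ) l (T 2 3 (fun _ => ρ) x) *
            (2 * (|T 2 3 (fun _ => ρ) x| + |ρ| * (2 ^ l - 1))) := by ring
        _ ≤ _ := mul_le_mul_of_nonneg_left h3 hc.le
    · rw [cnt_odd52 hx]
      have h1 : 2 * |T 2 3 (fun _ => ρ) x| ≤ 3 * |x| + |ρ| := by
        have h4 : 2 * |T 2 3 (fun _ => ρ) x| = |3 * x - ρ| := by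
          rw [← two_abs52, two_T_odd hρ hx]
        rw [h4]
        refine (abs_sub _ _).trans ?_
        rw [abs_mul]
        norm_num
      have h3 : 2 * (|T 2 3 (fun _ => ρ) x| + |ρ| * (2 ^ l - 1)) ≤ 3 * (|x| + |ρ| * (2 ^ (l + 1) - 1)) := by
        rw [pow_succ]
        nlinarith
      calc 2 ^ (l + 1) * |(T 2 3 (fun _ => ρ))^[l] (T 2 3 (fun _ => ρ) x)| =
            2 * (2 ^ l * |(T 2 3 (fun _ => ρ))^[l] (T 2 3 (fun _ => ρ) x)|) := by ring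
        _ ≤ 2 * (3 ^ cnt 2 3 (fun _ => ρ) l (T 2 3 (fun _ => ρ) x) *
            (|T 2 3 (fun _ => ρ) x| + |ρ| * (2 ^ l - 1))) := by linarith
        _ = 3 ^ cnt 2 3 (fun _ => ρ) l (T 2 3 (fun _ => ρ) x) *
            (2 * (|T 2 3 (fun _ => ρ) x| + |ρ| * (2 ^ l - 1))) := by ring
        _ ≤ 3 ^ cnt 2 3 (fun _ => ρ) l (T 2 3 (fun _ => ρ) x) * (3 * (|x| + |ρ| * (2 ^ (l + 1) - 1))) :=
            mul_le_mul_of_nonneg_left h3 hc.le
        _ = _ := by rw [pow_add]; ring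

theorem dvd_T (hρ : Odd ρ) {x : ℤ} (h : ρ ∣ x) : ρ ∣ T 2 3 (fun _ => ρ) x := by
  have hco : IsCoprime ρ 2 := by
    obtain ⟨a, ha⟩ := hρ
    exact ⟨1, -a, by rw [ha]; ring⟩
  refine hco.dvd_of_dvd_mul_left ?_
  by_cases hx : Even x
  · rw [two_T_even hx]
    exact h
  · rw [two_T_odd hρ hx]
    exact dvd_sub (h.mul_left 3) (dvd_refl ρ)

theorem dvd_iter (hρ : Odd ρ) (l : ℕ) {x : ℤ} (h : ρ ∣ x) : ρ ∣ (T 2 3 (fun _ => ρ))^[l] x := by
  induction l generalizing x with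
  | zero => exact h
  | succ l ih =>
    rw [Function.iterate_succ_apply]
    exact ih (dvd_T hρ h)

/-- The mean of the number of odd steps. -/
theorem sum_cnt (hρ : Odd ρ) (l : ℕ) (u v : ℤ) (hu : Odd u) :
    2 * ∑ e ∈ range (2 ^ l), (cnt 2 3 (fun _ => ρ) l (u * e + v) : ℤ) = l * 2 ^ l := by
  induction l generalizing u v with
  | zero => simp [cnt]
  | succ l ih =>
    have hsplit : ∀ f : ℕ → ℤ, ∑ e ∈ range (2 ^ (l + 1)), f e = ∑ e ∈ range (2 ^ l), f (2 * e) +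
        ∑ e ∈ range (2 ^ l), f (2 * e + 1) := by
      intro f
      have h : ∀ n : ℕ, ∑ e ∈ range (2 * n), f e = ∑ e ∈ range n, f (2 * e) + ∑ e ∈ range n, f (2 * e + 1) := by
        intro n
        induction n with
        | zero => simp
        | succ n ihn =>
          rw [show 2 * (n + 1) = 2 * n + 1 + 1 by ring, sum_range_succ, sum_range_succ, ihn, sum_range_succ,
            sum_range_succ]
          ring
      rw [show 2 ^ (l + 1) = 2 * 2 ^ l by ring]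
      exact h _
    -- an even class and an odd class
    have hev : ∀ w : ℤ, Even w → 2 * ∑ e ∈ range (2 ^ l), (cnt 2 3 (fun _ => ρ) (l + 1) (2 * (u * e) + w) : ℤ) = l * 2 ^ l := by
      intro w hw
      obtain ⟨w', hw'⟩ := hw.two_dvd
      rw [← ih u w' hu]
      congr 1
      refine sum_congr rfl fun e _ => ?_
      have hE : Even (2 * (u * (e : ℤ)) + w) := (even_two_mul _).add hw
      rw [cnt_even52 hE]
      have h1 := two_T_even (ρ := ρ) hE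
      have h2 : T 2 3 (fun _ => ρ) (2 * (u * (e : ℤ)) + w) = u * e + w' := by linarith
      rw [h2]
    have hod : ∀ w : ℤ, ¬ Even w → 2 * ∑ e ∈ range (2 ^ l), (cnt 2 3 (fun _ => ρ) (l + 1) (2 * (u * e) + w) : ℤ) =
        l * 2 ^ l + 2 * 2 ^ l := by
      intro w hw
      have hd : (2 : ℤ) ∣ 3 * w - ρ := by
        rw [Int.not_even_iff_odd] at hw
        obtain ⟨a, ha⟩ := hw
        obtain ⟨b, hb⟩ := hρ
        exact ⟨3 * a + 1 - b, by rw [ha, hb]; ring⟩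
      obtain ⟨w', hw'⟩ := hd
      rw [← ih (3 * u) w' (Odd.mul (by decide) hu)]
      have h0 : ∀ e ∈ range (2 ^ l), (cnt 2 3 (fun _ => ρ) (l + 1) (2 * (u * (e : ℤ)) + w) : ℤ) =
          1 + (cnt 2 3 (fun _ => ρ) l (3 * u * e + w') : ℤ) := by
        intro e _
        have hO : ¬ Even (2 * (u * (e : ℤ)) + w) := by
          rw [Int.even_add]
          have := even_two_mul (u * (e : ℤ))
          tauto
        rw [cnt_odd52 hO]
        have h1 := two_T_odd hρ hO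
        have h2 : T 2 3 (fun _ => ρ) (2 * (u * (e : ℤ)) + w) = 3 * u * e + w' := by linarith
        rw [h2]
        push_cast
        ring
      rw [sum_congr rfl h0, sum_add_distrib, sum_const, card_range, nsmul_eq_mul]
      push_cast
      ring
    rw [hsplit]
    have e0 : ∀ e ∈ range (2 ^ l), (cnt 2 3 (fun _ => ρ) (l + 1) (u * ((2 * e : ℕ) : ℤ) + v) : ℤ) =
        (cnt 2 3 (fun _ => ρ) (l + 1) (2 * (u * (e : ℤ)) + v) : ℤ) := by
      intro e _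
      have : u * ((2 * e : ℕ) : ℤ) + v = 2 * (u * (e : ℤ)) + v := by push_cast; ring
      rw [this]
    have e1 : ∀ e ∈ range (2 ^ l), (cnt 2 3 (fun _ => ρ) (l + 1) (u * ((2 * e + 1 : ℕ) : ℤ) + v) : ℤ) =
        (cnt 2 3 (fun _ => ρ) (l + 1) (2 * (u * (e : ℤ)) + (u + v)) : ℤ) := by
      intro e _
      have : u * ((2 * e + 1 : ℕ) : ℤ) + v = 2 * (u * (e : ℤ)) + (u + v) := by push_cast; ring
      rw [this]
    rw [sum_congr rfl e0, sum_congr rfl e1, mul_add]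
    have huE : ¬ Even u := by rwa [Int.not_even_iff_odd]
    by_cases hv : Even v
    · have h1 : ¬ Even (u + v) := by
        rw [Int.even_add]
        tauto
      rw [hev v hv, hod (u + v) h1]
      push_cast
      ring
    · have h1 : Even (u + v) := by
        rw [Int.even_add]
        tauto
      rw [hod v hv, hev (u + v) h1]
      push_cast
      ring

theorem Df_iter {F : Set ℤ} (l : ℕ) {y y' : ℤ} (hy : ∀ i < l, (T 2 3 (fun _ => ρ))^[i] y ∉ F)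
    (hy' : ∀ i < l, (T 2 3 (fun _ => ρ))^[i] y' ∉ F) :
    Df ρ F y y' ↔ Df ρ F ((T 2 3 (fun _ => ρ))^[l] y) ((T 2 3 (fun _ => ρ))^[l] y') := by
  induction l with
  | zero => exact Iff.rfl
  | succ l ih =>
    rw [ih (fun i hi => hy i (by omega)) (fun i hi => hy' i (by omega)), Function.iterate_succ', Function.comp_apply,
      Function.comp_apply]
    exact Df_T (hy l (by omega)) (hy' l (by omega))

/-- The integers which have a first time, and a neighbour at distance `≤ w` with another first time. -/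
def MixedH (ρ : ℤ) (F : Set ℤ) (w : ℝ) : Set ℤ := {n : ℤ | (∃ t : ℕ, First ρ F t n) ∧ n ∈ Mixed ρ F w}

theorem mem_MixedH {F : Set ℤ} {w : ℝ} {n h : ℤ} (hd : ρ ∣ h) (hw : |(h : ℝ)| ≤ w) (hf : Df ρ F n (n + h)) :
    n ∈ MixedH ρ F w := by
  obtain ⟨t, h1, h2⟩ := hf
  exact ⟨⟨t, h1⟩, h, hd, hw, t, fun h3 => h2 (h3.2 h1)⟩

private theorem iter_zero52 (l : ℕ) : (T 2 3 (fun _ => ρ))^[l] 0 = 0 ∧ cnt 2 3 (fun _ => ρ) l 0 = 0 := by
  have h0 : T 2 3 (fun _ => ρ) 0 = 0 := by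
    have := two_T_even (ρ := ρ) (x := 0) Even.zero
    omega
  induction l with
  | zero => exact ⟨rfl, rfl⟩
  | succ l ih =>
    rw [Function.iterate_succ_apply, cnt_even52 Even.zero, h0]
    exact ih

private theorem finite52 (A : Set ℤ) (x : ℝ) : {n : ℤ | n ∈ A ∧ 0 < n ∧ (n : ℝ) ≤ x}.Finite := by
  refine (Set.finite_Icc (1 : ℤ) ⌊x⌋).subset ?_
  rintro n ⟨-, h1, h2⟩
  exact ⟨h1, Int.le_floor.2 h2⟩

open Classical in
/-- The windows of length `|ρ| 2 ^ l`. -/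
theorem count_pairs (hρ : Odd ρ) {F : Set ℤ} {B : ℝ} (hB : 0 ≤ B) (hF : ∀ a ∈ F, (a : ℝ) ≤ B) (l Z : ℕ)
    (hZ : 2 * |(ρ : ℝ)| + B + 1 ≤ Z) {w : ℝ} (hw : |(ρ : ℝ)| * 2 ^ l ≤ w) :
    ∃ (jj : ℕ → ℕ) (bb : ℕ → ℤ), (∀ e < 2 ^ l, jj e ≤ l ∧ |bb e| ≤ 2 * 3 ^ jj e) ∧
      2 * ∑ e ∈ range (2 ^ l), (jj e : ℝ) = l * 2 ^ l ∧
      ∀ x : ℝ, (2 : ℝ) ^ l * (2 * Z) ≤ x → ∑ e ∈ range (2 ^ l), Bc ρ F false (jj e) (bb e) 0 0 Z ≤ cN (MixedH ρ F w) x := by
  have hρ0 := abs_nonneg ρ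
  have hρ1 : 0 < |ρ| := by
    rw [abs_pos]
    rintro rfl
    exact absurd hρ (by decide)
  have h2l : (0 : ℤ) < 2 ^ l := by positivity
  have hdv : ∀ e : ℕ, ρ ∣ -(|ρ| * (e : ℤ)) := fun e => (((dvd_abs ρ ρ).2 dvd_rfl).mul_right _).neg_right
  have hex : ∀ e : ℕ, ∃ β : ℤ, (T 2 3 (fun _ => ρ))^[l] (-(|ρ| * (e : ℤ))) = ρ * β := fun e => dvd_iter hρ l (hdv e)
  choose bb hbb using hex
  refine ⟨fun e => cnt 2 3 (fun _ => ρ) l (-(|ρ| * (e : ℤ))), bb, fun e he => ⟨cnt_le_self l _, ?_⟩, ?_, fun x hx => ?_⟩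
  · -- the size of `β`
    have h1 := iter_size hρ l (-(|ρ| * (e : ℤ)))
    rw [hbb e, abs_mul, abs_neg, abs_mul, abs_abs, abs_of_nonneg (by positivity : (0 : ℤ) ≤ e)] at h1
    have he' : (e : ℤ) ≤ 2 ^ l := by exact_mod_cast he.le
    have h2 : |ρ| * (e : ℤ) + |ρ| * (2 ^ l - 1) ≤ |ρ| * 2 ^ l * 2 := by nlinarith
    have h3 : 2 ^ l * (|ρ| * |bb e|) ≤ 3 ^ cnt 2 3 (fun _ => ρ) l (-(|ρ| * (e : ℤ))) * (|ρ| * 2 ^ l * 2) :=
      h1.trans (mul_le_mul_of_nonneg_left h2 (by positivity))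
    have h4 : 0 < 2 ^ l * |ρ| := by positivity
    refine le_of_mul_le_mul_left ?_ h4
    calc 2 ^ l * |ρ| * |bb e| = 2 ^ l * (|ρ| * |bb e|) := by ring
      _ ≤ 3 ^ cnt 2 3 (fun _ => ρ) l (-(|ρ| * (e : ℤ))) * (|ρ| * 2 ^ l * 2) := h3
      _ = 2 ^ l * |ρ| * (2 * 3 ^ cnt 2 3 (fun _ => ρ) l (-(|ρ| * (e : ℤ)))) := by ring
  · -- the mean
    have h1 := sum_cnt hρ l (-|ρ|) 0 (by
      rw [← Int.not_even_iff_odd]
      intro h2
      have h3 : Even ρ := by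
        rw [even_neg] at h2
        exact (even_abs.1 h2)
      exact (Int.not_even_iff_odd.2 hρ) h3)
    have h2 : ∀ e ∈ range (2 ^ l), (cnt 2 3 (fun _ => ρ) l (-|ρ| * (e : ℤ) + 0) : ℤ) =
        (cnt 2 3 (fun _ => ρ) l (-(|ρ| * (e : ℤ))) : ℤ) := by
      intro e _
      rw [add_zero, neg_mul]
    rw [sum_congr rfl h2] at h1
    exact_mod_cast h1
  · -- the pairs
    obtain ⟨S, hS⟩ : ∃ S : Finset (ℕ × ℕ), S = ((range (2 ^ l)) ×ˢ (Ico Z (2 * Z))).filter (fun p =>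
      Dg ρ F false (3 ^ 0 * (p.2 : ℤ) + 0)
        (3 ^ cnt 2 3 (fun _ => ρ) l (-(|ρ| * (p.1 : ℤ))) * (3 ^ 0 * (p.2 : ℤ) + 0) + ρ * bb p.1)) := ⟨_, rfl⟩
    have e1 : ∑ e ∈ range (2 ^ l), Bc ρ F false (cnt 2 3 (fun _ => ρ) l (-(|ρ| * (e : ℤ)))) (bb e) 0 0 Z = (S.card : ℝ) := by
      unfold Bc
      rw [← sum_product', hS, ← sum_boole]
    rw [e1]
    unfold cN
    have hinj : Set.InjOn (fun p : ℕ × ℕ => (2 : ℤ) ^ l * (p.2 : ℤ) - |ρ| * (p.1 : ℤ)) (S : Set (ℕ × ℕ)) := by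
      rintro ⟨e, z⟩ hp ⟨e', z'⟩ hp' heq
      rw [mem_coe, hS, mem_filter, mem_product, mem_range] at hp hp'
      simp only at hp hp' heq
      have he := hp.1.1
      have he' := hp'.1.1
      have hd : (2 : ℤ) ^ l ∣ |ρ| * ((e : ℤ) - e') := ⟨(z : ℤ) - z', by linarith⟩
      have hco : IsCoprime ((2 : ℤ) ^ l) |ρ| := by
        apply IsCoprime.pow_left
        obtain ⟨a, ha⟩ : Odd |ρ| := by
          rw [← Int.not_even_iff_odd, even_abs, Int.not_even_iff_odd]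
          exact hρ
        exact ⟨-a, 1, by rw [ha]; ring⟩
      have hd2 := hco.dvd_of_dvd_mul_left hd
      have h5 : |(e : ℤ) - e'| < 2 ^ l := by
        rw [abs_lt]
        have h6 : (e : ℤ) < 2 ^ l := by exact_mod_cast he
        have h7 : (e' : ℤ) < 2 ^ l := by exact_mod_cast he'
        constructor <;> linarith
      have h6 := Int.eq_zero_of_abs_lt_dvd hd2 h5
      have h7 : (e : ℤ) = e' := by linarith
      have h8 : (2 : ℤ) ^ l * z = 2 ^ l * z' := by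
        rw [h7] at heq
        linarith
      have h9 := mul_left_cancel₀ h2l.ne' h8
      ext
      · exact_mod_cast h7
      · exact_mod_cast h9
    have hmaps : (fun p : ℕ × ℕ => (2 : ℤ) ^ l * (p.2 : ℤ) - |ρ| * (p.1 : ℤ)) '' (S : Set (ℕ × ℕ)) ⊆
        {n : ℤ | n ∈ MixedH ρ F w ∧ 0 < n ∧ (n : ℝ) ≤ x} := by
      rintro _ ⟨⟨e, z⟩, hp, rfl⟩
      rw [mem_coe, hS, mem_filter, mem_product, mem_range, mem_Ico] at hp
      simp only at hp ⊢
      obtain ⟨⟨he, hz1, hz2⟩, hdg⟩ := hp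
      obtain ⟨n, hn⟩ : ∃ n : ℤ, n = 2 ^ l * (z : ℤ) - |ρ| * (e : ℤ) := ⟨_, rfl⟩
      rw [← hn]
      have heR : (e : ℝ) ≤ 2 ^ l := by exact_mod_cast he.le
      have hzR : (Z : ℝ) ≤ z := by exact_mod_cast hz1
      have hzR2 : (z : ℝ) ≤ 2 * Z := by exact_mod_cast hz2.le
      have h2lR : (0 : ℝ) < 2 ^ l := by positivity
      have hρR : (0 : ℝ) ≤ |(ρ : ℝ)| := abs_nonneg _
      have hnR : (n : ℝ) = 2 ^ l * z - |(ρ : ℝ)| * e := by rw [hn]; push_cast; ring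
      have hlow : (2 : ℝ) ^ l * (|(ρ : ℝ)| + B + 1) ≤ n := by
        rw [hnR]
        nlinarith
      have hlow2 : (2 : ℝ) ^ l * (|(ρ : ℝ)| + B + 1) ≤ ((2 ^ l * (z : ℤ) : ℤ) : ℝ) := by
        push_cast
        nlinarith
      have hn1 : ∀ i < l, (T 2 3 (fun _ => ρ))^[i] n ∉ F := fun i hi hmem =>
        absurd (hF _ hmem) (not_le.2 (orb_gt hρ hB hlow hi.le))
      have hk1 : ∀ i < l, (T 2 3 (fun _ => ρ))^[i] (2 ^ l * (z : ℤ)) ∉ F := fun i hi hmem =>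
        absurd (hF _ hmem) (not_le.2 (orb_gt hρ hB hlow2 hi.le))
      have hTn : (T 2 3 (fun _ => ρ))^[l] n =
          3 ^ cnt 2 3 (fun _ => ρ) l (-(|ρ| * (e : ℤ))) * (3 ^ 0 * (z : ℤ) + 0) + ρ * bb e := by
        have h1 := (iter_add hρ l (-(|ρ| * (e : ℤ))) (z : ℤ)).1
        have h2 : -(|ρ| * (e : ℤ)) + 2 ^ l * (z : ℤ) = n := by rw [hn]; ring
        rw [h2, hbb e] at h1
        rw [h1]
        ring
      have hTk : (T 2 3 (fun _ => ρ))^[l] (2 ^ l * (z : ℤ)) = 3 ^ 0 * (z : ℤ) + 0 := by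
        have h1 := (iter_add hρ l 0 (z : ℤ)).1
        rw [zero_add, (iter_zero52 l).1, (iter_zero52 l).2] at h1
        rw [h1]
        ring
      have hDf : Df ρ F n (2 ^ l * (z : ℤ)) := by
        rw [Df_iter l hn1 hk1, hTn, hTk]
        exact hdg
      have hk : n + |ρ| * (e : ℤ) = 2 ^ l * (z : ℤ) := by rw [hn]; ring
      refine ⟨mem_MixedH (h := |ρ| * (e : ℤ)) (((dvd_abs ρ ρ).2 dvd_rfl).mul_right _) ?_ (by rw [hk]; exact hDf), ?_, ?_⟩
      · push_cast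
        rw [abs_mul, abs_abs, abs_of_nonneg (by positivity : (0 : ℝ) ≤ e)]
        exact (mul_le_mul_of_nonneg_left heR hρR).trans hw
      · have : (0 : ℝ) < n := by
          refine lt_of_lt_of_le ?_ hlow
          positivity
        exact_mod_cast this
      · refine le_trans ?_ hx
        rw [hnR]
        have : 0 ≤ |(ρ : ℝ)| * e := by positivity
        nlinarith
    have h1 := Set.ncard_le_ncard hmaps (finite52 _ x)
    rw [Set.InjOn.ncard_image hinj, Set.ncard_coe_finset] at h1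
    exact_mod_cast h1

open Classical in
/-- The pairs `n`, `n + ρ`. -/
theorem count_one {F : Set ℤ} (Z : ℕ) (hZ : 0 < Z) {w : ℝ} (hw : |(ρ : ℝ)| ≤ w) {x : ℝ}
    (hx : (2 * Z : ℝ) ≤ x) : Bc ρ F true 0 1 0 0 Z ≤ cN (MixedH ρ F w) x := by
  unfold Bc cN
  rw [sum_boole]
  have hmaps : (fun z : ℕ => (z : ℤ)) '' (((Ico Z (2 * Z)).filter (fun z : ℕ =>
      Dg ρ F true (3 ^ 0 * (z : ℤ) + 0) (3 ^ 0 * (3 ^ 0 * (z : ℤ) + 0) + ρ * 1)) : Finset ℕ) : Set ℕ) ⊆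
      {n : ℤ | n ∈ MixedH ρ F w ∧ 0 < n ∧ (n : ℝ) ≤ x} := by
    rintro _ ⟨z, hz, rfl⟩
    rw [mem_coe, mem_filter, mem_Ico] at hz
    obtain ⟨⟨h1, h2⟩, h3⟩ := hz
    have h4 : Df ρ F (z : ℤ) ((z : ℤ) + ρ) := by
      have h5 : Df ρ F (3 ^ 0 * (z : ℤ) + 0) (3 ^ 0 * (3 ^ 0 * (z : ℤ) + 0) + ρ * 1) := h3
      simpa using h5
    refine ⟨mem_MixedH dvd_rfl hw h4, by simp only; omega, ?_⟩
    simp only
    have h5 : (z : ℝ) ≤ 2 * Z := by exact_mod_cast h2.le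
    push_cast
    linarith
  have h1 := Set.ncard_le_ncard hmaps (finite52 _ x)
  rw [Set.ncard_image_of_injective _ Nat.cast_injective, Set.ncard_coe_finset] at h1
  exact_mod_cast h1

end Pool.Agent.Helper8.RU
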