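import Pool.Agent.Helper8.RU.R12

/-!
# RU-R13: the lower bound

`lower`: if the set of the integers whose orbit meets `F` has positive density then at least `c x min (1, (1 + log w) / √(log x))` of the `n ≤ x` have a first time in `F` and a
neighbour `n + h`, `ρ ∣ h`, `|h| ≤ w`, with another first time (`w ≥ |ρ|`).
-/

set_option autoImplicit false

namespace Pool.Agent.Helper8.RU

open Pool.Agent.Helper68.Moeller Pool.Agent.Helper8.ND Pool.Agent.Helper8.CO Pool.Agent.Helper28 Pool.Agent.Helper8.ST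
  Pool.Agent.Helper85.ST Pool.Agent.Helper91 Finset Filter Topology

variable {ρ : ℤ}

theorem rr_mono_succ (s k : ℕ) (x : ℕ × ℤ) : rr s k x ≤ rr s (k + 1) x := by
  induction k generalizing x with
  | zero =>
    by_cases h : s ≤ x.1
    · rw [rr_out h, rr_out h]
    · have : rr s 0 x = 0 := if_neg h
      rw [this]
      exact rr_nonneg s 1 x
  | succ k ih =>
    by_cases h : s ≤ x.1
    · rw [rr_out h, rr_out h]
    · rw [rr_in h, rr_in h]
      exact av_mono ih x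

private theorem qq_two53 {c : ℕ} {β : ℤ} (h : |β| ≤ 2 * 3 ^ c) : qq (c, β) ≤ 2 := by
  unfold qq Zs
  simp only
  rw [Real.sqrt_le_left (by norm_num), div_le_iff₀ (by positivity)]
  have h1 : |(β : ℝ)| ≤ 2 * 3 ^ c := by exact_mod_cast h
  have h2 : (0 : ℝ) < 3 ^ c := by positivity
  linarith

/-- The numbers `k`, `Z`. -/
private theorem scale53 (hρ : Odd ρ) {F : Set ℤ} {B : ℝ} (hB : 0 ≤ B) (hF : ∀ a ∈ F, (a : ℝ) ≤ B)
    (hD : 0 < PL.dens (hitI 2 3 (fun _ => ρ) F)) (K₀ s₀ : ℕ) (hK₀ : 1 ≤ K₀) :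
    ∃ lam c₀ L₀ : ℝ, 0 < lam ∧ 0 < c₀ ∧ ∀ x : ℝ, 0 < x → L₀ ≤ Real.log x → ∃ s : ℕ, s₀ ≤ s ∧ 1 ≤ s ∧
      (s : ℝ) ≤ lam * Real.sqrt (Real.log x) ∧ ∀ l ≤ s, ∃ Z : ℕ, 2 * |(ρ : ℝ)| + B + 1 ≤ ((2 ^ (K₀ * s ^ 2 + 1) * Z : ℕ) : ℝ) ∧
        x / 4 ≤ 2 ^ l * ((2 ^ (K₀ * s ^ 2 + 1) * Z : ℕ) : ℝ) ∧
        2 ^ l * (2 * ((2 ^ (K₀ * s ^ 2 + 1) * Z : ℕ) : ℝ)) ≤ x ∧
        ∀ (i : Bool) (c : ℕ) (β : ℤ), c ≤ s → |β| ≤ 2 * 3 ^ c →
          c₀ * ((2 ^ (K₀ * s ^ 2 + 1) * Z : ℕ) : ℝ) * rr s (K₀ * s ^ 2 + 1) (c, β) ≤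
            Bc ρ F i c β 0 0 (2 ^ (K₀ * s ^ 2 + 1) * Z) := by
  obtain ⟨κ, hκ, hterm⟩ := terminal hρ hB hF hD
  have hρ0 : (0 : ℝ) ≤ |(ρ : ℝ)| := abs_nonneg _
  obtain ⟨A, hA⟩ : ∃ A : ℝ, A = |(ρ : ℝ)| + 4 := ⟨_, rfl⟩
  have hA4 : 4 ≤ A := by rw [hA]; linarith
  obtain ⟨q, hq⟩ : ∃ q : ℝ, q = Real.log A := ⟨_, rfl⟩
  have hq1 : 1 ≤ q := by
    rw [hq, ← Real.log_exp 1]
    apply Real.log_le_log (Real.exp_pos 1)
    have := Real.exp_one_lt_d9
    linarith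
  have hK0 : (1 : ℝ) ≤ K₀ := by exact_mod_cast hK₀
  obtain ⟨μ, hμ⟩ : ∃ μ : ℝ, μ = min (1 / (16 * (K₀ * q))) (κ / (8 * K₀)) := ⟨_, rfl⟩
  have hμ0 : 0 < μ := by
    rw [hμ]
    exact lt_min (by positivity) (by positivity)
  have hμ1 : K₀ * μ * q ≤ 1 / 16 := by
    have h1 : μ ≤ 1 / (16 * (K₀ * q)) := by rw [hμ]; exact min_le_left _ _
    rw [le_div_iff₀ (by positivity)] at h1
    linarith
  have hμ2 : K₀ * μ ≤ κ / 8 := by
    have h1 : μ ≤ κ / (8 * K₀) := by rw [hμ]; exact min_le_right _ _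
    rw [le_div_iff₀ (by positivity)] at h1
    linarith
  have hμ3 : K₀ * μ ≤ 1 / 16 := by
    have h1 : 0 ≤ K₀ * μ := by positivity
    nlinarith
  obtain ⟨lam, hlam⟩ : ∃ lam : ℝ, lam = Real.sqrt μ := ⟨_, rfl⟩
  have hlam0 : 0 < lam := by rw [hlam]; exact Real.sqrt_pos.2 hμ0
  have hlam2 : lam ^ 2 = μ := by rw [hlam]; exact Real.sq_sqrt hμ0.le
  obtain ⟨c₀, X₀, hc₀, hX₀, hT⟩ := hterm (lam / 4) (by positivity)
  obtain ⟨G, hG⟩ : ∃ G : ℝ, G = 2 * X₀ + B + 4 * |(ρ : ℝ)| + 4 := ⟨_, rfl⟩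
  have hG1 : 1 ≤ G := by rw [hG]; linarith
  have hlG : 0 ≤ Real.log G := Real.log_nonneg hG1
  -- the threshold
  have hev : ∀ᶠ L : ℝ in atTop, ((s₀ : ℝ) + 2 ≤ lam * Real.sqrt L ∧ lam * Real.sqrt L ≤ L / 32) ∧
      (lam * Real.sqrt L ≤ κ * L / 16 ∧ Real.log G + q + 1 ≤ L / 4) ∧ (1 ≤ κ * L / 8 ∧ 32 ≤ L) := by
    have hsq : Tendsto (fun L : ℝ => Real.sqrt L) atTop atTop := Real.tendsto_sqrt_atTop
    have hsq2 : ∀ L : ℝ, 0 ≤ L → Real.sqrt L * Real.sqrt L = L := fun L hL => Real.mul_self_sqrt hL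
    refine Filter.Eventually.and (Filter.Eventually.and ?_ ?_) (Filter.Eventually.and (Filter.Eventually.and ?_ ?_)
      (Filter.Eventually.and ?_ (eventually_ge_atTop 32)))
    · filter_upwards [hsq.eventually_ge_atTop (((s₀ : ℝ) + 2) / lam)] with L hL
      rw [div_le_iff₀ hlam0] at hL
      linarith
    · filter_upwards [hsq.eventually_ge_atTop (32 * lam), eventually_ge_atTop 0] with L hL hL0
      have h1 := mul_le_mul_of_nonneg_right hL (Real.sqrt_nonneg L)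
      rw [hsq2 L hL0] at h1
      linarith
    · filter_upwards [hsq.eventually_ge_atTop (16 * lam / κ), eventually_ge_atTop 0] with L hL hL0
      rw [div_le_iff₀ hκ] at hL
      have h1 := mul_le_mul_of_nonneg_right hL (Real.sqrt_nonneg L)
      have h2 : Real.sqrt L * κ * Real.sqrt L = κ * L := by
        rw [mul_comm _ κ, mul_assoc, hsq2 L hL0]
      rw [h2] at h1
      linarith
    · filter_upwards [eventually_ge_atTop (4 * (Real.log G + q + 1))] with L hL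
      linarith
    · filter_upwards [eventually_ge_atTop (8 / κ)] with L hL
      rw [div_le_iff₀ hκ] at hL
      linarith
  obtain ⟨L₀, hL₀⟩ := eventually_atTop.1 hev
  refine ⟨lam, c₀, L₀, hlam0, hc₀, fun x hx0 hx => ?_⟩
  obtain ⟨⟨E1, E2⟩, ⟨E3, E4⟩, E5, E6⟩ := hL₀ _ hx
  obtain ⟨L, hL⟩ : ∃ L : ℝ, L = Real.log x := ⟨_, rfl⟩
  rw [← hL] at E1 E2 E3 E4 E5 E6 ⊢
  have hL0 : 0 < L := by linarith
  have hxe : x = Real.exp L := by rw [hL, Real.exp_log hx0]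
  obtain ⟨s, hs⟩ : ∃ s : ℕ, s = ⌊lam * Real.sqrt L⌋₊ := ⟨_, rfl⟩
  have hsq0 : 0 ≤ Real.sqrt L := Real.sqrt_nonneg L
  have hs1 : (s : ℝ) ≤ lam * Real.sqrt L := by rw [hs]; exact Nat.floor_le (by positivity)
  have hs2 : lam * Real.sqrt L < s + 1 := by rw [hs]; exact Nat.lt_floor_add_one _
  have hs0n : (0 : ℝ) ≤ s₀ := Nat.cast_nonneg s₀
  have hs3 : s₀ + 1 ≤ s := by
    have : (s₀ : ℝ) + 1 < s + 1 - 0 := by linarith
    have : (s₀ : ℝ) < s := by linarith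
    exact_mod_cast this
  have hs4 : (1 : ℝ) ≤ s := by exact_mod_cast (by omega : 1 ≤ s)
  have hs5 : lam * Real.sqrt L / 2 ≤ s := by linarith
  refine ⟨s, by omega, by omega, hs1, fun l hl => ?_⟩
  have hlr : (l : ℝ) ≤ s := by exact_mod_cast hl
  obtain ⟨k, hk⟩ : ∃ k : ℕ, k = K₀ * s ^ 2 + 1 := ⟨_, rfl⟩
  rw [← hk]
  -- the size of `k`
  have hss : (s : ℝ) ^ 2 ≤ μ * L := by
    have h1 : (s : ℝ) ^ 2 ≤ (lam * Real.sqrt L) ^ 2 := pow_le_pow_left₀ (by linarith) hs1 2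
    rwa [mul_pow, hlam2, Real.sq_sqrt hL0.le] at h1
  have hkr : (k : ℝ) ≤ K₀ * μ * L + 1 := by
    rw [hk]
    push_cast
    have := mul_le_mul_of_nonneg_left hss (by linarith : (0 : ℝ) ≤ K₀)
    linarith
  have hk1 : (k : ℝ) ≤ L / 16 + 1 := by
    have := mul_le_mul_of_nonneg_right hμ3 hL0.le
    linarith
  have hk2 : (k : ℝ) * q ≤ L / 16 + q := by
    have h1 := mul_le_mul_of_nonneg_right hkr (by linarith : 0 ≤ q)
    have h2 := mul_le_mul_of_nonneg_right hμ1 hL0.le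
    have h3 : (K₀ * μ * L + 1) * q = K₀ * μ * q * L + q := by ring
    linarith
  have hk3 : (k : ℝ) ≤ κ * L / 8 + 1 := by
    have := mul_le_mul_of_nonneg_right hμ2 hL0.le
    linarith
  -- the power of two
  have h2p : (2 : ℝ) ^ (k + l + 2) ≤ Real.exp (L / 4) := by
    have h1 : (2 : ℝ) ^ (k + l + 2) = Real.exp (((k + l + 2 : ℕ) : ℝ) * Real.log 2) := by
      rw [Real.exp_nat_mul, Real.exp_log (by norm_num)]
    rw [h1]
    apply Real.exp_le_exp.2
    have h2 : Real.log 2 ≤ 1 := by linarith [Real.log_two_lt_d9]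
    have h3 : ((k + l + 2 : ℕ) : ℝ) * Real.log 2 ≤ ((k + l + 2 : ℕ) : ℝ) * 1 :=
      mul_le_mul_of_nonneg_left h2 (Nat.cast_nonneg _)
    push_cast at h3 ⊢
    linarith
  have h2pos : (0 : ℝ) < 2 ^ (k + l + 1) := by positivity
  obtain ⟨Z, hZ⟩ : ∃ Z : ℕ, Z = ⌊x / 2 ^ (k + l + 1)⌋₊ := ⟨_, rfl⟩
  have hZ1 : (Z : ℝ) ≤ x / 2 ^ (k + l + 1) := by rw [hZ]; exact Nat.floor_le (by positivity)
  have hZ2 : x / 2 ^ (k + l + 1) < Z + 1 := by rw [hZ]; exact Nat.lt_floor_add_one _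
  have hx2 : Real.exp (3 * L / 4) ≤ x / 2 ^ (k + l + 2) := by
    rw [le_div_iff₀ (by positivity)]
    calc Real.exp (3 * L / 4) * 2 ^ (k + l + 2) ≤ Real.exp (3 * L / 4) * Real.exp (L / 4) :=
          mul_le_mul_of_nonneg_left h2p (Real.exp_pos _).le
      _ = x := by rw [← Real.exp_add, hxe]; congr 1; ring
  have hx3 : x / 2 ^ (k + l + 1) = 2 * (x / 2 ^ (k + l + 2)) := by
    rw [show k + l + 2 = (k + l + 1) + 1 by ring, pow_succ (2 : ℝ) (k + l + 1)]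
    field_simp
  have he1 : 1 ≤ Real.exp (3 * L / 4) := Real.one_le_exp (by linarith)
  have hZ3 : x / 2 ^ (k + l + 2) ≤ Z := by linarith
  have hZ4 : Real.exp (3 * L / 4) ≤ Z := by linarith
  -- `Z` is large
  have hAk : A ^ k = Real.exp ((k : ℝ) * q) := by
    rw [hq, Real.exp_nat_mul, Real.exp_log (by linarith)]
  have hAk1 : 1 ≤ A ^ k := one_le_pow₀ (by linarith)
  have hGA : G * A ^ k ≤ Z := by
    refine le_trans ?_ hZ4
    rw [hAk, ← Real.exp_log (by linarith : 0 < G), ← Real.exp_add]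
    apply Real.exp_le_exp.2
    linarith
  have hGZ : G ≤ Z := by
    refine le_trans ?_ hGA
    exact le_mul_of_one_le_right (by linarith) hAk1
  have h2k1 : (1 : ℝ) ≤ 2 ^ k := one_le_pow₀ (by norm_num)
  have hZr0 : (0 : ℝ) < Z := by linarith
  have h2kZ : (Z : ℝ) ≤ ((2 ^ k * Z : ℕ) : ℝ) := by
    push_cast
    exact le_mul_of_one_le_left hZr0.le h2k1
  refine ⟨Z, ?_, ?_, ?_, fun i c β hcs hβ => ?_⟩
  · have : 2 * |(ρ : ℝ)| + B + 1 ≤ G := by rw [hG]; linarith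
    linarith
  · have h1 : x / 4 = 2 ^ (k + l) * (x / 2 ^ (k + l + 2)) := by
      rw [pow_add (2 : ℝ) (k + l) 2]
      field_simp
      norm_num
    have h2 : (2 : ℝ) ^ l * ((2 ^ k * Z : ℕ) : ℝ) = 2 ^ (k + l) * Z := by
      push_cast
      rw [pow_add]
      ring
    rw [h1, h2]
    exact mul_le_mul_of_nonneg_left hZ3 (by positivity)
  · have h2 : (2 : ℝ) ^ l * (2 * ((2 ^ k * Z : ℕ) : ℝ)) = 2 ^ (k + l + 1) * Z := by
      push_cast
      rw [pow_add, pow_add]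
      ring
    rw [h2]
    calc (2 : ℝ) ^ (k + l + 1) * Z ≤ 2 ^ (k + l + 1) * (x / 2 ^ (k + l + 1)) :=
          mul_le_mul_of_nonneg_left hZ1 h2pos.le
      _ = x := by field_simp
  · -- the recursion
    obtain ⟨R, hR⟩ : ∃ R : ℕ, R = (ρ.natAbs + 4) ^ k * 2 := ⟨_, rfl⟩
    have hρn : (ρ.natAbs : ℝ) = |(ρ : ℝ)| := by rw [Nat.cast_natAbs, Int.cast_abs]
    have hRA : (R : ℝ) = A ^ k * 2 := by
      rw [hR, hA]
      push_cast
      rw [hρn]
    have hRz : (|ρ| + 4) ^ k * 2 = (R : ℤ) := by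
      rw [hR]
      push_cast
      rfl
    have hZlog : L / 2 ≤ Real.log Z := by
      rw [Real.le_log_iff_exp_le hZr0]
      refine le_trans (Real.exp_le_exp.2 ?_) hZ4
      linarith
    have hZx : 2 ^ (k + l + 1) * (Z : ℝ) ≤ x := by
      calc (2 : ℝ) ^ (k + l + 1) * Z ≤ 2 ^ (k + l + 1) * (x / 2 ^ (k + l + 1)) :=
            mul_le_mul_of_nonneg_left hZ1 h2pos.le
        _ = x := by field_simp
    have hl3 : 1 ≤ Real.log 3 := by
      rw [← Real.log_exp 1]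
      apply Real.log_le_log (Real.exp_pos 1)
      have := Real.exp_one_lt_d9
      linarith
    have hl32 : Real.log 3 ≤ 2 := by
      have := Real.log_le_sub_one_of_pos (by norm_num : (0 : ℝ) < 3)
      linarith
    have hZ₀ : B + (|ρ| + 1 : ℤ) * (R : ℤ) < (Z : ℝ) := by
      push_cast
      rw [hRA]
      have h1 : B ≤ B * A ^ k := le_mul_of_one_le_right hB hAk1
      have h2 : G * A ^ k = 2 * X₀ * A ^ k + B * A ^ k + (4 * |(ρ : ℝ)| + 4) * A ^ k := by rw [hG]; ring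
      have h3 : (|(ρ : ℝ)| + 1) * (A ^ k * 2) ≤ (4 * |(ρ : ℝ)| + 4) * A ^ k := by nlinarith
      have h4 : 0 < 2 * X₀ * A ^ k := by positivity
      linarith
    have hrec := rec49 hρ hB hF (s := s) (J := k) (R := (R : ℤ)) (c₀ := c₀) (Z₀ := Z) hZ₀ k ?_ k le_rfl i c β 0 0 2
      (by norm_num) hRz.le hcs (by omega) hβ (by norm_num)
    · have e : c₀ * ((2 ^ k * Z : ℕ) : ℝ) * rr s k (c, β) = c₀ * (2 ^ k * Z) * rr s k (c, β) := by push_cast; ring
      rw [e]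
      exact hrec
    · -- the terminal states
      intro i' j β' b' k' hj hk' hβ' hb'
      have hkk : (2 : ℝ) ^ k' ≤ 2 ^ k := pow_le_pow_right₀ (by norm_num) hk'
      have hk'1 : (1 : ℝ) ≤ 2 ^ k' := one_le_pow₀ (by norm_num)
      obtain ⟨W, hW⟩ : ∃ W : ℕ, W = 2 ^ k' * Z := ⟨_, rfl⟩
      have hWr : (W : ℝ) = 2 ^ k' * Z := by rw [hW]; push_cast; ring
      have hZW : (Z : ℝ) ≤ W := by
        rw [hWr]
        exact le_mul_of_one_le_left hZr0.le hk'1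
      have hWx : (W : ℝ) ≤ x := by
        refine le_trans ?_ hZx
        rw [hWr]
        refine mul_le_mul_of_nonneg_right (hkk.trans ?_) hZr0.le
        exact pow_le_pow_right₀ (by norm_num) (by omega)
      have hW0 : (0 : ℝ) < W := by linarith
      have hLa : Real.log (3 ^ j * W) = j * Real.log 3 + Real.log W := by
        rw [Real.log_mul (by positivity) hW0.ne', Real.log_pow]
      have hjr : (j : ℝ) ≤ k := by exact_mod_cast hj
      have hj0 : (0 : ℝ) ≤ j := Nat.cast_nonneg j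
      have hlogW : Real.log Z ≤ Real.log W := Real.log_le_log hZr0 hZW
      have hlogW2 : Real.log W ≤ L := by rw [hL]; exact Real.log_le_log hW0 hWx
      have hLa1 : L / 2 ≤ Real.log (3 ^ j * W) := by
        rw [hLa]
        have : 0 ≤ j * Real.log 3 := by positivity
        linarith
      have hLa2 : Real.log (3 ^ j * W) ≤ 2 * L := by
        rw [hLa]
        have h1 : j * Real.log 3 ≤ k * 2 := mul_le_mul hjr hl32 (by linarith) (Nat.cast_nonneg k)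
        linarith
      have hsR : (s : ℝ) * Real.log 3 ≤ L / 16 := by
        have h1 : (s : ℝ) * Real.log 3 ≤ s * 2 := mul_le_mul_of_nonneg_left hl32 (Nat.cast_nonneg s)
        linarith
      have hRk : X₀ * (R : ℝ) ≤ Z := by
        rw [hRA]
        refine le_trans ?_ hGA
        have h2 : G * A ^ k = 2 * X₀ * A ^ k + B * A ^ k + (4 * |(ρ : ℝ)| + 4) * A ^ k := by rw [hG]; ring
        have h3 : 0 ≤ B * A ^ k := by positivity
        have h4 : 0 ≤ (4 * |(ρ : ℝ)| + 4) * A ^ k := by positivity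
        linarith
      have hfin := hT i' s j β' b' R W ?_ ?_ ?_ ?_ hβ' hb' (hRk.trans hZW)
      · have e : c₀ * ((2 : ℝ) ^ k' * Z) = c₀ * W := by rw [hWr]
        rw [e, ← hW]
        exact hfin
      · have : X₀ ≤ G := by rw [hG]; linarith
        linarith
      · -- `(lam / 4) √La ≤ s log 3`
        have h1 : Real.sqrt (Real.log (3 ^ j * W)) ≤ 2 * Real.sqrt L := by
          rw [Real.sqrt_le_left (by positivity), mul_pow, Real.sq_sqrt hL0.le]
          linarith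
        calc lam / 4 * Real.sqrt (Real.log (3 ^ j * W)) ≤ lam / 4 * (2 * Real.sqrt L) :=
              mul_le_mul_of_nonneg_left h1 (by positivity)
          _ = lam * Real.sqrt L / 2 := by ring
          _ ≤ s * 1 := by linarith
          _ ≤ s * Real.log 3 := mul_le_mul_of_nonneg_left hl3 (Nat.cast_nonneg s)
      · linarith
      · have h1 : κ * (L / 2) ≤ κ * Real.log (3 ^ j * W) := mul_le_mul_of_nonneg_left hLa1 hκ.le
        linarith

/-- **The lower bound.** -/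
theorem lower (hρ : Odd ρ) {F : Set ℤ} {B : ℝ} (hB : 0 ≤ B) (hF : ∀ a ∈ F, (a : ℝ) ≤ B)
    (hD : 0 < PL.dens (hitI 2 3 (fun _ => ρ) F)) : ∃ c X : ℝ, 0 < c ∧ ∀ x w : ℝ, X ≤ x → |(ρ : ℝ)| ≤ w →
      c * min 1 ((1 + Real.log w) / Real.sqrt (Real.log x)) * x ≤ cN (MixedH ρ F w) x := by
  obtain ⟨K₀, s₀, hK₀, hs₀, hreach⟩ := reach 2 (by norm_num)
  obtain ⟨lam, c₀, L₀, hlam, hc₀, hsc⟩ := scale53 hρ hB hF hD K₀ s₀ hK₀
  have hρ1 : (1 : ℝ) ≤ |(ρ : ℝ)| := by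
    have h1 : ρ ≠ 0 := by
      rintro rfl
      exact absurd hρ (by decide)
    have h2 : (1 : ℤ) ≤ |ρ| := Int.one_le_abs h1
    exact_mod_cast h2
  have hlρ : 0 ≤ Real.log |(ρ : ℝ)| := Real.log_nonneg hρ1
  obtain ⟨P, hP⟩ : ∃ P : ℝ, P = 2 + Real.log |(ρ : ℝ)| := ⟨_, rfl⟩
  have hP2 : 2 ≤ P := by rw [hP]; linarith
  obtain ⟨c, hc⟩ : ∃ c : ℝ, c = min (c₀ / 32) (c₀ / (32 * (P * lam))) := ⟨_, rfl⟩
  have hc0 : 0 < c := by rw [hc]; exact lt_min (by positivity) (by positivity)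
  have hc1 : c ≤ c₀ / 32 := by rw [hc]; exact min_le_left _ _
  have hc2 : c ≤ c₀ / (32 * (P * lam)) := by rw [hc]; exact min_le_right _ _
  refine ⟨c, max (Real.exp L₀) (Real.exp 1), hc0, fun x w hx hw => ?_⟩
  have hx0 : 0 < x := (Real.exp_pos _).trans_le ((le_max_left _ _).trans hx)
  have hLL : L₀ ≤ Real.log x := (Real.le_log_iff_exp_le hx0).2 ((le_max_left _ _).trans hx)
  have hL1 : 1 ≤ Real.log x := (Real.le_log_iff_exp_le hx0).2 ((le_max_right _ _).trans hx)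
  obtain ⟨s, hs0, hs1, hsl, hmain⟩ := hsc x hx0 hLL
  obtain ⟨k, hk⟩ : ∃ k : ℕ, k = K₀ * s ^ 2 + 1 := ⟨_, rfl⟩
  rw [← hk] at hmain
  have hsr : (1 : ℝ) ≤ s := by exact_mod_cast hs1
  have hsr0 : (0 : ℝ) < s := by linarith
  obtain ⟨L, hL⟩ : ∃ L : ℝ, L = Real.log x := ⟨_, rfl⟩
  rw [← hL] at hsl hL1 ⊢
  have hq0 : 0 < Real.sqrt L := Real.sqrt_pos.2 (by linarith)
  -- the pairs `n`, `n + ρ`
  have hone : c₀ * x / (8 * s) ≤ cN (MixedH ρ F w) x := by
    obtain ⟨Z, hZ1, hZ2, hZ3, hZ4⟩ := hmain 0 (Nat.zero_le _)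
    rw [pow_zero, one_mul] at hZ2 hZ3
    have hZpos : 0 < 2 ^ k * Z := by
      have : (0 : ℝ) < ((2 ^ k * Z : ℕ) : ℝ) := by linarith
      exact_mod_cast this
    have h1 := hZ4 true 0 1 (Nat.zero_le _) (by norm_num)
    have h2 := count_one (ρ := ρ) (F := F) (2 ^ k * Z) hZpos hw hZ3
    have h3 : 1 / (2 * (s : ℝ)) ≤ rr s k (0, 1) := by
      rw [hk, rr_in (x := ((0, 1) : ℕ × ℤ)) (by simp only; omega), av]
      have e0 : nx0 (0, 1) = (1, 1) := by
        rw [nx0_odd (by decide)]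
        rfl
      have e1 : nx1 (0, 1) = (1, -2) := by
        rw [nx1_odd_zero (by decide)]
        rfl
      have r0 := hreach s (1, 1) hs0 le_rfl hs1 (qq_two53 (by norm_num))
      have r1 := hreach s (1, -2) hs0 le_rfl hs1 (qq_two53 (by norm_num))
      rw [e0, e1]
      simp only [Nat.cast_one] at r0 r1
      linarith
    calc c₀ * x / (8 * s) = c₀ * (x / 4) * (1 / (2 * s)) := by field_simp; norm_num
      _ ≤ c₀ * ((2 ^ k * Z : ℕ) : ℝ) * rr s k (0, 1) := by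
          refine mul_le_mul (mul_le_mul_of_nonneg_left hZ2 hc₀.le) h3 (by positivity) (by positivity)
      _ ≤ cN (MixedH ρ F w) x := h1.trans h2
  -- the windows
  have hwin : ∀ l ≤ s, |(ρ : ℝ)| * 2 ^ l ≤ w → c₀ * x * l / (16 * s) ≤ cN (MixedH ρ F w) x := by
    intro l hl hlw
    obtain ⟨Z, hZ1, hZ2, hZ3, hZ4⟩ := hmain l hl
    obtain ⟨jj, bb, hj, hsum, hcount⟩ := count_pairs hρ hB hF l (2 ^ k * Z) hZ1 hlw
    refine le_trans ?_ (hcount x hZ3)
    have h1 : ∀ e ∈ range (2 ^ l), c₀ * ((2 ^ k * Z : ℕ) : ℝ) * ((jj e : ℝ) / (2 * s)) ≤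
        Bc ρ F false (jj e) (bb e) 0 0 (2 ^ k * Z) := by
      intro e he
      obtain ⟨h2, h3⟩ := hj e (mem_range.1 he)
      refine le_trans ?_ (hZ4 false (jj e) (bb e) (h2.trans hl) h3)
      refine mul_le_mul_of_nonneg_left ?_ (by positivity)
      rcases Nat.eq_zero_or_pos (jj e) with h0 | h0
      · rw [h0]
        simp only [Nat.cast_zero, zero_div]
        exact rr_nonneg _ _ _
      · have h4 := hreach s (jj e, bb e) hs0 h0 (h2.trans hl) (qq_two53 h3)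
        refine h4.trans ?_
        rw [hk]
        exact rr_mono_succ _ _ _
    refine le_trans ?_ (sum_le_sum h1)
    rw [← mul_sum, ← sum_div]
    have h2 : ∑ e ∈ range (2 ^ l), (jj e : ℝ) = l * 2 ^ l / 2 := by linarith
    rw [h2]
    have h3 : c₀ * ((2 ^ k * Z : ℕ) : ℝ) * (l * 2 ^ l / 2 / (2 * s)) =
        c₀ * (2 ^ l * ((2 ^ k * Z : ℕ) : ℝ)) * l / (4 * s) := by
      field_simp
      norm_num
    rw [h3]
    have h4 : c₀ * x * l / (16 * s) = c₀ * (x / 4) * l / (4 * s) := by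
      field_simp
      norm_num
    rw [h4]
    refine div_le_div_of_nonneg_right ?_ (by positivity)
    refine mul_le_mul_of_nonneg_right (mul_le_mul_of_nonneg_left hZ2 hc₀.le) (Nat.cast_nonneg l)
  -- the choice of `l`
  have hw1 : 1 ≤ w / |(ρ : ℝ)| := by rw [le_div_iff₀ (by linarith)]; linarith
  have hl2 : 0 < Real.log 2 := Real.log_pos (by norm_num)
  have hl21 : Real.log 2 ≤ 1 := by linarith [Real.log_two_lt_d9]
  obtain ⟨l₁, hl₁⟩ : ∃ l₁ : ℕ, l₁ = ⌊Real.log (w / |(ρ : ℝ)|) / Real.log 2⌋₊ := ⟨_, rfl⟩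
  have hlw0 : 0 ≤ Real.log (w / |(ρ : ℝ)|) := Real.log_nonneg hw1
  have hl₁1 : (l₁ : ℝ) ≤ Real.log (w / |(ρ : ℝ)|) / Real.log 2 := by rw [hl₁]; exact Nat.floor_le (by positivity)
  have hl₁2 : Real.log (w / |(ρ : ℝ)|) / Real.log 2 < l₁ + 1 := by rw [hl₁]; exact Nat.lt_floor_add_one _
  have hpow₁ : |(ρ : ℝ)| * 2 ^ l₁ ≤ w := by
    rw [le_div_iff₀ hl2] at hl₁1
    have h1 : (2 : ℝ) ^ l₁ ≤ w / |(ρ : ℝ)| := by
      have h2 : (2 : ℝ) ^ l₁ = Real.exp ((l₁ : ℝ) * Real.log 2) := by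
        rw [Real.exp_nat_mul, Real.exp_log (by norm_num)]
      rw [h2, ← Real.exp_log (by linarith : 0 < w / |(ρ : ℝ)|)]
      exact Real.exp_le_exp.2 hl₁1
    rw [le_div_iff₀ (by linarith)] at h1
    linarith
  obtain ⟨N, hN⟩ : ∃ N : ℝ, N = cN (MixedH ρ F w) x := ⟨_, rfl⟩
  rw [← hN] at hone hwin ⊢
  have hcomb : ∀ l ≤ s, |(ρ : ℝ)| * 2 ^ l ≤ w → c₀ * x * (1 + l) / (32 * s) ≤ N := by
    intro l hl hlw
    have h1 := hwin l hl hlw
    have hln : (0 : ℝ) ≤ l := Nat.cast_nonneg l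
    have h2 : c₀ * x * (1 + l) / (32 * s) = (c₀ * x / (8 * s)) / 4 + (c₀ * x * l / (16 * s)) / 2 := by
      field_simp
      ring
    have h3 : 0 ≤ c₀ * x / (8 * s) := by positivity
    have h4 : 0 ≤ c₀ * x * l / (16 * s) := by positivity
    rw [h2]
    linarith
  have hmin1 : min 1 ((1 + Real.log w) / Real.sqrt L) ≤ 1 := min_le_left _ _
  have hmin2 : min 1 ((1 + Real.log w) / Real.sqrt L) ≤ (1 + Real.log w) / Real.sqrt L := min_le_right _ _
  have hwpos : 0 < w := by linarith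
  have hlogw : 0 ≤ Real.log w := Real.log_nonneg (by linarith)
  have hmin0 : 0 ≤ min 1 ((1 + Real.log w) / Real.sqrt L) := le_min zero_le_one (by positivity)
  by_cases hls : s ≤ l₁
  · -- a long window
    have h1 := hcomb s le_rfl (by
      refine le_trans (mul_le_mul_of_nonneg_left ?_ (by linarith)) hpow₁
      exact pow_le_pow_right₀ (by norm_num) hls)
    refine le_trans ?_ h1
    calc c * min 1 ((1 + Real.log w) / Real.sqrt L) * x ≤ c * 1 * x :=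
          mul_le_mul_of_nonneg_right (mul_le_mul_of_nonneg_left hmin1 hc0.le) hx0.le
      _ ≤ c₀ / 32 * 1 * x := mul_le_mul_of_nonneg_right (by linarith) hx0.le
      _ = c₀ * x * s / (32 * s) := by field_simp
      _ ≤ c₀ * x * (1 + s) / (32 * s) := by
          refine div_le_div_of_nonneg_right (mul_le_mul_of_nonneg_left (by linarith) (by positivity)) (by positivity)
  · push Not at hls
    have h1 := hcomb l₁ hls.le hpow₁
    refine le_trans ?_ h1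
    -- `1 + log w ≤ P (1 + l₁)`
    have h2 : 1 + Real.log w ≤ P * (1 + l₁) := by
      have h3 : Real.log (w / |(ρ : ℝ)|) = Real.log w - Real.log |(ρ : ℝ)| :=
        Real.log_div hwpos.ne' (by linarith)
      rw [div_lt_iff₀ hl2] at hl₁2
      have h4 : ((l₁ : ℝ) + 1) * Real.log 2 ≤ l₁ + 1 :=
        mul_le_of_le_one_right (by positivity) hl21
      have h5 : (0 : ℝ) ≤ l₁ := Nat.cast_nonneg _
      have h6 : 0 ≤ Real.log |(ρ : ℝ)| * l₁ := by positivity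
      rw [h3] at hl₁2
      rw [hP]
      nlinarith
    have h3 : (1 + Real.log w) / Real.sqrt L ≤ P * lam * (1 + l₁) / s := by
      rw [div_le_div_iff₀ hq0 hsr0]
      calc (1 + Real.log w) * s ≤ (P * (1 + l₁)) * (lam * Real.sqrt L) :=
            mul_le_mul h2 hsl hsr0.le (by positivity)
        _ = P * lam * (1 + l₁) * Real.sqrt L := by ring
    have h4 : c * (P * lam) ≤ c₀ / 32 := by
      rw [le_div_iff₀ (by positivity)] at hc2
      linarith
    calc c * min 1 ((1 + Real.log w) / Real.sqrt L) * x ≤ c * (P * lam * (1 + l₁) / s) * x :=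
          mul_le_mul_of_nonneg_right (mul_le_mul_of_nonneg_left (hmin2.trans h3) hc0.le) hx0.le
      _ = c * (P * lam) * ((1 + l₁) / s * x) := by ring
      _ ≤ c₀ / 32 * ((1 + l₁) / s * x) := mul_le_mul_of_nonneg_right h4 (by positivity)
      _ = c₀ * x * (1 + l₁) / (32 * s) := by field_simp

open Classical in
private theorem count_next53 {F : Set ℤ} (i : Bool) (Z : ℕ) {x : ℝ} (hx : (2 * Z : ℝ) + |(ρ : ℝ)| ≤ x)
    (hZ : |(ρ : ℝ)| < Z) : Bc ρ F i 0 1 0 0 Z ≤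
      cN {n : ℤ | Df ρ F n (if i then n + ρ else n - ρ)} x := by
  unfold Bc cN
  rw [sum_boole]
  have hρn : |(ρ : ℝ)| = ((|ρ| : ℤ) : ℝ) := by push_cast; rfl
  have hinj : Function.Injective (fun z : ℕ => (if i then (z : ℤ) else (z : ℤ) + ρ)) := by
    intro z z' h
    cases i <;> simpa using h
  have hmaps : (fun z : ℕ => (if i then (z : ℤ) else (z : ℤ) + ρ)) '' (((Ico Z (2 * Z)).filter (fun z : ℕ =>
      Dg ρ F i (3 ^ 0 * (z : ℤ) + 0) (3 ^ 0 * (3 ^ 0 * (z : ℤ) + 0) + ρ * 1)) : Finset ℕ) : Set ℕ) ⊆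
      {n : ℤ | n ∈ {n : ℤ | Df ρ F n (if i then n + ρ else n - ρ)} ∧ 0 < n ∧ (n : ℝ) ≤ x} := by
    rintro _ ⟨z, hz, rfl⟩
    rw [mem_coe, mem_filter, mem_Ico] at hz
    obtain ⟨⟨h1, h2⟩, h3⟩ := hz
    have h1' : (Z : ℝ) ≤ z := by exact_mod_cast h1
    have h2' : (z : ℝ) ≤ 2 * Z := by exact_mod_cast h2.le
    have ha := neg_abs_le (ρ : ℝ)
    have ha' := le_abs_self (ρ : ℝ)
    have h4 : Dg ρ F i (z : ℤ) ((z : ℤ) + ρ) := by simpa using h3
    cases i with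
    | true =>
      refine ⟨h4, ?_, ?_⟩
      · have : (0 : ℝ) < z := by
          have := abs_nonneg (ρ : ℝ)
          linarith
        simp only [if_true]
        exact_mod_cast this
      · simp only [if_true]
        push_cast
        have := abs_nonneg (ρ : ℝ)
        linarith
    | false =>
      refine ⟨?_, ?_, ?_⟩
      · simp only [Bool.false_eq_true, if_false, Set.mem_ofPred_eq, add_sub_cancel_right]
        exact h4
      · simp only [Bool.false_eq_true, if_false]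
        have : (0 : ℝ) < ((z + ρ : ℤ) : ℝ) := by
          push_cast
          linarith
        exact_mod_cast this
      · simp only [Bool.false_eq_true, if_false]
        push_cast
        linarith
  have hfin : {n : ℤ | n ∈ {n : ℤ | Df ρ F n (if i then n + ρ else n - ρ)} ∧ 0 < n ∧ (n : ℝ) ≤ x}.Finite := by
    refine (Set.finite_Icc (1 : ℤ) ⌊x⌋).subset ?_
    rintro n ⟨-, h1, h2⟩
    exact ⟨h1, Int.le_floor.2 h2⟩
  have h1 := Set.ncard_le_ncard hmaps hfin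
  rw [Set.ncard_image_of_injective _ hinj, Set.ncard_coe_finset] at h1
  exact_mod_cast h1

/-- The pairs `(n, n + ρ)` and `(n, n - ρ)`. -/
theorem lower_next (hρ : Odd ρ) {F : Set ℤ} {B : ℝ} (hB : 0 ≤ B) (hF : ∀ a ∈ F, (a : ℝ) ≤ B)
    (hD : 0 < PL.dens (hitI 2 3 (fun _ => ρ) F)) (i : Bool) : ∃ c X : ℝ, 0 < c ∧ ∀ x : ℝ, X ≤ x →
      c * (x / Real.sqrt (Real.log x)) ≤ cN {n : ℤ | Df ρ F n (if i then n + ρ else n - ρ)} x := by
  obtain ⟨K₀, s₀, hK₀, hs₀, hreach⟩ := reach 2 (by norm_num)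
  obtain ⟨lam, c₀, L₀, hlam, hc₀, hsc⟩ := scale53 hρ hB hF hD K₀ s₀ hK₀
  have hρ0 : (0 : ℝ) ≤ |(ρ : ℝ)| := abs_nonneg _
  refine ⟨c₀ / (16 * lam), 2 * |(ρ : ℝ)| + Real.exp (L₀ + 1) + Real.exp 4, by positivity, fun x hx => ?_⟩
  obtain ⟨y, hy⟩ : ∃ y : ℝ, y = x - |(ρ : ℝ)| := ⟨_, rfl⟩
  have he1 := Real.exp_pos (L₀ + 1)
  have he2 := Real.exp_pos 4
  have hyx : x / 2 ≤ y := by rw [hy]; linarith
  have hy0 : 0 < y := by rw [hy]; linarith
  have hx0 : 0 < x := by linarith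
  have hLy : L₀ ≤ Real.log y := by
    rw [Real.le_log_iff_exp_le hy0, hy]
    have : Real.exp L₀ ≤ Real.exp (L₀ + 1) := Real.exp_le_exp.2 (by linarith)
    linarith
  obtain ⟨s, hs0, hs1, hsl, hmain⟩ := hsc y hy0 hLy
  obtain ⟨k, hk⟩ : ∃ k : ℕ, k = K₀ * s ^ 2 + 1 := ⟨_, rfl⟩
  rw [← hk] at hmain
  have hsr : (1 : ℝ) ≤ s := by exact_mod_cast hs1
  obtain ⟨Z, hZ1, hZ2, hZ3, hZ4⟩ := hmain 0 (Nat.zero_le _)
  rw [pow_zero, one_mul] at hZ2 hZ3
  have h1 := hZ4 i 0 1 (Nat.zero_le _) (by norm_num)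
  have h2 := count_next53 (ρ := ρ) (F := F) i (2 ^ k * Z) (x := x) (by rw [hy] at hZ3; linarith) (by linarith)
  have h3 : 1 / (2 * (s : ℝ)) ≤ rr s k (0, 1) := by
    rw [hk, rr_in (x := ((0, 1) : ℕ × ℤ)) (by simp only; omega), av]
    have e0 : nx0 (0, 1) = (1, 1) := by
      rw [nx0_odd (by decide)]
      rfl
    have e1 : nx1 (0, 1) = (1, -2) := by
      rw [nx1_odd_zero (by decide)]
      rfl
    have r0 := hreach s (1, 1) hs0 le_rfl hs1 (qq_two53 (by norm_num))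
    have r1 := hreach s (1, -2) hs0 le_rfl hs1 (qq_two53 (by norm_num))
    rw [e0, e1]
    simp only [Nat.cast_one] at r0 r1
    linarith
  have hLx1 : 1 ≤ Real.log x := by
    rw [Real.le_log_iff_exp_le hx0]
    have : Real.exp 1 ≤ Real.exp 4 := Real.exp_le_exp.2 (by norm_num)
    linarith
  have hq0 : 0 < Real.sqrt (Real.log x) := Real.sqrt_pos.2 (by linarith)
  have hyx2 : Real.sqrt (Real.log y) ≤ Real.sqrt (Real.log x) :=
    Real.sqrt_le_sqrt (Real.log_le_log hy0 (by rw [hy]; linarith))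
  have hs2 : (s : ℝ) ≤ lam * Real.sqrt (Real.log x) := hsl.trans (mul_le_mul_of_nonneg_left hyx2 hlam.le)
  have hsr0 : (0 : ℝ) < s := by linarith
  calc c₀ / (16 * lam) * (x / Real.sqrt (Real.log x)) =
        c₀ * (x / 2 / 4) * (1 / (2 * (lam * Real.sqrt (Real.log x)))) := by field_simp; norm_num
    _ ≤ c₀ * ((2 ^ k * Z : ℕ) : ℝ) * rr s k (0, 1) := by
        refine mul_le_mul (mul_le_mul_of_nonneg_left ?_ hc₀.le) ?_ (by positivity) (by positivity)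
        · linarith
        · refine le_trans ?_ h3
          rw [div_le_div_iff₀ (by positivity) (by positivity)]
          linarith
    _ ≤ _ := h1.trans h2

end Pool.Agent.Helper8.RU
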