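import Pool.Agent.Helper8.RU.R12

/-!
# RU-R14: the upper bound for all `w`, and the windows of length `exp (λ √(log x))`

* `upper`: the number of the `n ≤ x` which have a neighbour at distance `≤ w` with another first time is `≤ C x min (1, (1 + log w) / √(log x))`.
* `tight`: for every `ε` there is a `λ` such that all but `ε x` of the `n ≤ x` with a first time have a neighbour at distance `≤ exp (λ √(log x))` with another first
  time. Proof: let `2 ^ i ≈ exp (λ √(log x) / 2)`, `k = 2 ^ i z` the next multiple of `2 ^ i` (in the class of `n` modulo `ρ`). If the first times of `n` and `k`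
  are equal then the first time of `z` is smaller by `i`. But `log z = log n - i log 2`, and the first times of almost all integers `z` are `log z / γ + O(√(log z))`
  (`clt`), `log 2 / γ > 1`.
-/

set_option autoImplicit false

namespace Pool.Agent.Helper8.RU

open Pool.Agent.Helper68.Moeller Pool.Agent.Helper8.ND Pool.Agent.Helper8.CO Pool.Agent.Helper28 Pool.Agent.Helper8.ST
  Pool.Agent.Helper85.ST Pool.Agent.Helper91 ProbabilityTheory Filter Topology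

variable {ρ : ℤ}

private theorem finite54 (A : Set ℤ) (x : ℝ) : {n : ℤ | n ∈ A ∧ 0 < n ∧ (n : ℝ) ≤ x}.Finite := by
  refine (Set.finite_Icc (1 : ℤ) ⌊x⌋).subset ?_
  rintro n ⟨-, h1, h2⟩
  exact ⟨h1, Int.le_floor.2 h2⟩

private theorem cN_le54 (A : Set ℤ) {x : ℝ} (hx : 0 ≤ x) : cN A x ≤ x := by
  unfold cN
  have hsub : {n : ℤ | n ∈ A ∧ 0 < n ∧ (n : ℝ) ≤ x} ⊆ ((Finset.Icc (1 : ℤ) ⌊x⌋ : Finset ℤ) : Set ℤ) := by
    rintro n ⟨-, h1, h2⟩
    rw [Finset.mem_coe, Finset.mem_Icc]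
    exact ⟨by omega, Int.le_floor.2 h2⟩
  have h1 := Set.ncard_le_ncard hsub (Finset.finite_toSet _)
  rw [Set.ncard_coe_finset, Int.card_Icc, add_sub_cancel_right] at h1
  have h2 : 0 ≤ ⌊x⌋ := Int.floor_nonneg.2 hx
  have h3 : ((⌊x⌋.toNat : ℕ) : ℝ) = ((⌊x⌋ : ℤ) : ℝ) := by exact_mod_cast Int.toNat_of_nonneg h2
  have h4 : (({n : ℤ | n ∈ A ∧ 0 < n ∧ (n : ℝ) ≤ x}.ncard : ℕ) : ℝ) ≤ ((⌊x⌋.toNat : ℕ) : ℝ) := by exact_mod_cast h1
  rw [h3] at h4
  exact h4.trans (Int.floor_le x)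

/-- **The upper bound.** -/
theorem upper (hρ : Odd ρ) {F : Set ℤ} {B : ℝ} (hB : 0 ≤ B) (hF : ∀ a ∈ F, (a : ℝ) ≤ B) :
    ∃ C X : ℝ, 0 < C ∧ ∀ x w : ℝ, X ≤ x → 1 ≤ w →
      cN (Mixed ρ F w) x ≤ C * min 1 ((1 + Real.log w) / Real.sqrt (Real.log x)) * x := by
  obtain ⟨C, X, hC, h⟩ := heights_sharp hρ hB hF
  refine ⟨C + 3200, max X (Real.exp 1), by positivity, fun x w hx hw => ?_⟩
  have hx0 : 0 < x := (Real.exp_pos _).trans_le ((le_max_right _ _).trans hx)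
  have hL1 : 1 ≤ Real.log x := (Real.le_log_iff_exp_le hx0).2 ((le_max_right _ _).trans hx)
  have hlw : 0 ≤ Real.log w := Real.log_nonneg hw
  have hs0 : 0 < Real.sqrt (Real.log x) := Real.sqrt_pos.2 (by linarith)
  have hs1 : 1 ≤ Real.sqrt (Real.log x) := by
    rw [← Real.sqrt_one]
    exact Real.sqrt_le_sqrt hL1
  have hss : Real.sqrt (Real.log x) * Real.sqrt (Real.log x) = Real.log x := Real.mul_self_sqrt (by linarith)
  have htriv := cN_le54 (Mixed ρ F w) hx0.le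
  have hq0 : 0 ≤ (1 + Real.log w) / Real.sqrt (Real.log x) := by positivity
  rcases le_total 1 ((1 + Real.log w) / Real.sqrt (Real.log x)) with h1 | h1
  · rw [min_eq_left h1, mul_one]
    nlinarith
  · rw [min_eq_right h1]
    by_cases h2 : 3200 * Real.log w ≤ Real.log x
    · have h3 := h x w ((le_max_left _ _).trans hx) hw h2
      have h4 : C * (1 + Real.log w) / Real.sqrt (Real.log x) * x =
          C * ((1 + Real.log w) / Real.sqrt (Real.log x)) * x := by ring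
      rw [h4] at h3
      refine h3.trans (mul_le_mul_of_nonneg_right (mul_le_mul_of_nonneg_right (by linarith) hq0) hx0.le)
    · push Not at h2
      have h3 : 1 ≤ 3200 * ((1 + Real.log w) / Real.sqrt (Real.log x)) := by
        rw [← mul_div_assoc, le_div_iff₀ hs0]
        nlinarith
      have h4 : 0 ≤ C * ((1 + Real.log w) / Real.sqrt (Real.log x)) := by positivity
      calc cN (Mixed ρ F w) x ≤ 1 * x := by linarith
        _ ≤ (C + 3200) * ((1 + Real.log w) / Real.sqrt (Real.log x)) * x :=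
            mul_le_mul_of_nonneg_right (by linarith) hx0.le

/-- The next multiple of `2 ^ i`. -/
private theorem next54 (hρ : Odd ρ) (i : ℕ) (n : ℤ) : ∃ (e : ℕ) (z : ℤ), e < 2 ^ i ∧ n + |ρ| * e = 2 ^ i * z := by
  obtain ⟨a, ha⟩ : Odd |ρ| := by
    rw [← Int.not_even_iff_odd, even_abs, Int.not_even_iff_odd]
    exact hρ
  have hco : IsCoprime ((2 : ℤ) ^ i) |ρ| := by
    apply IsCoprime.pow_left
    exact ⟨-a, 1, by rw [ha]; ring⟩
  obtain ⟨u, v, huv⟩ := hco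
  have h2 : (0 : ℤ) < 2 ^ i := by positivity
  obtain ⟨e, he⟩ := Int.eq_ofNat_of_zero_le (Int.emod_nonneg (-(n * v)) h2.ne')
  have hlt := Int.emod_lt_of_pos (-(n * v)) h2
  rw [he] at hlt
  have hd := Int.emod_add_mul_ediv (-(n * v)) (2 ^ i)
  rw [he] at hd
  refine ⟨e, n * u - |ρ| * (-(n * v) / 2 ^ i), by exact_mod_cast hlt, ?_⟩
  have h3 : (e : ℤ) = -(n * v) - 2 ^ i * (-(n * v) / 2 ^ i) := by
    have : ((Int.ofNat e : ℤ)) = (e : ℤ) := rfl
    rw [← this]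
    linarith
  rw [h3]
  linear_combination (-n) * huv

theorem first_pow (F : Set ℤ) {i : ℕ} {z : ℤ} (hz : ∀ j < i, (2 : ℤ) ^ (i - j) * z ∉ F) (t : ℕ)
    (h : First ρ F t (2 ^ i * z)) : i ≤ t ∧ First ρ F (t - i) z := by
  have hit : ∀ j ≤ i, (T 2 3 (fun _ => ρ))^[j] (2 ^ i * z) = 2 ^ (i - j) * z := by
    intro j
    induction j with
    | zero => intro _; rw [Function.iterate_zero, id_eq, Nat.sub_zero]
    | succ j ih =>
      intro hj
      rw [Function.iterate_succ', Function.comp_apply, ih (by omega)]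
      have h1 : (2 : ℤ) ^ (i - j) * z = 2 * (2 ^ (i - (j + 1)) * z) := by
        rw [← mul_assoc, ← pow_succ']
        congr 2
        omega
      have h2 := two_T_even (ρ := ρ) (x := 2 ^ (i - j) * z) (by rw [h1]; exact even_two_mul _)
      rw [h1] at h2 ⊢
      linarith
  obtain ⟨h1, h2⟩ := h
  have hle : i ≤ t := by
    by_contra hcon
    push Not at hcon
    rw [hit t hcon.le] at h1
    exact hz t hcon h1
  have hi : (T 2 3 (fun _ => ρ))^[i] (2 ^ i * z) = z := by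
    rw [hit i le_rfl, Nat.sub_self, pow_zero, one_mul]
  refine ⟨hle, ?_, fun j hj => ?_⟩
  · have e : (T 2 3 (fun _ => ρ))^[t] (2 ^ i * z) = (T 2 3 (fun _ => ρ))^[t - i] z := by
      conv_lhs => rw [show t = (t - i) + i by omega, Function.iterate_add_apply, hi]
    rwa [e] at h1
  · have h3 := h2 (j + i) (by omega)
    rwa [Function.iterate_add_apply, hi] at h3

private theorem gam54 : PL.gam 2 3 ≤ 1 / 4 ∧ 0 < PL.gam 2 3 ∧ 1 / 2 ≤ Real.log 2 - PL.gam 2 3 := by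
  have e : PL.gam 2 3 = Real.log 2 - Real.log 3 / 2 := by
    unfold PL.gam
    push_cast
    ring
  have e2 : PL.gam 2 3 = Real.log (4 / 3) / 2 := by
    rw [e, Real.log_div (by norm_num) (by norm_num), show (4 : ℝ) = 2 ^ 2 by norm_num, Real.log_pow]
    push_cast
    ring
  have h1 : Real.log (4 / 3) ≤ 1 / 3 := by
    have := Real.log_le_sub_one_of_pos (by norm_num : (0 : ℝ) < 4 / 3)
    linarith
  have h2 : 0 < Real.log (4 / 3) := Real.log_pos (by norm_num)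
  have h3 : 1 ≤ Real.log 3 := by
    rw [← Real.log_exp 1]
    apply Real.log_le_log (Real.exp_pos 1)
    have := Real.exp_one_lt_d9
    linarith
  refine ⟨by rw [e2]; linarith, by rw [e2]; linarith, by rw [e]; linarith⟩

/-- **Almost all integers have a neighbour with another first time at distance `exp (λ √(log x))`.** -/
theorem tight (hρ : Odd ρ) {F : Set ℤ} {B : ℝ} (hB : 0 ≤ B) (hF : ∀ a ∈ F, (a : ℝ) ≤ B) {ε : ℝ} (hε : 0 < ε) :
    ∃ lam X : ℝ, 0 < lam ∧ ∀ x : ℝ, X ≤ x →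
      cN (hitI 2 3 (fun _ => ρ) F \ MixedH ρ F (Real.exp (lam * Real.sqrt (Real.log x)))) x ≤ ε * x := by
  have hstd := std_odd hρ
  obtain ⟨hγ1, hγ0, hγ2⟩ := gam54
  obtain ⟨γ, hγ⟩ : ∃ γ, γ = PL.gam 2 3 := ⟨_, rfl⟩
  rw [← hγ] at hγ0 hγ1 hγ2
  obtain ⟨S, hS⟩ : ∃ S, S = sd 2 3 := ⟨_, rfl⟩
  have hS0 : 0 ≤ S := by
    rw [hS]
    unfold sd
    have h1 : 0 ≤ Real.log ((3 : ℕ) : ℝ) := Real.log_natCast_nonneg 3
    have h2 := hstd.gam
    positivity
  obtain ⟨I, hI⟩ : ∃ I, I = hitI 2 3 (fun _ => ρ) F := ⟨_, rfl⟩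
  obtain ⟨D, hD⟩ : ∃ D, D = PL.dens I := ⟨_, rfl⟩
  have htendI : Tendsto (fun x : ℝ => fd I x) atTop (𝓝 D) := by
    rw [hD, hI]
    exact PL.stab_tendsto hstd.hd hstd.hdm hstd.hco hstd.hr hstd.gam hstd.mix (tinv_hitI hF)
  have hD0 : 0 ≤ D := by
    refine ge_of_tendsto htendI ?_
    filter_upwards [eventually_ge_atTop 0] with x hx
    exact fd_nonneg _ hx
  have hD2 : D ≤ 2 := by
    refine le_of_tendsto htendI ?_
    filter_upwards [eventually_ge_atTop 1] with x hx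
    exact fd_le_two _ hx
  have hdI := PL.hasDensity_of_fd htendI
  obtain ⟨ε₁, hε₁d⟩ : ∃ ε₁, ε₁ = min (ε / 8) (1 / 2) := ⟨_, rfl⟩
  have hε₁ : 0 < ε₁ := by rw [hε₁d]; exact lt_min (by positivity) (by norm_num)
  have hε₁8 : ε₁ ≤ ε / 8 := by rw [hε₁d]; exact min_le_left _ _
  -- the number `K`
  obtain ⟨K, hK0, hK1, hK2⟩ : ∃ K : ℝ, 0 ≤ K ∧ cdf (gaussianReal 0 1) (-K) < ε₁ / 4 ∧
      1 - cdf (gaussianReal 0 1) K < ε₁ / 4 := by
    have h1 := (tendsto_cdf_atBot (gaussianReal 0 1)).comp tendsto_neg_atTop_atBot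
    have h2 := (tendsto_cdf_atTop (gaussianReal 0 1)).const_sub 1
    rw [sub_self] at h2
    have h3 := (h1.eventually (gt_mem_nhds (by positivity : (0 : ℝ) < ε₁ / 4))).and
      (h2.eventually (gt_mem_nhds (by positivity : (0 : ℝ) < ε₁ / 4)))
    obtain ⟨K, ⟨h4, h5⟩, h6⟩ := (h3.and (eventually_ge_atTop 0)).exists
    exact ⟨K, h6, h4, h5⟩
  -- the early integers
  obtain ⟨E₁, hE₁⟩ : ∃ E₁, E₁ = early 2 3 (fun _ => ρ) F (-K) := ⟨_, rfl⟩
  obtain ⟨E, hE⟩ : ∃ E, E = early 2 3 (fun _ => ρ) F K := ⟨_, rfl⟩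
  have hsub : E ⊆ I := by
    rw [hE, hI]
    rintro n ⟨t, h1, -⟩
    exact ⟨t, h1⟩
  have hd1 := PL.hasDensity_of_fd (clt hstd hB hF (-K))
  have hd2 := PL.hasDensity_of_fd (clt hstd hB hF K)
  rw [← hE₁, ← hI, ← hD] at hd1
  rw [← hE, ← hI, ← hD] at hd2
  have hev1 : ∀ᶠ x : ℝ in atTop, cN E₁ x ≤ ε₁ * x := by
    have h1 : D * cdf (gaussianReal 0 1) (-K) < ε₁ := by
      have h2 := cdf_nonneg (gaussianReal 0 1) (-K)
      nlinarith
    filter_upwards [hd1.eventually (gt_mem_nhds h1), eventually_gt_atTop 0] with x hx hx0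
    rw [div_lt_iff₀ hx0] at hx
    exact hx.le
  have hev2 : ∀ᶠ x : ℝ in atTop, cN (I \ E) x ≤ ε₁ * x := by
    have h1 := hdI.sub hd2
    have h2 : D - D * cdf (gaussianReal 0 1) K < ε₁ := by
      have h3 : D - D * cdf (gaussianReal 0 1) K = D * (1 - cdf (gaussianReal 0 1) K) := by ring
      have h4 : 0 ≤ 1 - cdf (gaussianReal 0 1) K := by linarith [cdf_le_one (gaussianReal 0 1) K]
      rw [h3]
      nlinarith
    filter_upwards [h1.eventually (gt_mem_nhds h2), eventually_gt_atTop 0] with x hx hx0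
    have h3 : cN I x = cN (I \ E) x + cN E x := by
      rw [← POSB.cN_union Set.disjoint_sdiff_left, Set.sdiff_union_of_subset hsub]
    rw [h3, ← sub_div, div_lt_iff₀ hx0] at hx
    linarith
  obtain ⟨X₁, hX₁⟩ := eventually_atTop.1 hev1
  obtain ⟨X₂, hX₂⟩ := eventually_atTop.1 hev2
  have hρ0 : (0 : ℝ) ≤ |(ρ : ℝ)| := abs_nonneg _
  obtain ⟨Λ, hΛ⟩ : ∃ Λ : ℝ, Λ = K * S + 1 := ⟨_, rfl⟩
  have hKS : 0 ≤ K * S := by positivity
  have hΛ1 : 1 ≤ Λ := by rw [hΛ]; linarith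
  obtain ⟨G, hG⟩ : ∃ G : ℝ, G = (B + |(ρ : ℝ)| + 1) / ε₁ + |X₂| + 1 := ⟨_, rfl⟩
  have hG1 : 1 ≤ G := by
    rw [hG]
    have : 0 ≤ (B + |(ρ : ℝ)| + 1) / ε₁ := by positivity
    have := abs_nonneg X₂
    linarith
  have hlG : 0 ≤ Real.log G := Real.log_nonneg hG1
  -- the threshold
  have hev : ∀ᶠ L : ℝ in atTop, 2 ≤ Real.sqrt L ∧ 2 + Real.log G + 2 * Λ * Real.sqrt L ≤ L := by
    have hsq : Tendsto (fun L : ℝ => Real.sqrt L) atTop atTop := Real.tendsto_sqrt_atTop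
    filter_upwards [hsq.eventually_ge_atTop (max 2 (2 + Real.log G + 2 * Λ)), eventually_ge_atTop 0] with L hL hL0
    have h1 : 2 ≤ Real.sqrt L := (le_max_left _ _).trans hL
    have h2 : 2 + Real.log G + 2 * Λ ≤ Real.sqrt L := (le_max_right _ _).trans hL
    refine ⟨h1, ?_⟩
    have h3 : Real.sqrt L * Real.sqrt L = L := Real.mul_self_sqrt hL0
    nlinarith
  obtain ⟨L₀, hL₀⟩ := eventually_atTop.1 hev
  obtain ⟨lam, hlam⟩ : ∃ lam : ℝ, lam = Λ + 1 + |(ρ : ℝ)| := ⟨_, rfl⟩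
  refine ⟨lam, max X₁ (Real.exp (max L₀ 0)), by rw [hlam]; linarith, fun x hx => ?_⟩
  have hxX₁ : X₁ ≤ x := (le_max_left _ _).trans hx
  have hx0 : 0 < x := (Real.exp_pos _).trans_le ((le_max_right _ _).trans hx)
  have hLx := (Real.le_log_iff_exp_le hx0).2 ((le_max_right _ _).trans hx)
  obtain ⟨L, hL⟩ : ∃ L, L = Real.log x := ⟨_, rfl⟩
  rw [← hL] at hLx ⊢
  obtain ⟨hq2, hqL⟩ := hL₀ L ((le_max_left _ _).trans hLx)
  have hL0 : 0 ≤ L := (le_max_right _ _).trans hLx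
  have hxe : x = Real.exp L := by rw [hL, Real.exp_log hx0]
  have hq0 : 0 ≤ Real.sqrt L := Real.sqrt_nonneg L
  obtain ⟨i, hi⟩ : ∃ i : ℕ, i = ⌈Λ * Real.sqrt L⌉₊ := ⟨_, rfl⟩
  have hi1 : Λ * Real.sqrt L ≤ i := by rw [hi]; exact Nat.le_ceil _
  have hi2 : (i : ℝ) < Λ * Real.sqrt L + 1 := by
    rw [hi]
    exact Nat.ceil_lt_add_one (by positivity)
  have hl2 : 0 < Real.log 2 := Real.log_pos (by norm_num)
  have hl21 : Real.log 2 ≤ 1 := by linarith [Real.log_two_lt_d9]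
  have h2i : (2 : ℝ) ^ i = Real.exp (i * Real.log 2) := by rw [Real.exp_nat_mul, Real.exp_log (by norm_num)]
  have h2i0 : (0 : ℝ) < 2 ^ i := by positivity
  -- `2 ^ i G ≤ x`
  have h2iG : 2 ^ i * G ≤ x := by
    rw [h2i, ← Real.exp_log (by linarith : 0 < G), ← Real.exp_add, hxe]
    apply Real.exp_le_exp.2
    have h1 : (i : ℝ) * Real.log 2 ≤ i * 1 := mul_le_mul_of_nonneg_left hl21 (Nat.cast_nonneg i)
    nlinarith
  have hw : |(ρ : ℝ)| * 2 ^ i ≤ Real.exp (lam * Real.sqrt L) := by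
    have h1 : |(ρ : ℝ)| ≤ Real.exp |(ρ : ℝ)| := by
      have := Real.add_one_le_exp |(ρ : ℝ)|
      linarith
    calc |(ρ : ℝ)| * 2 ^ i ≤ Real.exp |(ρ : ℝ)| * Real.exp (i * Real.log 2) := by
          rw [← h2i]
          exact mul_le_mul_of_nonneg_right h1 h2i0.le
      _ = Real.exp (|(ρ : ℝ)| + i * Real.log 2) := by rw [Real.exp_add]
      _ ≤ Real.exp (lam * Real.sqrt L) := by
          apply Real.exp_le_exp.2
          have h2 : (i : ℝ) * Real.log 2 ≤ i * 1 := mul_le_mul_of_nonneg_left hl21 (Nat.cast_nonneg i)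
          rw [hlam]
          nlinarith
  obtain ⟨w, hwd⟩ : ∃ w, w = Real.exp (lam * Real.sqrt L) := ⟨_, rfl⟩
  rw [← hwd] at hw ⊢
  rw [← hI]
  have hGi : G ≤ x / 2 ^ i := by rw [le_div_iff₀ h2i0]; linarith
  have hX₂G : X₂ ≤ 2 * x / 2 ^ i := by
    have h1 : X₂ ≤ G := by
      rw [hG]
      have : 0 ≤ (B + |(ρ : ℝ)| + 1) / ε₁ := by positivity
      have := le_abs_self X₂
      linarith
    have h2 : 2 * x / 2 ^ i = 2 * (x / 2 ^ i) := by ring
    rw [h2]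
    linarith
  have hcE := hX₂ _ hX₂G
  have hcE1 := hX₁ x hxX₁
  have hBG : B + |(ρ : ℝ)| + 1 ≤ ε₁ * (x / 2 ^ i) := by
    have h1 : (B + |(ρ : ℝ)| + 1) / ε₁ ≤ G := by
      rw [hG]
      have := abs_nonneg X₂
      linarith
    rw [div_le_iff₀ hε₁] at h1
    have := mul_le_mul_of_nonneg_left hGi hε₁.le
    linarith
  -- the covering
  obtain ⟨Q, hQ⟩ : ∃ Q : Set ℤ, Q = {z : ℤ | z ∈ I \ E ∧ 0 < z ∧ (z : ℝ) ≤ 2 * x / 2 ^ i} := ⟨_, rfl⟩
  have hQf : Q.Finite := by rw [hQ]; exact finite54 _ _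
  have hsubset : {n : ℤ | n ∈ I \ MixedH ρ F w ∧ 0 < n ∧ (n : ℝ) ≤ x} ⊆
      (((Finset.Icc (1 : ℤ) ⌊ε₁ * x⌋ : Finset ℤ) : Set ℤ) ∪ {n : ℤ | n ∈ E₁ ∧ 0 < n ∧ (n : ℝ) ≤ x}) ∪
        ⋃ e ∈ Finset.range (2 ^ i), (fun z : ℤ => 2 ^ i * z - |ρ| * (e : ℤ)) '' Q := by
    rintro n ⟨⟨hnI, hnM⟩, hn0, hnx⟩
    by_cases hsmall : (n : ℝ) ≤ ε₁ * x
    · left; left
      rw [Finset.mem_coe, Finset.mem_Icc]
      exact ⟨by omega, Int.le_floor.2 hsmall⟩
    by_cases hn1 : n ∈ E₁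
    · left; right
      exact ⟨hn1, hn0, hnx⟩
    right
    push Not at hsmall
    obtain ⟨e, z, he, hz⟩ := next54 hρ i n
    rw [Set.mem_iUnion₂]
    refine ⟨e, Finset.mem_range.2 he, z, ?_, by simp only; linarith⟩
    have hnr0 : (0 : ℝ) < n := by exact_mod_cast hn0
    have her : (e : ℝ) ≤ 2 ^ i := by exact_mod_cast he.le
    have he0 : (0 : ℝ) ≤ e := Nat.cast_nonneg e
    have hzr : (n : ℝ) + |(ρ : ℝ)| * e = 2 ^ i * z := by exact_mod_cast hz
    have hz1 : (n : ℝ) / 2 ^ i ≤ z := by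
      rw [div_le_iff₀ h2i0]
      have : 0 ≤ |(ρ : ℝ)| * e := by positivity
      linarith
    have hn2 : ε₁ * (x / 2 ^ i) < n / 2 ^ i := by
      rw [← mul_div_assoc]
      exact div_lt_div_of_pos_right hsmall h2i0
    have hz2 : (z : ℝ) ≤ n / 2 ^ i + |(ρ : ℝ)| := by
      have h1 : (z : ℝ) = n / 2 ^ i + |(ρ : ℝ)| * (e / 2 ^ i) := by
        field_simp
        linarith
      rw [h1]
      have h2 : (e : ℝ) / 2 ^ i ≤ 1 := by rw [div_le_one h2i0]; exact her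
      have := mul_le_mul_of_nonneg_left h2 hρ0
      linarith
    have hz3 : (z : ℝ) ≤ 2 * (n / 2 ^ i) := by linarith
    have hzB : B + 1 ≤ (z : ℝ) := by linarith
    have hz0 : (0 : ℝ) < z := by linarith
    -- the first times
    have hnotM : ∀ t : ℕ, First ρ F t (n + |ρ| * (e : ℤ)) ↔ First ρ F t n := by
      by_contra hcon
      push Not at hcon
      obtain ⟨t, ht⟩ := hcon
      apply hnM
      rw [hI] at hnI
      obtain ⟨t₀, ht₀⟩ := hnI
      have hfirst : ∃ t, First ρ F t n := by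
        classical
        have hex : ∃ t : ℕ, (T 2 3 (fun _ => ρ))^[t] n ∈ F := ⟨t₀, ht₀⟩
        exact ⟨Nat.find hex, Nat.find_spec hex, fun i hi => Nat.find_min hex hi⟩
      refine ⟨hfirst, |ρ| * (e : ℤ), ((dvd_abs ρ ρ).2 dvd_rfl).mul_right _, ?_, t, ?_⟩
      · push_cast
        rw [abs_mul, abs_abs, abs_of_nonneg he0]
        exact (mul_le_mul_of_nonneg_left her hρ0).trans hw
      · tauto
    rw [hz] at hnotM
    have hfirst : ∃ t, First ρ F t n := by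
      rw [hI] at hnI
      obtain ⟨t₀, ht₀⟩ := hnI
      classical
      have hex : ∃ t : ℕ, (T 2 3 (fun _ => ρ))^[t] n ∈ F := ⟨t₀, ht₀⟩
      exact ⟨Nat.find hex, Nat.find_spec hex, fun i hi => Nat.find_min hex hi⟩
    obtain ⟨t, ht⟩ := hfirst
    have htk := (hnotM t).2 ht
    have hnotF : ∀ j < i, (2 : ℤ) ^ (i - j) * z ∉ F := by
      intro j _ hmem
      have h1 := hF _ hmem
      push_cast at h1
      have h2 : (1 : ℝ) ≤ 2 ^ (i - j) := one_le_pow₀ (by norm_num)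
      nlinarith
    obtain ⟨hit, hfz⟩ := first_pow F hnotF t htk
    have htn : Real.log n / γ - K * S * Real.sqrt (Real.log n) < t := by
      by_contra hcon
      push Not at hcon
      apply hn1
      rw [hE₁]
      refine ⟨t, ht.1, ?_⟩
      rw [← hγ, ← hS]
      linarith
    rw [hQ]
    refine ⟨⟨?_, fun hzE => ?_⟩, by exact_mod_cast hz0, ?_⟩
    · rw [hI]
      exact ⟨t - i, hfz.1⟩
    · -- the contradiction
      rw [hE] at hzE
      obtain ⟨t', ht'1, ht'2⟩ := hzE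
      rw [← hγ, ← hS] at ht'2
      have h1 : t - i ≤ t' := by
        by_contra hcon
        exact hfz.2 t' (not_le.1 hcon) ht'1
      have h2 : (t : ℝ) ≤ i + t' := by exact_mod_cast (by omega : t ≤ i + t')
      have hln0 : 0 ≤ Real.log n := by
        apply Real.log_nonneg
        exact_mod_cast hn0
      have hlnL : Real.log n ≤ L := by rw [hL]; exact Real.log_le_log hnr0 hnx
      have hlz : Real.log z ≤ Real.log n - i * Real.log 2 + Real.log 2 := by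
        have h3 := Real.log_le_log hz0 hz3
        rw [Real.log_mul (by norm_num) (by positivity), Real.log_div hnr0.ne' h2i0.ne', Real.log_pow] at h3
        linarith
      have hi1' : (1 : ℝ) ≤ i := by
        have : 2 ≤ Λ * Real.sqrt L := by nlinarith
        linarith
      have hlz2 : Real.log z ≤ Real.log n := by nlinarith
      have hsz : Real.sqrt (Real.log z) ≤ Real.sqrt L := Real.sqrt_le_sqrt (hlz2.trans hlnL)
      have hsn : Real.sqrt (Real.log n) ≤ Real.sqrt L := Real.sqrt_le_sqrt hlnL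
      have h3 : Real.log n / γ < i + Real.log z / γ + 2 * (K * S * Real.sqrt L) := by
        have h4 := mul_le_mul_of_nonneg_left hsz hKS
        have h5 := mul_le_mul_of_nonneg_left hsn hKS
        linarith
      have h4 : Real.log n < i * γ + Real.log z + 2 * (K * S * Real.sqrt L) * γ := by
        have h5 := mul_lt_mul_of_pos_right h3 hγ0
        have h6 : Real.log n / γ * γ = Real.log n := by field_simp
        have h7 : (i + Real.log z / γ + 2 * (K * S * Real.sqrt L)) * γ =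
            i * γ + Real.log z + 2 * (K * S * Real.sqrt L) * γ := by field_simp
        linarith
      have h5 : (i : ℝ) * (Real.log 2 - γ) < 2 * (K * S * Real.sqrt L) * γ + Real.log 2 := by linarith
      have h6 : (i : ℝ) * (1 / 2) ≤ i * (Real.log 2 - γ) := mul_le_mul_of_nonneg_left hγ2 (by linarith)
      have h7 : 2 * (K * S * Real.sqrt L) * γ ≤ 2 * (K * S * Real.sqrt L) * (1 / 4) :=
        mul_le_mul_of_nonneg_left hγ1 (by positivity)
      have h8 : Λ * Real.sqrt L = K * S * Real.sqrt L + Real.sqrt L := by rw [hΛ]; ring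
      have h9 : 0 ≤ K * S * Real.sqrt L := by positivity
      linarith
    · refine hz3.trans ?_
      have h1 : 2 * x / 2 ^ i = 2 * (x / 2 ^ i) := by ring
      rw [h1]
      have := div_le_div_of_nonneg_right hnx h2i0.le
      linarith
  -- the count
  have hfE1 := finite54 E₁ x
  have hfU : (⋃ e ∈ Finset.range (2 ^ i), (fun z : ℤ => 2 ^ i * z - |ρ| * (e : ℤ)) '' Q).Finite :=
    Set.Finite.biUnion (Finset.finite_toSet _) (fun e _ => hQf.image _)
  have h1 := Set.ncard_le_ncard hsubset (((Finset.finite_toSet _).union hfE1).union hfU)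
  have h2 := (Set.ncard_union_le (((Finset.Icc (1 : ℤ) ⌊ε₁ * x⌋ : Finset ℤ) : Set ℤ) ∪
    {n : ℤ | n ∈ E₁ ∧ 0 < n ∧ (n : ℝ) ≤ x})
    (⋃ e ∈ Finset.range (2 ^ i), (fun z : ℤ => 2 ^ i * z - |ρ| * (e : ℤ)) '' Q))
  have h3 := Set.ncard_union_le ((Finset.Icc (1 : ℤ) ⌊ε₁ * x⌋ : Finset ℤ) : Set ℤ) {n : ℤ | n ∈ E₁ ∧ 0 < n ∧ (n : ℝ) ≤ x}
  have h4 := Finset.set_ncard_biUnion_le (Finset.range (2 ^ i)) (fun e : ℕ => (fun z : ℤ => 2 ^ i * z - |ρ| * (e : ℤ)) '' Q)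
  rw [Set.ncard_coe_finset] at h3
  have h5 : ∑ e ∈ Finset.range (2 ^ i), ((fun z : ℤ => 2 ^ i * z - |ρ| * (e : ℤ)) '' Q).ncard ≤ 2 ^ i * Q.ncard := by
    calc ∑ e ∈ Finset.range (2 ^ i), ((fun z : ℤ => 2 ^ i * z - |ρ| * (e : ℤ)) '' Q).ncard ≤
          ∑ _e ∈ Finset.range (2 ^ i), Q.ncard := Finset.sum_le_sum fun e _ => Set.ncard_image_le hQf
      _ = 2 ^ i * Q.ncard := by rw [Finset.sum_const, Finset.card_range, smul_eq_mul]
  have h6 : ((Finset.Icc (1 : ℤ) ⌊ε₁ * x⌋).card : ℝ) ≤ ε₁ * x := by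
    rw [Int.card_Icc, add_sub_cancel_right]
    have h7 : 0 ≤ ⌊ε₁ * x⌋ := Int.floor_nonneg.2 (by positivity)
    have h8 : ((⌊ε₁ * x⌋.toNat : ℕ) : ℝ) = ((⌊ε₁ * x⌋ : ℤ) : ℝ) := by exact_mod_cast Int.toNat_of_nonneg h7
    rw [h8]
    exact Int.floor_le _
  have h7 : (Q.ncard : ℝ) ≤ ε₁ * (2 * x / 2 ^ i) := by
    rw [hQ]
    exact hcE
  have h8 : (({n : ℤ | n ∈ E₁ ∧ 0 < n ∧ (n : ℝ) ≤ x}.ncard : ℕ) : ℝ) ≤ ε₁ * x := hcE1
  have h9 : cN (I \ MixedH ρ F w) x ≤ ((Finset.Icc (1 : ℤ) ⌊ε₁ * x⌋).card : ℝ) +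
      (({n : ℤ | n ∈ E₁ ∧ 0 < n ∧ (n : ℝ) ≤ x}.ncard : ℕ) : ℝ) + 2 ^ i * (Q.ncard : ℝ) := by
    unfold cN
    have h10 := (h1.trans h2).trans (Nat.add_le_add h3 (h4.trans h5))
    exact_mod_cast h10
  have h10 : (2 : ℝ) ^ i * (Q.ncard : ℝ) ≤ 2 * (ε₁ * x) := by
    calc (2 : ℝ) ^ i * (Q.ncard : ℝ) ≤ 2 ^ i * (ε₁ * (2 * x / 2 ^ i)) := mul_le_mul_of_nonneg_left h7 h2i0.le
      _ = 2 * (ε₁ * x) := by field_simp
  have h11 : ε₁ * x ≤ ε / 8 * x := mul_le_mul_of_nonneg_right hε₁8 hx0.le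
  have h12 : 0 ≤ ε * x := by positivity
  linarith

end Pool.Agent.Helper8.RU
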