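import Pool.Agent.Helper8.RU.U5
import Pool.Agent.Helper85.ST.K

/-!
# RU-R6: the heights of the neighbours, sharp rate

`heights_sharp`: for all but `C x (1 + log w) / √(log x)` of the `0 < n ≤ x` the first times of `n + h` and `n` in `F` are equal for all
`ρ ∣ h`, `|h| ≤ w` (`log w ≤ log x / 3200`), if `F` is bounded above.
-/

set_option autoImplicit false

namespace Pool.Agent.Helper8.RU

open Pool.Agent.Helper68.Moeller Pool.Agent.Helper8 Pool.Agent.Helper8.ND Pool.Agent.Helper8.CO Pool.Agent.Helper28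
  Pool.Agent.Helper85.ST Filter Topology

variable {ρ : ℤ}

theorem first46 {F : Set ℤ} {k : ℕ} {n n' : ℤ} (h : (T 2 3 (fun _ => ρ))^[k] n = (T 2 3 (fun _ => ρ))^[k] n')
    (h1 : ∀ i ≤ k, (T 2 3 (fun _ => ρ))^[i] n ∉ F) (h2 : ∀ i ≤ k, (T 2 3 (fun _ => ρ))^[i] n' ∉ F) (t : ℕ) :
    First ρ F t n → First ρ F t n' := by
  rintro ⟨h3, h4⟩
  have hkt : k < t := by
    by_contra hcon
    exact h1 t (not_lt.1 hcon) h3
  have h5 : ∀ i, k ≤ i → (T 2 3 (fun _ => ρ))^[i] n = (T 2 3 (fun _ => ρ))^[i] n' := by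
    intro i hi
    obtain ⟨j, rfl⟩ := Nat.exists_eq_add_of_le hi
    rw [add_comm k j, Function.iterate_add_apply, Function.iterate_add_apply, h]
  refine ⟨by rwa [← h5 t hkt.le], fun i hi => ?_⟩
  rcases le_or_gt i k with hik | hik
  · exact h2 i hik
  · rw [← h5 i hik.le]
    exact h4 i hi

theorem finite46 (x : ℝ) (P : ℤ → Prop) :
    ({n : ℤ | 0 < n ∧ (n : ℝ) ≤ x ∧ P n}).Finite := by
  refine (Set.finite_Icc (1 : ℤ) ⌊x⌋).subset ?_
  rintro n ⟨h1, h2, -⟩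
  exact ⟨h1, Int.le_floor.2 h2⟩

/-- The integers which have a neighbour at distance `≤ w` with another first time. -/
def Mixed (ρ : ℤ) (F : Set ℤ) (w : ℝ) : Set ℤ :=
  {n : ℤ | ∃ h : ℤ, ρ ∣ h ∧ |(h : ℝ)| ≤ w ∧ ∃ t : ℕ, ¬ (First ρ F t (n + h) ↔ First ρ F t n)}

theorem heights_sharp (hρ : Odd ρ) {F : Set ℤ} {B : ℝ} (hB : 0 ≤ B) (hF : ∀ a ∈ F, (a : ℝ) ≤ B) :
    ∃ C X : ℝ, 0 < C ∧ ∀ x w : ℝ, X ≤ x → 1 ≤ w → 3200 * Real.log w ≤ Real.log x →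
      cN (Mixed ρ F w) x ≤ C * (1 + Real.log w) / Real.sqrt (Real.log x) * x := by
  obtain ⟨C, hC, hw⟩ := win_sharp hρ
  obtain ⟨K, hK⟩ : ∃ K : ℝ, K = |(ρ : ℝ)| + B + 1 := ⟨_, rfl⟩
  have hK1 : 1 ≤ K := by
    rw [hK]
    have := abs_nonneg (ρ : ℝ)
    linarith
  refine ⟨C + (K + 1), Real.exp 8000, by positivity, fun x w hx hw1 hxw => ?_⟩
  have hx0 : 0 < x := (Real.exp_pos _).trans_le hx
  have hL : 8000 ≤ Real.log x := (Real.le_log_iff_exp_le hx0).2 hx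
  have hlw : 0 ≤ Real.log w := Real.log_nonneg hw1
  have hx9 : (9 : ℝ) ≤ x := by
    have := Real.add_one_le_exp (8000 : ℝ)
    linarith
  have hs3 : (3 : ℝ) ≤ Real.sqrt x := by
    rw [show (3 : ℝ) = Real.sqrt 9 by rw [show (9 : ℝ) = 3 ^ 2 by norm_num, Real.sqrt_sq (by norm_num)]]
    exact Real.sqrt_le_sqrt hx9
  have h3 := hw x w (by linarith) hw1 (by linarith)
  have hk2 : (2 : ℝ) ^ kk x ≤ Real.sqrt x := two_pow_kk_le (by linarith)
  have hwx : w ≤ Real.sqrt x := by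
    rw [Real.sqrt_eq_rpow, Real.rpow_def_of_pos hx0]
    have h4 : w = Real.exp (Real.log w) := (Real.exp_log (by linarith)).symm
    rw [h4]
    exact Real.exp_le_exp.2 (by linarith)
  have hsub : {n : ℤ | n ∈ Mixed ρ F w ∧ 0 < n ∧ (n : ℝ) ≤ x} ⊆
      {n : ℤ | 0 < n ∧ (n : ℝ) ≤ x ∧ ∃ h : ℤ, ρ ∣ h ∧ |(h : ℝ)| ≤ w ∧
        ¬ MM ρ (kk x) 0 n (n + h)} ∪ ((Finset.Icc (1 : ℤ) ⌊(K + 1) * Real.sqrt x⌋ : Finset ℤ) : Set ℤ) := by
    rintro n ⟨hn, hn0, hnx⟩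
    rcases le_or_gt (n : ℝ) ((K + 1) * Real.sqrt x) with h | h
    · right
      rw [Finset.mem_coe, Finset.mem_Icc]
      exact ⟨by omega, Int.le_floor.2 h⟩
    · left
      refine ⟨hn0, hnx, ?_⟩
      obtain ⟨k, hk, hkw, t, hkt⟩ := hn
      refine ⟨k, hk, hkw, fun hM => hkt ?_⟩
      have hbig : ∀ n' : ℤ, K * Real.sqrt x ≤ n' → ∀ i ≤ kk x, (T 2 3 (fun _ => ρ))^[i] n' ∉ F := by
        intro n' hn' i hi hmem
        have h5 := orb_gt hρ hB (k := kk x) (n := n') (by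
          rw [← hK]
          refine le_trans ?_ hn'
          rw [mul_comm]
          exact mul_le_mul_of_nonneg_left hk2 (by linarith)) hi
        exact absurd (hF _ hmem) (not_le.2 h5)
      have hn1 : K * Real.sqrt x ≤ n := by nlinarith
      have hn2 : K * Real.sqrt x ≤ (n + k : ℤ) := by
        push_cast
        have h6 := (abs_le.1 (hkw.trans hwx)).1
        nlinarith
      exact ⟨first46 hM.1.symm (hbig _ hn2) (hbig _ hn1) t, first46 hM.1 (hbig _ hn1) (hbig _ hn2) t⟩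
  have hfin := finite46 x (fun n => ∃ h : ℤ, ρ ∣ h ∧ |(h : ℝ)| ≤ w ∧ ¬ MM ρ (kk x) 0 n (n + h))
  have h4 := Set.ncard_le_ncard hsub (hfin.union (Finset.finite_toSet _))
  have h5 := Set.ncard_union_le {n : ℤ | 0 < n ∧ (n : ℝ) ≤ x ∧ ∃ h : ℤ, ρ ∣ h ∧ |(h : ℝ)| ≤ w ∧
      ¬ MM ρ (kk x) 0 n (n + h)} ((Finset.Icc (1 : ℤ) ⌊(K + 1) * Real.sqrt x⌋ : Finset ℤ) : Set ℤ)
  rw [Set.ncard_coe_finset] at h5
  have h6 : ((Finset.Icc (1 : ℤ) ⌊(K + 1) * Real.sqrt x⌋).card : ℝ) ≤ (K + 1) * Real.sqrt x := by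
    rw [Int.card_Icc, add_sub_cancel_right]
    have h7 : 0 ≤ ⌊(K + 1) * Real.sqrt x⌋ := Int.floor_nonneg.2 (by positivity)
    have h8 : ((⌊(K + 1) * Real.sqrt x⌋.toNat : ℕ) : ℝ) = ((⌊(K + 1) * Real.sqrt x⌋ : ℤ) : ℝ) := by
      exact_mod_cast Int.toNat_of_nonneg h7
    rw [h8]
    exact Int.floor_le _
  have h7 : cN (Mixed ρ F w) x ≤
      ({n : ℤ | 0 < n ∧ (n : ℝ) ≤ x ∧ ∃ h : ℤ, ρ ∣ h ∧ |(h : ℝ)| ≤ w ∧
        ¬ MM ρ (kk x) 0 n (n + h)}.ncard : ℝ) + ((Finset.Icc (1 : ℤ) ⌊(K + 1) * Real.sqrt x⌋).card : ℝ) := by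
    unfold cN
    exact_mod_cast h4.trans h5
  -- `√x ≤ x / √(log x)`
  have hsL : 0 < Real.sqrt (Real.log x) := Real.sqrt_pos.2 (by linarith)
  have h8 : Real.sqrt x ≤ (1 + Real.log w) / Real.sqrt (Real.log x) * x := by
    have h9 : Real.sqrt (Real.log x) ≤ Real.sqrt x := by
      refine Real.sqrt_le_sqrt ?_
      have := Real.log_le_sub_one_of_pos hx0
      linarith
    have h10 : Real.sqrt x * Real.sqrt x = x := Real.mul_self_sqrt hx0.le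
    rw [div_mul_eq_mul_div, le_div_iff₀ hsL]
    calc Real.sqrt x * Real.sqrt (Real.log x) ≤ Real.sqrt x * Real.sqrt x :=
          mul_le_mul_of_nonneg_left h9 (Real.sqrt_nonneg x)
      _ = 1 * x := by rw [h10, one_mul]
      _ ≤ (1 + Real.log w) * x := mul_le_mul_of_nonneg_right (by linarith) hx0.le
  have h9 : (K + 1) * Real.sqrt x ≤ (K + 1) * ((1 + Real.log w) / Real.sqrt (Real.log x) * x) :=
    mul_le_mul_of_nonneg_left h8 (by linarith)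
  have h10 : (C + (K + 1)) * (1 + Real.log w) / Real.sqrt (Real.log x) * x =
      C * (1 + Real.log w) / Real.sqrt (Real.log x) * x +
        (K + 1) * ((1 + Real.log w) / Real.sqrt (Real.log x) * x) := by ring
  rw [h10]
  linarith

end Pool.Agent.Helper8.RU
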