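import Pool.Agent.Helper8.RU.R13
import Pool.Agent.Helper8.RU.R14
import Pool.Agent.Helper8.CO.Eqv
import Pool.Agent.Helper28.POSB.Basins

/-!
# The heights of neighbouring integers

`d = 2`, `m = 3`: `T n = n / 2` if `2 ∣ n`, `T n = (3 n - ρ) / 2` otherwise, `ρ = r_1` odd (`ρ = -1`: `3x + 1`). Let `F` be a set of integers which is
bounded above; `n` has the height `t` if `t` is the number of the steps from `n` to `F`. If the integers with a height do not have density `0`
then, uniformly for `x ≥ X`, `w ≥ |ρ|`, the number of the `n ≤ x` which have a height and a neighbour `k ≡ n (mod ρ)`, `|k - n| ≤ w`, of another height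
(or without a height) is of the exact order `x min (1, (1 + log w) / √(log x))`. So the heights of `n` and its neighbours are equal for almost all
`n`, with the exact order `x / √(log x)` of the exceptions, and the interval around `n` on which the height is constant has the length
`exp (√(log n))` up to a bounded factor in the exponent (`w = exp (λ √(log x))`, `λ → 0` and `λ → ∞`).

Structure of the proof. Upper bound: `Helper8/CO` the Markov chain of the pairs of orbits (the digits of `n`), `RU/V1`-`V3` the sharp rate `k ^ (-1/2)` of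
coalescence, `U4`, `U5`, `R6` windows. Lower bound: `R8` the difference of the numbers of odd steps of the two orbits is a submartingale and reaches `s = λ √(log x)` with
probability `≥ c / s` in `κ log x` steps; `R9` recursion; `R10`, `R11` the two points are then in residue classes modulo powers of `3` which have the
same distribution of the heights as all integers (`Helper8/PW`: fine-scale mixing in classes, `Helper52/Tao`), at two scales which differ by
`λ √(log x)` in the exponent, and the central limit theorem (`Helper8/ST`); `R12`, `R13` windows; `R14` the case `λ → ∞`.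
-/

set_option autoImplicit false

namespace Pool.Agent.Results.MP_fd8838_nt.HeightsOfNeighbours

open Pool.Agent.Helper68.Moeller Pool.Agent.Helper8 Pool.Agent.Helper28 Pool.Agent.Helper91 Pool.Agent.Helper85.ST
  Pool.Agent.Helper8.ND Filter Topology

/-- `n` has the height `t`: the orbit of `n` is in `F` at the time `t`, and not before. -/
def Height (r : ℤ → ℤ) (F : Set ℤ) (t : ℕ) (n : ℤ) : Prop :=
  (T 2 3 r)^[t] n ∈ F ∧ ∀ i < t, (T 2 3 r)^[i] n ∉ F

/-- The number of the `1 ≤ n ≤ x` which have a height. -/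
noncomputable def total (r : ℤ → ℤ) (F : Set ℤ) (x : ℝ) : ℝ :=
  ({n : ℤ | 0 < n ∧ (n : ℝ) ≤ x ∧ ∃ t : ℕ, Height r F t n}.ncard : ℝ)

/-- The number of the `1 ≤ n ≤ x` which have a height `t`, and a neighbour `k ≡ n (mod r_1)`, `|k - n| ≤ w`, which does not have the
height `t`. -/
noncomputable def mixed (r : ℤ → ℤ) (F : Set ℤ) (x w : ℝ) : ℝ :=
  ({n : ℤ | 0 < n ∧ (n : ℝ) ≤ x ∧ ∃ t : ℕ, Height r F t n ∧
    ∃ k : ℤ, r 1 ∣ k - n ∧ |((k - n : ℤ) : ℝ)| ≤ w ∧ ¬ Height r F t k}.ncard : ℝ)

/-- The number of the `1 ≤ n ≤ x` which reach `1` under `n ↦ n / 2`, `(3 n + 1) / 2`, in `t` steps, such that `n + 1` does not reach `1` for the first time after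
`t` steps. -/
noncomputable def differ (x : ℝ) : ℝ :=
  ({n : ℤ | 0 < n ∧ (n : ℝ) ≤ x ∧ ∃ t : ℕ, Height (fun _ => -1) {1} t n ∧ ¬ Height (fun _ => -1) {1} t (n + 1)}.ncard : ℝ)

private theorem height_iff {r : ℤ → ℤ} {F : Set ℤ} (t : ℕ) (n : ℤ) : Height r F t n ↔ First (r 1) F t n := by
  unfold Height First
  rw [CO.T_eq (r := r)]

private theorem total_eq {r : ℤ → ℤ} {F : Set ℤ} (x : ℝ) :
    total r F x = cN (ST.hitI 2 3 (fun _ => r 1) F) x := by
  unfold total cN
  congr 2
  ext n
  simp only [Set.mem_ofPred_eq, height_iff]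
  constructor
  · rintro ⟨h1, h2, t, h3⟩
    exact ⟨⟨t, h3.1⟩, h1, h2⟩
  · rintro ⟨⟨t, ht⟩, h1, h2⟩
    classical
    have hex : ∃ t : ℕ, (T 2 3 (fun _ => r 1))^[t] n ∈ F := ⟨t, ht⟩
    exact ⟨h1, h2, Nat.find hex, Nat.find_spec hex, fun i hi => Nat.find_min hex hi⟩

private theorem mixed_eq {r : ℤ → ℤ} {F : Set ℤ} (x w : ℝ) :
    mixed r F x w = cN (RU.MixedH (r 1) F w) x := by
  unfold mixed cN
  congr 2
  ext n
  simp only [Set.mem_ofPred_eq, height_iff]
  constructor
  · rintro ⟨h1, h2, t, h3, k, h4, h5, h6⟩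
    refine ⟨⟨⟨t, h3⟩, k - n, h4, h5, t, ?_⟩, h1, h2⟩
    rw [add_sub_cancel]
    exact fun h7 => h6 (h7.2 h3)
  · rintro ⟨⟨⟨t, ht⟩, h, hd, hw, t', ht'⟩, h1, h2⟩
    refine ⟨h1, h2, t, ht, n + h, by rwa [add_sub_cancel_left], by rwa [add_sub_cancel_left], fun h3 => ht' ?_⟩
    have huniq : ∀ {y : ℤ} {a b : ℕ}, First (r 1) F a y → First (r 1) F b y → a = b := by
      intro y a b ha hb
      rcases lt_trichotomy a b with h | h | h
      · exact absurd ha.1 (hb.2 a h)
      · exact h
      · exact absurd hb.1 (ha.2 b h)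
    constructor
    · intro h4
      rw [huniq h4 h3]
      exact ht
    · intro h4
      rw [huniq h4 ht]
      exact h3

/-- **The heights of neighbouring integers.** -/
theorem result :
    (∀ r : ℤ → ℤ, Odd (r 1) → ∀ (F : Set ℤ) (b : ℝ), (∀ n ∈ F, (n : ℝ) ≤ b) →
      ¬ Tendsto (fun x : ℝ => total r F x / x) atTop (𝓝 0) →
      (∃ c C X : ℝ, 0 < c ∧ ∀ x w : ℝ, X ≤ x → |(r 1 : ℝ)| ≤ w →
        c * min 1 ((1 + Real.log w) / Real.sqrt (Real.log x)) * x ≤ mixed r F x w ∧
        mixed r F x w ≤ C * min 1 ((1 + Real.log w) / Real.sqrt (Real.log x)) * x) ∧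
      ∀ ε : ℝ, 0 < ε → ∃ lam X : ℝ, ∀ x : ℝ, X ≤ x →
        total r F x - ε * x ≤ mixed r F x (Real.exp (lam * Real.sqrt (Real.log x)))) ∧
    -- the special case of `n`, `n + 1` for `3x + 1`
    (∃ c C X : ℝ, 0 < c ∧ ∀ x : ℝ, X ≤ x →
      c * (x / Real.sqrt (Real.log x)) ≤ differ x ∧ differ x ≤ C * (x / Real.sqrt (Real.log x))) := by
  refine ⟨fun r hr F b hF hD => ?_, ?_⟩
  · have hb : 0 ≤ max b 0 := le_max_right _ _
    have hF' : ∀ n ∈ F, (n : ℝ) ≤ max b 0 := fun n hn => (hF n hn).trans (le_max_left _ _)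
    have hstd := RU.std_odd hr
    obtain ⟨D, hDd⟩ : ∃ D, D = PL.dens (ST.hitI 2 3 (fun _ => r 1) F) := ⟨_, rfl⟩
    have htend : Tendsto (fun x : ℝ => fd (ST.hitI 2 3 (fun _ => r 1) F) x) atTop (𝓝 D) := by
      rw [hDd]
      exact PL.stab_tendsto hstd.hd hstd.hdm hstd.hco hstd.hr hstd.gam hstd.mix (ST.tinv_hitI hF')
    have hD0 : 0 ≤ D := by
      refine ge_of_tendsto htend ?_
      filter_upwards [eventually_ge_atTop 0] with x hx
      exact fd_nonneg _ hx
    have hdens := PL.hasDensity_of_fd htend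
    have hDpos : 0 < D := by
      rcases hD0.lt_or_eq with h | h
      · exact h
      · exfalso
        apply hD
        rw [← h] at hdens
        simpa only [total_eq] using hdens
    rw [hDd] at hDpos
    obtain ⟨c, X, hc, hlow⟩ := RU.lower hr hb hF' hDpos
    obtain ⟨C, X', hC, hupp⟩ := RU.upper hr hb hF'
    have hr1 : (1 : ℝ) ≤ |(r 1 : ℝ)| := by
      have h1 : r 1 ≠ 0 := by
        intro h
        rw [h] at hr
        exact absurd hr (by decide)
      have h2 : (1 : ℤ) ≤ |r 1| := Int.one_le_abs h1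
      exact_mod_cast h2
    refine ⟨⟨c, C, max X X', hc, fun x w hx hw => ⟨?_, ?_⟩⟩, fun ε hε => ?_⟩
    · rw [mixed_eq]
      exact hlow x w ((le_max_left _ _).trans hx) hw
    · rw [mixed_eq]
      refine le_trans (POSB.cN_mono (fun n hn _ => hn.2) x) (hupp x w ((le_max_right _ _).trans hx) (hr1.trans hw))
    · obtain ⟨lam, X, -, ht⟩ := RU.tight hr hb hF' hε
      refine ⟨lam, X, fun x hx => ?_⟩
      rw [mixed_eq, total_eq]
      obtain ⟨A, hA⟩ : ∃ A, A = RU.MixedH (r 1) F (Real.exp (lam * Real.sqrt (Real.log x))) := ⟨_, rfl⟩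
      have h1 := ht x hx
      rw [← hA] at h1 ⊢
      have h2 : cN (ST.hitI 2 3 (fun _ => r 1) F) x ≤ cN (ST.hitI 2 3 (fun _ => r 1) F \ A) x + cN A x := by
        refine le_trans (POSB.cN_mono (fun n hn _ => ?_) x) (POSB.cN_union_le _ _ x)
        by_cases h3 : n ∈ A
        · exact Or.inr h3
        · exact Or.inl ⟨hn, h3⟩
      linarith
  · have hρ : Odd (-1 : ℤ) := by decide
    have hF : ∀ n ∈ ({1} : Set ℤ), (n : ℝ) ≤ 1 := by simp
    obtain ⟨p, hp, hp1, -⟩ := POSB.three
    have hD : 0 < PL.dens (ST.hitI 2 3 (fun _ => (-1 : ℤ)) {1}) := by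
      have hstd := RU.std_odd hρ
      have htend := PL.stab_tendsto hstd.hd hstd.hdm hstd.hco hstd.hr hstd.gam hstd.mix
        (ST.tinv_hitI (d := 2) (m := 3) (r := fun _ => (-1 : ℤ)) hF)
      have hdens := PL.hasDensity_of_fd htend
      have e : ST.hitI 2 3 (fun _ => (-1 : ℤ)) {1} = {n : ℤ | ∃ t : ℕ, (T 2 3 (fun _ => -1))^[t] n = 1} := by
        ext n
        simp only [ST.hitI, Set.mem_singleton_iff]
      rw [e] at hdens ⊢
      rw [tendsto_nhds_unique hdens hp1]
      exact hp
    obtain ⟨c, X, hc, hlow⟩ := RU.lower_next hρ zero_le_one hF hD false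
    obtain ⟨C, X', hC, hupp⟩ := RU.upper hρ zero_le_one hF
    have hset : ∀ x : ℝ, differ x = cN {n : ℤ | RU.Df (-1) {1} n (if false then n + -1 else n - -1)} x := by
      intro x
      unfold differ cN
      congr 2
      ext n
      simp only [Set.mem_ofPred_eq, height_iff, RU.Df, Bool.false_eq_true, if_false, sub_neg_eq_add]
      tauto
    refine ⟨c, C, max (max X X') 0, hc, fun x hx => ⟨?_, ?_⟩⟩
    · rw [hset]
      exact hlow x (((le_max_left _ _).trans (le_max_left _ _)).trans hx)
    · have h1 := hupp x 1 (((le_max_right _ _).trans (le_max_left _ _)).trans hx) le_rfl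
      have h2 : differ x ≤ cN (RU.Mixed (-1) {1} 1) x := by
        rw [hset]
        refine POSB.cN_mono (fun n hn _ => ?_) x
        obtain ⟨t, h3, h4⟩ := hn
        simp only [Bool.false_eq_true, if_false, sub_neg_eq_add] at h4
        exact ⟨1, by decide, by norm_num, t, fun h5 => h4 (h5.2 h3)⟩
      refine (h2.trans h1).trans ?_
      have h3 : min 1 ((1 + Real.log 1) / Real.sqrt (Real.log x)) ≤ 1 / Real.sqrt (Real.log x) := by
        refine (min_le_right _ _).trans (le_of_eq ?_)
        rw [Real.log_one, add_zero]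
      have hx0 : 0 ≤ x := (le_max_right _ _).trans hx
      calc C * min 1 ((1 + Real.log 1) / Real.sqrt (Real.log x)) * x ≤ C * (1 / Real.sqrt (Real.log x)) * x :=
            mul_le_mul_of_nonneg_right (mul_le_mul_of_nonneg_left h3 hC.le) hx0
        _ = C * (x / Real.sqrt (Real.log x)) := by ring

end Pool.Agent.Results.MP_fd8838_nt.HeightsOfNeighbours
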