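import Pool.Agent.Helper8.RU.U4
import Pool.Agent.Helper8.CO.Win

/-!
# RU-U5: windows of length `w`, `log w ≤ log x / 1600`

`win_sharp`: for all but `C x (1 + log w) / √(log x)` of the `0 < n ≤ x` the orbits of all the `n + h`, `ρ ∣ h`, `|h| ≤ w`, are at the same
point, with the same number of odd steps, after `kk x = ⌊log x / (2 log 2)⌋₊` steps. As in CO-WIN2: `J = ⌊w⌋₊`, `t = ⌈100 log (2 J + 2)⌉₊`,
`k = kk x - t ≥ kk x / 2`, `uni_sharp`.
-/

set_option autoImplicit false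

namespace Pool.Agent.Helper8.RU

open Pool.Agent.Helper68.Moeller Pool.Agent.Helper8.CO Finset

variable {ρ : ℤ}

private lemma w5_uni (hρ : Odd ρ) : ∃ C : ℝ, 0 < C ∧
    ∀ (J t k : ℕ) (a : ℤ) (N : ℕ) (S : Set ℤ), 1 ≤ k →
    (∀ n ∈ S, a < n ∧ n ≤ a + N ∧ ¬ ∀ j : ℕ, j ≤ J → MM ρ (t + k) 0 n (n + ρ * j)) →
    (S.ncard : ℝ) ≤ ((N : ℝ) + 2 ^ (t + k)) * (C * (k : ℝ) ^ (-(1 / 2 : ℝ)) *
        ((t : ℝ) + 1 + ((J : ℝ) + 1) ^ 2 * (98 / 100) ^ t)) := by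
  classical
  obtain ⟨C, hC, h⟩ := uni_sharp hρ
  refine ⟨C, hC, fun J t k a N S hk hS => ?_⟩
  refine le_trans (Nat.cast_le.2 ?_) (h J t k a N hk)
  rw [← Set.ncard_coe_finset]
  refine Set.ncard_le_ncard (fun n hn => ?_) (Finset.finite_toSet _)
  obtain ⟨h1, h2, h3⟩ := hS n hn
  rw [Finset.mem_coe, Finset.mem_filter, Finset.mem_Ioc]
  exact ⟨⟨h1, h2⟩, h3⟩

theorem win_sharp (hρ : Odd ρ) :
    ∃ C : ℝ, 0 < C ∧ ∀ x w : ℝ, 1 ≤ x → 1 ≤ w → 4000 + 1600 * Real.log w ≤ Real.log x →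
    ({n : ℤ | 0 < n ∧ (n : ℝ) ≤ x ∧ ∃ h : ℤ, ρ ∣ h ∧ |(h : ℝ)| ≤ w ∧
      ¬ MM ρ (kk x) 0 n (n + h)}.ncard : ℝ) ≤ C * (1 + Real.log w) / Real.sqrt (Real.log x) * x := by
  obtain ⟨C₀, hC₀, hr⟩ := w5_uni hρ
  refine ⟨1300 * C₀, by positivity, fun x w hx1 hw hxw => ?_⟩
  have hlw : 0 ≤ Real.log w := Real.log_nonneg hw
  obtain ⟨L, hL⟩ : ∃ L : ℝ, L = Real.log x := ⟨_, rfl⟩
  rw [← hL] at hxw ⊢
  have hL0 : 0 < L := by linarith
  have hx0 : 0 < x := by linarith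
  have hl2 : 0 < Real.log 2 := Real.log_pos (by norm_num)
  have hl21 : Real.log 2 ≤ 1 := by linarith [Real.log_two_lt_d9]
  -- the level `kk x`
  have hy : 1 ≤ L / (2 * Real.log 2) := by
    rw [le_div_iff₀ (by positivity)]
    linarith
  have hkk : L / 4 ≤ (kk x : ℝ) := by
    have h1 := Nat.lt_floor_add_one (L / (2 * Real.log 2))
    have h2 : (1 : ℝ) ≤ (⌊L / (2 * Real.log 2)⌋₊ : ℝ) := by
      have : 1 ≤ ⌊L / (2 * Real.log 2)⌋₊ := (Nat.one_le_floor_iff _).2 hy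
      exact_mod_cast this
    have h3 : L / (2 * Real.log 2) / 2 ≤ (kk x : ℝ) := by
      have e : (kk x : ℝ) = (⌊L / (2 * Real.log 2)⌋₊ : ℝ) := by rw [hL]; rfl
      rw [e]
      linarith
    refine le_trans ?_ h3
    rw [div_div, div_le_div_iff₀ (by norm_num) (by positivity)]
    nlinarith
  -- the window
  obtain ⟨J, hJ⟩ : ∃ J : ℕ, J = ⌊w⌋₊ := ⟨_, rfl⟩
  have hJle : (J : ℝ) ≤ w := by rw [hJ]; exact Nat.floor_le (by linarith)
  have hJ0 : (0 : ℝ) ≤ J := Nat.cast_nonneg _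
  have hlogJ : Real.log (2 * J + 2) ≤ 2 + Real.log w := by
    have h1 : (2 : ℝ) * J + 2 ≤ 4 * w := by linarith
    have h2 := Real.log_le_log (by positivity) h1
    rw [Real.log_mul (by norm_num) (by linarith)] at h2
    have h3 : Real.log 4 = 2 * Real.log 2 := by
      rw [show (4 : ℝ) = 2 ^ 2 by norm_num, Real.log_pow]
      norm_num
    linarith
  have hlogJ0 : 0 ≤ Real.log (2 * J + 2) := Real.log_nonneg (by linarith)
  obtain ⟨t, ht⟩ : ∃ t : ℕ, t = ⌈100 * Real.log (2 * J + 2)⌉₊ := ⟨_, rfl⟩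
  have htge : 100 * Real.log (2 * J + 2) ≤ t := by rw [ht]; exact Nat.le_ceil _
  have htle : (t : ℝ) ≤ 201 + 100 * Real.log w := by
    have h1 := Nat.ceil_lt_add_one (by positivity : 0 ≤ 100 * Real.log (2 * J + 2))
    rw [← ht] at h1
    linarith
  have hsmall : (((2 * J : ℕ) : ℝ) + 1) ^ 2 * (98 / 100 : ℝ) ^ t ≤ 1 := by
    have h1 : (98 / 100 : ℝ) ^ t ≤ Real.exp (-(2 * Real.log (2 * J + 2))) := by
      have h2 : (98 / 100 : ℝ) ≤ Real.exp (-(2 / 100)) := by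
        have := Real.add_one_le_exp (-(2 / 100 : ℝ))
        linarith
      calc (98 / 100 : ℝ) ^ t ≤ Real.exp (-(2 / 100)) ^ t := pow_le_pow_left₀ (by norm_num) h2 t
        _ = Real.exp (t * (-(2 / 100))) := by rw [← Real.exp_nat_mul]
        _ ≤ Real.exp (-(2 * Real.log (2 * J + 2))) := by
            apply Real.exp_le_exp.2
            linarith
    have h3 : Real.exp (-(2 * Real.log (2 * J + 2))) = ((2 * (J : ℝ) + 2) ^ 2)⁻¹ := by
      rw [Real.exp_neg, two_mul (Real.log _), Real.exp_add, Real.exp_log (by positivity), ← pow_two]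
    rw [h3] at h1
    calc (((2 * J : ℕ) : ℝ) + 1) ^ 2 * (98 / 100 : ℝ) ^ t
        ≤ (((2 * J : ℕ) : ℝ) + 1) ^ 2 * ((2 * (J : ℝ) + 2) ^ 2)⁻¹ :=
          mul_le_mul_of_nonneg_left h1 (by positivity)
      _ ≤ 1 := by
          rw [← div_eq_mul_inv, div_le_one (by positivity)]
          push_cast
          exact pow_le_pow_left₀ (by positivity) (by linarith) 2
  -- the remaining steps
  have htk : (t : ℝ) ≤ (kk x : ℝ) / 2 := by linarith
  have htk' : t ≤ kk x := by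
    have : (t : ℝ) ≤ (kk x : ℝ) := by
      have : (0 : ℝ) ≤ kk x := Nat.cast_nonneg _
      linarith
    exact_mod_cast this
  obtain ⟨k, hk⟩ := Nat.exists_eq_add_of_le htk'
  have hkr : (kk x : ℝ) = t + k := by exact_mod_cast hk
  have hk8 : L / 9 ≤ (k : ℝ) := by linarith
  have hk1 : 1 ≤ k := by
    have : (1 : ℝ) ≤ k := by linarith
    exact_mod_cast this
  have hsL : 0 < Real.sqrt L := Real.sqrt_pos.2 hL0
  have hkc : (k : ℝ) ^ (-(1 / 2 : ℝ)) ≤ 3 / Real.sqrt L := by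
    have hk0 : (0 : ℝ) < k := by exact_mod_cast hk1
    rw [Real.rpow_neg hk0.le, ← Real.sqrt_eq_rpow, ← one_div,
      div_le_div_iff₀ (Real.sqrt_pos.2 hk0) hsL, one_mul]
    rw [Real.sqrt_le_left (by positivity), mul_pow, Real.sq_sqrt hk0.le]
    linarith
  have hpow : (2 : ℝ) ^ (t + k) ≤ x := by
    rw [← hk]
    refine (two_pow_kk_le hx1).trans ?_
    rw [Real.sqrt_le_left hx0.le]
    nlinarith
  -- the bad set
  obtain ⟨S, hS⟩ : ∃ S : Set ℤ, S = {n : ℤ | 0 < n ∧ (n : ℝ) ≤ x ∧ ∃ h : ℤ, ρ ∣ h ∧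
    |(h : ℝ)| ≤ w ∧ ¬ MM ρ (kk x) 0 n (n + h)} := ⟨_, rfl⟩
  rw [← hS]
  have hinj : Function.Injective (fun n : ℤ => n - ρ * J) := fun a b h => by
    have h' : a - ρ * J = b - ρ * J := h
    linarith
  have hmain := hr (2 * J) t k (-(ρ * J)) ⌊x⌋₊ ((fun n : ℤ => n - ρ * J) '' S) hk1 (by
    rintro _ ⟨n, hn, rfl⟩
    rw [hS] at hn
    obtain ⟨hn1, hn2, h, ⟨η, rfl⟩, hη, hM⟩ := hn
    have hnx : n ≤ (⌊x⌋₊ : ℤ) := by
      rw [Int.natCast_floor_eq_floor hx0.le]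
      exact Int.le_floor.2 hn2
    refine ⟨by simp only; linarith, by simp only; linarith, ?_⟩
    intro hall
    apply hM
    have hρ0 : ρ ≠ 0 := by
      rintro rfl
      exact absurd hρ (by decide)
    have hρ1 : (1 : ℝ) ≤ |(ρ : ℝ)| := by
      have : (1 : ℤ) ≤ |ρ| := Int.one_le_abs hρ0
      exact_mod_cast this
    have hηJ : |η| ≤ J := by
      have h1 : |(η : ℝ)| ≤ w := by
        refine le_trans ?_ hη
        push_cast
        rw [abs_mul]
        exact le_mul_of_one_le_left (abs_nonneg _) hρ1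
      have h2 : η.natAbs ≤ J := by
        rw [hJ]
        refine Nat.le_floor ?_
        rw [Nat.cast_natAbs, Int.cast_abs]
        exact h1
      rw [Int.abs_eq_natAbs]
      exact_mod_cast h2
    have h1 := hall J (by omega)
    obtain ⟨hη1, hη2⟩ := abs_le.1 hηJ
    obtain ⟨i, hi⟩ := Int.eq_ofNat_of_zero_le (by linarith : 0 ≤ (J : ℤ) + η)
    have h2 := hall i (by omega)
    have e1 : n - ρ * J + ρ * (J : ℤ) = n := by ring
    have e2 : n - ρ * J + ρ * (i : ℤ) = n + ρ * η := by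
      rw [← hi]
      ring
    simp only at h1 h2
    rw [e1] at h1
    rw [e2] at h2
    rw [hk]
    exact MM_trans (MM_symm h1) h2)
  rw [Set.ncard_image_of_injective _ hinj] at hmain
  have hA : (⌊x⌋₊ : ℝ) + 2 ^ (t + k) ≤ 2 * x := by linarith [Nat.floor_le hx0.le]
  have hB : C₀ * (k : ℝ) ^ (-(1 / 2 : ℝ)) *
      ((t : ℝ) + 1 + (((2 * J : ℕ) : ℝ) + 1) ^ 2 * (98 / 100) ^ t) ≤
      C₀ * (3 / Real.sqrt L) * (203 * (1 + Real.log w)) := by
    refine mul_le_mul (mul_le_mul_of_nonneg_left hkc hC₀.le) (by linarith) (by positivity)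
      (by positivity)
  calc (S.ncard : ℝ) ≤ ((⌊x⌋₊ : ℝ) + 2 ^ (t + k)) * (C₀ * (k : ℝ) ^ (-(1 / 2 : ℝ)) *
        ((t : ℝ) + 1 + (((2 * J : ℕ) : ℝ) + 1) ^ 2 * (98 / 100) ^ t)) := hmain
    _ ≤ (2 * x) * (C₀ * (3 / Real.sqrt L) * (203 * (1 + Real.log w))) :=
        mul_le_mul hA hB (by positivity) (by positivity)
    _ = 1218 * C₀ * (1 + Real.log w) / Real.sqrt L * x := by ring
    _ ≤ 1300 * C₀ * (1 + Real.log w) / Real.sqrt L * x := by
        refine mul_le_mul_of_nonneg_right ?_ hx0.le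
        refine div_le_div_of_nonneg_right ?_ hsL.le
        refine mul_le_mul_of_nonneg_right ?_ (by linarith)
        linarith

end Pool.Agent.Helper8.RU
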