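import Pool.Agent.Helper8.CO.Ly
import Pool.Agent.Helper8.CO.Rch

/-!
# RU-V1: a superharmonic function which grows linearly

As `CO.Vv`, for `Phi s + c` in place of `Phi s`: `V x ≥ c` and `av V ≤ V`, `V x ≤ 2 c + qq x + C`. At the level `0` the term `c` costs one more, which is paid by
`0.29 A qq x` for large `|β|` and by `Q` for small `|β|`.
-/

set_option autoImplicit false

namespace Pool.Agent.Helper8.RU

open Finset Pool.Agent.Helper8.CO

private theorem Phi_zero11 (s : ℝ) (b : ℤ) : Phi s (0, b) = s / 12 * gg 0 * qq (0, b) := by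
  have h : Phi s (0, b) = ff s 0 + s / 12 * gg 0 * (qq (0, b) + if (0 : ℕ) = 0 then 0 else wt (0, b)) :=
    rfl
  rw [h, if_pos rfl, ff_zero]
  ring

private theorem Phi_pos11 (s : ℝ) {c : ℕ} (hc : c ≠ 0) (b : ℤ) :
    Phi s (c, b) = ff s c + s / 12 * gg c * (qq (c, b) + wt (c, b)) := by
  have h : Phi s (c, b) = ff s c + s / 12 * gg c * (qq (c, b) + if c = 0 then 0 else wt (c, b)) :=
    rfl
  rw [h, if_neg hc]

private theorem Phi_one11 {s : ℝ} (hs : 0 < s) (b : ℤ) {q w : ℝ}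
    (hq : qq (1, b) ≤ q) (h : wt (1, b) ≤ w) :
    Phi s (1, b) ≤ 1 + s / 12 * gg 1 * (q + w) := by
  have hA : 0 ≤ s / 12 * gg 1 := mul_nonneg (by linarith) (gg_pos 1).le
  have hf : ff s 1 = 1 := by
    have h := ff_succ s 0
    rw [zero_add, ff_zero] at h
    rw [h]
    simp
  rw [Phi_pos11 s one_ne_zero, hf]
  have := mul_le_mul_of_nonneg_left (add_le_add hq h) hA
  linarith

private theorem odd_zero11 {s : ℝ} (hs : 0 < s) {b : ℤ} (hb : ¬ Even b) :
    av (Phi s) (0, b) ≤ 1 + s / 12 * gg 0 * (71 / 100 * qq (0, b) + 5 / 2) := by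
  have hv : ∀ b' : ℤ, wt (1, b') ≤ 2 := by
    intro b'
    have h := wt_le_vv (s := (1, b')) le_rfl
    have h2 : (vv ((1 : ℕ), b').1 : ℝ) = 1 := by
      show ((vv 1 : ℕ) : ℝ) = 1
      rw [vv_one, Nat.cast_one]
    rw [h2] at h
    linarith
  have e0 : nx0 (0, b) = (1, (3 * b - 1) / 2) := by rw [nx0_odd hb]
  have e1 : nx1 (0, b) = (1, -((3 * b + 1) / 2)) := nx1_odd_zero hb
  have q0 := qq_nx0 (0, b)
  have q1 := qq_nx1_odd b hb
  rw [e0] at q0
  rw [e1] at q1
  have p0 := Phi_one11 hs ((3 * b - 1) / 2) q0 (hv _)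
  have p1 := Phi_one11 hs (-((3 * b + 1) / 2)) q1 (hv _)
  have hg : gg 1 ≤ gg 0 := by simpa using gg_succ_le 0
  have hq := qq_nonneg (0, b)
  have h2 : s / 12 * gg 1 * (71 / 100 * qq (0, b) + 1 / 2 + 2) ≤
      s / 12 * gg 0 * (71 / 100 * qq (0, b) + 5 / 2) := by
    have h3 : s / 12 * gg 1 ≤ s / 12 * gg 0 := mul_le_mul_of_nonneg_left hg (by linarith)
    have h4 : (71 / 100 * qq (0, b) + 1 / 2 + 2) = 71 / 100 * qq (0, b) + 5 / 2 := by ring
    rw [h4]
    exact mul_le_mul_of_nonneg_right h3 (by linarith)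
  unfold av
  rw [e0, e1]
  linarith

private theorem qq_zero11 (b : ℤ) : qq (0, b) = Real.sqrt |(b : ℝ)| := by
  have h : qq (0, b) = Real.sqrt (|(b : ℝ)| / 3 ^ 0) := rfl
  rw [h, pow_zero, div_one]

/-- The level. -/
noncomputable def lv (x : ℕ × ℤ) : ℝ := x.1

/-- The mean of the level. -/
theorem av_lv_pos {x : ℕ × ℤ} (hx : x.1 ≠ 0) : av lv x = x.1 := by
  obtain ⟨c, b⟩ := x
  simp only at hx
  have hc1 : 1 ≤ c := Nat.one_le_iff_ne_zero.2 hx
  unfold av lv
  by_cases hb : Even b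
  · rw [nx0_even hb, nx1_even hb]
    simp only
    ring
  · rw [nx0_odd hb, nx1_odd hb hx]
    simp only
    rw [Nat.cast_sub hc1]
    push_cast
    ring

theorem av_lv_even {c : ℕ} {b : ℤ} (hb : Even b) : av lv (c, b) = c := by
  unfold av lv
  rw [nx0_even hb, nx1_even hb]
  simp only
  ring

theorem av_lv_odd_zero {b : ℤ} (hb : ¬ Even b) : av lv (0, b) = 1 := by
  unfold av lv
  rw [nx0_odd hb, nx1_odd_zero hb]
  simp only
  push_cast
  ring

theorem av_lv_le (x : ℕ × ℤ) : av lv x ≤ x.1 + 1 := by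
  by_cases hx : x.1 = 0
  · obtain ⟨c, b⟩ := x
    simp only at hx
    subst hx
    by_cases hb : Even b
    · rw [av_lv_even hb]; simp
    · rw [av_lv_odd_zero hb]; simp
  · rw [av_lv_pos hx]; linarith

theorem av_lv_ge (x : ℕ × ℤ) : (x.1 : ℝ) ≤ av lv x := by
  by_cases hx : x.1 = 0
  · obtain ⟨c, b⟩ := x
    simp only at hx
    subst hx
    by_cases hb : Even b
    · rw [av_lv_even hb]
    · rw [av_lv_odd_zero hb]; simp
  · rw [av_lv_pos hx]

private theorem drift11 {s : ℝ} (hs : 0 < s) (hs1 : s ≤ 1 / 4) : ∃ K : ℝ, ∀ x : ℕ × ℤ,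
    (x.1 = 0 ∧ |(x.2 : ℝ)| ≤ K) ∨ av (Phi s) x + av lv x ≤ Phi s x + x.1 := by
  have hA : 0 < s / 12 * gg 0 := mul_pos (by linarith) (gg_pos 0)
  obtain ⟨K, hK⟩ := Phi_drift hs hs1
  obtain ⟨κ, hκ⟩ : ∃ κ : ℝ, κ = (5 / 2 + 2 / (s / 12 * gg 0)) / (29 / 100) := ⟨_, rfl⟩
  have hκ0 : 0 ≤ κ := by
    rw [hκ]
    positivity
  refine ⟨max K (κ ^ 2), ?_⟩
  rintro ⟨c, b⟩
  by_cases hc : c = 0
  · subst hc
    by_cases hKb : |(b : ℝ)| ≤ max K (κ ^ 2)
    · exact Or.inl ⟨rfl, hKb⟩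
    · right
      push Not at hKb
      have hb1 : K < |(b : ℝ)| := lt_of_le_of_lt (le_max_left _ _) hKb
      have hb2 : κ ^ 2 < |(b : ℝ)| := lt_of_le_of_lt (le_max_right _ _) hKb
      by_cases hb : Even b
      · rw [av_lv_even hb]
        rcases hK (0, b) with h | h
        · exact absurd h.2 (not_le.2 hb1)
        · simp only
          linarith
      · rw [av_lv_odd_zero hb]
        have h0 := odd_zero11 hs hb
        rw [Phi_zero11]
        have h1 : κ ≤ qq (0, b) := by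
          rw [qq_zero11]
          exact Real.le_sqrt_of_sq_le hb2.le
        have h2 : 29 / 100 * κ = 5 / 2 + 2 / (s / 12 * gg 0) := by
          rw [hκ]
          ring
        have h3 : s / 12 * gg 0 * (29 / 100 * κ) = s / 12 * gg 0 * (5 / 2) + 2 := by
          rw [h2, mul_add, mul_div_cancel₀ _ hA.ne']
        have h4 := mul_le_mul_of_nonneg_left (mul_le_mul_of_nonneg_left h1
          (by norm_num : (0 : ℝ) ≤ 29 / 100)) hA.le
        rw [h3] at h4
        push_cast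
        linarith
  · right
    rw [av_lv_pos (x := (c, b)) hc]
    rcases hK (c, b) with h | h
    · exact absurd h.1 hc
    · linarith

/-- A superharmonic function between `c` and `2 c + qq + C`. -/
theorem exists_V1 : ∃ (V : ℕ × ℤ → ℝ) (C : ℝ), 0 < C ∧
    ∀ x : ℕ × ℤ, (x.1 : ℝ) ≤ V x ∧ V x ≤ 2 * x.1 + qq x + C ∧ av V x ≤ V x := by
  have hs : (0 : ℝ) < 1 / 4 := by norm_num
  have hs1 : (1 / 4 : ℝ) ≤ 1 / 4 := le_rfl
  obtain ⟨K, hK⟩ := drift11 hs hs1
  obtain ⟨k, p, hp, hkp⟩ := uu_lt_unif K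
  have hp2 : 0 < 3 / p := by positivity
  refine ⟨fun x => (Phi (1 / 4) x + lv x) + 3 / p * ∑ j ∈ range k, uu j x, 1 + 3 / p * k,
    by positivity, ?_⟩
  intro x
  have hQ0 : 0 ≤ ∑ j ∈ range k, uu j x := sum_nonneg fun j _ => uu_nonneg j x
  have hQ1 : ∑ j ∈ range k, uu j x ≤ k := by
    calc ∑ j ∈ range k, uu j x ≤ ∑ _j ∈ range k, (1 : ℝ) := sum_le_sum fun j _ => uu_le_one j x
      _ = k := by rw [sum_const, card_range, nsmul_eq_mul, mul_one]
  have hlv : lv x = x.1 := rfl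
  refine ⟨?_, ?_, ?_⟩
  · show (x.1 : ℝ) ≤ (Phi (1 / 4) x + lv x) + 3 / p * ∑ j ∈ range k, uu j x
    have h1 := Phi_ge hs x
    have h2 : 0 ≤ 3 / p * ∑ j ∈ range k, uu j x := mul_nonneg hp2.le hQ0
    have h3 := ff_nonneg (1 / 4) x.1
    linarith
  · show (Phi (1 / 4) x + lv x) + 3 / p * ∑ j ∈ range k, uu j x ≤ 2 * x.1 + qq x + (1 + 3 / p * k)
    have h1 := Phi_le hs hs1 x
    have h2 : 3 / p * ∑ j ∈ range k, uu j x ≤ 3 / p * k := mul_le_mul_of_nonneg_left hQ1 hp2.le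
    linarith
  · show av (fun x => (Phi (1 / 4) x + lv x) + 3 / p * ∑ j ∈ range k, uu j x) x ≤
      (Phi (1 / 4) x + lv x) + 3 / p * ∑ j ∈ range k, uu j x
    rw [av_add (fun t => Phi (1 / 4) t + lv t) (fun t => 3 / p * ∑ j ∈ range k, uu j t) x,
      av_add (Phi (1 / 4)) lv x,
      av_smul (3 / p) (fun t => ∑ j ∈ range k, uu j t) x, av_sum (range k) uu x]
    by_cases hx : x = (0, 0)
    · subst hx
      rw [av_zero, av_zero]
      refine add_le_add le_rfl (mul_le_mul_of_nonneg_left (sum_le_sum fun j _ => ?_) hp2.le)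
      rw [av_zero]
    · have h1 : ∑ j ∈ range k, av (uu j) x = ∑ j ∈ range k, uu j x - 1 + uu k x := by
        have h2 : ∑ j ∈ range k, av (uu j) x = ∑ j ∈ range k, uu (j + 1) x :=
          sum_congr rfl fun j _ => (uu_succ j x).symm
        have h3 := sum_range_succ (fun j => uu j x) k
        have h4 := sum_range_succ' (fun j => uu j x) k
        have h5 : uu 0 x = 1 := uu_zero_ne hx
        rw [h2]
        linarith
      rw [h1]
      have h6 := uu_le_one k x
      rcases hK x with h | h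
      · have h7 := hkp x h.1 h.2
        have h8 := Phi_add_two hs hs1 x
        have h8' := av_lv_le x
        have h9 : 3 / p * (∑ j ∈ range k, uu j x - 1 + uu k x) ≤
            3 / p * (∑ j ∈ range k, uu j x - p) :=
          mul_le_mul_of_nonneg_left (by linarith) hp2.le
        have h10 : 3 / p * (∑ j ∈ range k, uu j x - p) = 3 / p * ∑ j ∈ range k, uu j x - 3 := by
          field_simp
        linarith
      · have h9 : 3 / p * (∑ j ∈ range k, uu j x - 1 + uu k x) ≤ 3 / p * ∑ j ∈ range k, uu j x :=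
          mul_le_mul_of_nonneg_left (by linarith) hp2.le
        linarith

end Pool.Agent.Helper8.RU
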