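import Pool.Agent.Helper8.RU.V1

/-!
# RU-V2: the exit time from the levels `< M` is of the order `M ^ 2`

`W c = vv c + 1` bounds the waiting time for an odd `β` at the level `c ≥ 1`, `W 0 = W₀`. `∑_{j < n} vv j ≤ 6 n`. The potential `F` has
`F c - (F (c - 1) + F (c + 1)) / 2 = g c` (`1 ≤ c < M`), `F 0 - F 1 = g 0`, `F M = 0`, where `g c = 1 + (W (c - 1) + W (c + 1)) / 2`, `g 0 = 1 + W 1`; so
`Ψ x = F x.1 + wt x` has `av Ψ x ≤ Ψ x - 1`, and `F ≤ 40 M ^ 2 + W₀ M`.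
-/

set_option autoImplicit false

namespace Pool.Agent.Helper8.RU

open Finset Pool.Agent.Helper8.CO

/-! ### The valuations -/

theorem vv_zero : vv 0 = 0 := by
  unfold vv
  simp

theorem vv_odd {c : ℕ} (hc : Odd c) : vv c = 1 := by
  have h1 : 1 ≤ c := hc.pos
  have h2 := vv_pos h1
  by_contra h
  have h3 : 2 ≤ vv c := by omega
  have h4 : 2 ^ vv c ∣ 3 ^ c - 1 := pow_padicValNat_dvd
  have h5 : 4 ∣ 3 ^ c - 1 := by
    have : (4 : ℕ) = 2 ^ 2 := by norm_num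
    rw [this]
    exact (pow_dvd_pow 2 h3).trans h4
  obtain ⟨k, hk⟩ := hc
  have h6 : 3 ^ c % 4 = 3 := by
    rw [hk, pow_succ, pow_mul, Nat.mul_mod, Nat.pow_mod]
    norm_num
  have h7 : 1 ≤ 3 ^ c := Nat.one_le_pow _ _ (by norm_num)
  clear h4 h3 h2 h hk
  generalize 3 ^ c = X at h5 h6 h7
  omega

theorem vv_even {c : ℕ} (hc : 1 ≤ c) (he : Even c) : vv c = padicValNat 2 c + 2 := by
  have h1 := padicValNat.pow_two_sub_pow (x := 3) (y := 1) (by norm_num) (by norm_num)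
    (by norm_num) (n := c) (by omega) he
  have h2 : padicValNat 2 (3 + 1) = 2 := by
    have : (3 + 1 : ℕ) = 2 ^ 2 := by norm_num
    rw [this, padicValNat.prime_pow]
  have h3 : padicValNat 2 (3 - 1) = 1 := by
    have : (3 - 1 : ℕ) = 2 := by norm_num
    rw [this]
    exact padicValNat.self (by norm_num)
  rw [one_pow, h2, h3] at h1
  unfold vv
  omega

theorem vv_two_mul (c : ℕ) : vv (2 * c) ≤ vv c + 2 := by
  rcases Nat.eq_zero_or_pos c with h | h
  · subst h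
    simp [vv_zero]
  · have h1 : padicValNat 2 (2 * c) = padicValNat 2 c + 1 := by
      rw [padicValNat.mul (by norm_num) (by omega), padicValNat.self (by norm_num)]
      ring
    rw [vv_even (by omega) (even_two_mul c), h1]
    rcases Nat.even_or_odd c with he | ho
    · rw [vv_even h he]
      omega
    · rw [vv_odd ho]
      have : padicValNat 2 c = 0 := padicValNat.eq_zero_of_not_dvd (by
        intro h2
        exact (Nat.not_even_iff_odd.2 ho) (even_iff_two_dvd.2 h2))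
      omega

private theorem sum_two12 (f : ℕ → ℕ) (m : ℕ) :
    ∑ j ∈ range (2 * m), f j = ∑ c ∈ range m, (f (2 * c) + f (2 * c + 1)) := by
  induction m with
  | zero => simp
  | succ m ih =>
    rw [show 2 * (m + 1) = 2 * m + 1 + 1 by ring, sum_range_succ, sum_range_succ, ih, sum_range_succ]
    ring

theorem sum_vv (n : ℕ) : ∑ j ∈ range n, vv j ≤ 6 * n := by
  induction n using Nat.strong_induction_on with
  | _ n ih =>
    have hb : ∀ m : ℕ, ∑ j ∈ range (2 * m), vv j ≤ ∑ c ∈ range m, vv c + 3 * m := by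
      intro m
      rw [sum_two12]
      have h1 : ∑ c ∈ range m, (vv (2 * c) + vv (2 * c + 1)) ≤ ∑ c ∈ range m, (vv c + 3) :=
        sum_le_sum fun c _ => by
          have h2 := vv_two_mul c
          have h3 : vv (2 * c + 1) = 1 := vv_odd ⟨c, rfl⟩
          omega
      have h4 : ∑ c ∈ range m, (vv c + 3) = ∑ c ∈ range m, vv c + 3 * m := by
        rw [sum_add_distrib, sum_const, card_range, smul_eq_mul]
        ring
      omega
    rcases Nat.even_or_odd n with he | ho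
    · obtain ⟨m, rfl⟩ := he
      rcases Nat.eq_zero_or_pos m with hm | hm
      · subst hm
        simp
      · have h1 := ih m (by omega)
        have h2 := hb m
        rw [show m + m = 2 * m by ring]
        omega
    · obtain ⟨m, rfl⟩ := ho
      rcases Nat.eq_zero_or_pos m with hm | hm
      · subst hm
        simp [vv_zero]
      · have h1 := ih (m + 1) (by omega)
        have h2 := hb m
        have h3 := vv_two_mul m
        rw [sum_range_succ] at h1 ⊢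
        omega

/-! ### The potential -/

/-- The bound for the waiting time. -/
noncomputable def WW (W₀ : ℝ) : ℕ → ℝ
  | 0 => W₀
  | c + 1 => (vv (c + 1) : ℝ) + 1

/-- The density. -/
noncomputable def gd (W₀ : ℝ) : ℕ → ℝ
  | 0 => 1 + WW W₀ 1
  | i + 1 => 1 + (WW W₀ i + WW W₀ (i + 2)) / 2

/-- The slope. -/
noncomputable def sl (W₀ : ℝ) (i : ℕ) : ℝ := gd W₀ 0 + 2 * ∑ j ∈ range i, gd W₀ (j + 1)

/-- The potential. -/
noncomputable def FF (W₀ : ℝ) (M c : ℕ) : ℝ := ∑ i ∈ Ico c M, sl W₀ i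

theorem WW_nonneg {W₀ : ℝ} (h : 0 ≤ W₀) (c : ℕ) : 0 ≤ WW W₀ c := by
  cases c with
  | zero => exact h
  | succ c =>
    show 0 ≤ (vv (c + 1) : ℝ) + 1
    positivity

theorem gd_nonneg {W₀ : ℝ} (h : 0 ≤ W₀) (i : ℕ) : 0 ≤ gd W₀ i := by
  cases i with
  | zero =>
    show 0 ≤ 1 + WW W₀ 1
    linarith [WW_nonneg h 1]
  | succ i =>
    show 0 ≤ 1 + (WW W₀ i + WW W₀ (i + 2)) / 2
    linarith [WW_nonneg h i, WW_nonneg h (i + 2)]

theorem sl_nonneg {W₀ : ℝ} (h : 0 ≤ W₀) (i : ℕ) : 0 ≤ sl W₀ i := by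
  unfold sl
  have h1 := gd_nonneg h 0
  have h2 : 0 ≤ ∑ j ∈ range i, gd W₀ (j + 1) := sum_nonneg fun j _ => gd_nonneg h _
  linarith

theorem FF_nonneg {W₀ : ℝ} (h : 0 ≤ W₀) (M c : ℕ) : 0 ≤ FF W₀ M c :=
  sum_nonneg fun i _ => sl_nonneg h i

theorem FF_succ {W₀ : ℝ} {M c : ℕ} (hc : c < M) : FF W₀ M c = sl W₀ c + FF W₀ M (c + 1) :=
  sum_eq_sum_Ico_succ_bot hc _

theorem FF_le_zero {W₀ : ℝ} (h : 0 ≤ W₀) (M c : ℕ) : FF W₀ M c ≤ FF W₀ M 0 := by
  unfold FF
  exact sum_le_sum_of_subset_of_nonneg (Ico_subset_Ico_left (Nat.zero_le c)) fun i _ _ => sl_nonneg h i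

theorem sl_succ (W₀ : ℝ) (i : ℕ) : sl W₀ (i + 1) = sl W₀ i + 2 * gd W₀ (i + 1) := by
  unfold sl
  rw [sum_range_succ]
  ring

/-- The sum of the bounds for the waiting times. -/
theorem sum_WW {W₀ : ℝ} (n : ℕ) : ∑ j ∈ range n, WW W₀ (j + 1) ≤ 7 * n + 6 := by
  have h1 : ∑ j ∈ range n, WW W₀ (j + 1) = ∑ j ∈ range n, ((vv (j + 1) : ℝ) + 1) :=
    sum_congr rfl fun j _ => rfl
  rw [h1, sum_add_distrib, sum_const, card_range, nsmul_eq_mul, mul_one]
  have h2 := sum_vv (n + 1)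
  rw [sum_range_succ', vv_zero, add_zero] at h2
  have h3 : ∑ j ∈ range n, (vv (j + 1) : ℝ) ≤ 6 * (n + 1) := by exact_mod_cast h2
  linarith

theorem sl_le {W₀ : ℝ} (h : 0 ≤ W₀) (i : ℕ) : sl W₀ i ≤ 16 * i + 40 + W₀ := by
  have h0 : gd W₀ 0 = 3 := by
    show 1 + ((vv (0 + 1) : ℝ) + 1) = 3
    rw [zero_add, vv_one]
    norm_num
  unfold sl
  rw [h0]
  have h1 : ∑ j ∈ range i, gd W₀ (j + 1) =
      i + (∑ j ∈ range i, WW W₀ j + ∑ j ∈ range i, WW W₀ (j + 2)) / 2 := by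
    have : ∑ j ∈ range i, gd W₀ (j + 1) = ∑ j ∈ range i, (1 + (WW W₀ j + WW W₀ (j + 2)) / 2) :=
      sum_congr rfl fun j _ => rfl
    rw [this, sum_add_distrib, sum_const, card_range, nsmul_eq_mul, mul_one, ← sum_div,
      sum_add_distrib]
  rw [h1]
  have h2 : ∑ j ∈ range i, WW W₀ j ≤ W₀ + 7 * i + 6 := by
    rcases Nat.eq_zero_or_pos i with hi | hi
    · subst hi
      simp
      linarith
    · obtain ⟨k, rfl⟩ : ∃ k, i = k + 1 := ⟨i - 1, by omega⟩
      rw [sum_range_succ']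
      have := sum_WW (W₀ := W₀) k
      have h3 : WW W₀ 0 = W₀ := rfl
      rw [h3]
      push_cast
      linarith
  have h3 : ∑ j ∈ range i, WW W₀ (j + 2) ≤ 7 * i + 13 := by
    have := sum_WW (W₀ := W₀) (i + 1)
    rw [sum_range_succ'] at this
    have h4 := WW_nonneg h (0 + 1)
    push_cast at this
    linarith
  linarith

theorem FF_le {W₀ : ℝ} (h : 0 ≤ W₀) {M : ℕ} (hM : 1 ≤ M) (c : ℕ) :
    FF W₀ M c ≤ 56 * (M : ℝ) ^ 2 + W₀ * M := by
  refine (FF_le_zero h M c).trans ?_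
  have hM1 : (1 : ℝ) ≤ M := by exact_mod_cast hM
  have h1 : FF W₀ M 0 ≤ ∑ _i ∈ range M, (16 * (M : ℝ) + 40 + W₀) := by
    unfold FF
    rw [← range_eq_Ico]
    refine sum_le_sum fun i hi => ?_
    have h2 : (i : ℝ) ≤ M := by exact_mod_cast (mem_range.1 hi).le
    have h3 := sl_le h i
    linarith
  rw [sum_const, card_range, nsmul_eq_mul] at h1
  nlinarith

theorem FF_big {W₀ : ℝ} {M c : ℕ} (hc : M ≤ c) : FF W₀ M c = 0 := by
  unfold FF
  rw [Ico_eq_empty_of_le hc, sum_empty]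

/-- `Ψ`. -/
noncomputable def Psi (W₀ : ℝ) (M : ℕ) (x : ℕ × ℤ) : ℝ := FF W₀ M x.1 + wt x

theorem Psi_nonneg {W₀ : ℝ} (h : 0 ≤ W₀) (M : ℕ) (x : ℕ × ℤ) : 0 ≤ Psi W₀ M x :=
  add_nonneg (FF_nonneg h M x.1) (wt_nonneg x)

private theorem wt_le12 {W₀ : ℝ} {c : ℕ} {b : ℤ} (hc : 1 ≤ c) : wt (c, b) ≤ WW W₀ c := by
  obtain ⟨k, rfl⟩ : ∃ k, c = k + 1 := ⟨c - 1, by omega⟩
  exact wt_le_vv (s := (k + 1, b)) hc

theorem Psi_drift {W₀ : ℝ} {M : ℕ} {x : ℕ × ℤ} (h0 : x ≠ (0, 0))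
    (hx : x.1 < M) (h : x.1 = 1 → wt (nx1 x) ≤ W₀ ∨ (nx1 x).1 ≠ 0) :
    av (Psi W₀ M) x ≤ Psi W₀ M x - 1 := by
  obtain ⟨c, b⟩ := x
  simp only at hx h
  by_cases hb : Even b
  · have hst := wt_step (s := (c, b)) hb h0
    unfold av Psi at *
    rw [nx0_even hb, nx1_even hb] at hst ⊢
    simp only at hst ⊢
    linarith
  · have hwt : wt (c, b) = 0 := wt_odd hb
    rcases Nat.eq_zero_or_pos c with hc | hc
    · subst hc
      unfold av Psi
      rw [nx0_odd hb, nx1_odd_zero hb, hwt]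
      simp only
      have h1 : wt (0 + 1, (3 * b - 1) / 2) ≤ WW W₀ 1 := wt_le12 (by omega)
      have h2 : wt (1, -((3 * b + 1) / 2)) ≤ WW W₀ 1 := wt_le12 (by omega)
      have h3 := FF_succ (W₀ := W₀) hx
      have h4 : sl W₀ 0 = 1 + WW W₀ 1 := by
        unfold sl
        rw [sum_range_zero, mul_zero, add_zero]
        rfl
      rw [h4] at h3
      rw [zero_add] at h1 h3 ⊢
      linarith
    · unfold av Psi
      rw [nx1_odd hb (by omega)] at h
      rw [nx0_odd hb, nx1_odd hb (by omega), hwt]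
      simp only at h ⊢
      obtain ⟨k, rfl⟩ : ∃ k, c = k + 1 := ⟨c - 1, by omega⟩
      rw [Nat.add_sub_cancel] at h ⊢
      have h1 : wt (k + 1 + 1, (3 * b - 1) / 2) ≤ WW W₀ (k + 2) := wt_le12 (by omega)
      have h2 : wt (k, (b + (3 : ℤ) ^ k) / 2) ≤ WW W₀ k := by
        rcases Nat.eq_zero_or_pos k with hk | hk
        · subst hk
          rcases h rfl with h' | h'
          · exact h'
          · exact absurd rfl h'
        · exact wt_le12 hk
      have h3 := FF_succ (W₀ := W₀) hx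
      have h4 := FF_succ (W₀ := W₀) (M := M) (c := k) (by omega)
      have h5 := sl_succ W₀ k
      have h6 : gd W₀ (k + 1) = 1 + (WW W₀ k + WW W₀ (k + 2)) / 2 := rfl
      rw [h6] at h5
      linarith

end Pool.Agent.Helper8.RU
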