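import Pool.Agent.Helper8.RU.V2

/-!
# RU-V3: the sharp rate of coalescence: `uu k (c, β) ≤ D (c + qq + 1) / √k`

`Gf x = 1 + Ψ x / B`, `B = 62 M ^ 2`: `1 ≤ Gf ≤ 2` (`x.1 < M`), `av Gf ≤ (1 - 1 / (2 B)) Gf`. By induction
`uu k x ≤ V x / M + (qq x + k) / q + (1 - λ) ^ k Gf x`, `λ = 1 / (2 B)`, so `uu (j + k) x ≤ V x / M + (qq x + j + k) / q + 2 (1 - λ) ^ k uu j x`. With
`M ≈ √k / 42`, `q = k ^ 2`, `j = k / 2` this is `≤ 84 V x / √k + (qq x + 1) / √k + uu j x / 4`, and the rate follows by induction.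
-/

set_option autoImplicit false

namespace Pool.Agent.Helper8.RU

open Finset Pool.Agent.Helper8.CO

section
variable {V : ℕ × ℤ → ℝ} {M : ℕ} {W₀ q : ℝ}

private theorem wt_lt13 (hM : 1 ≤ M) (hW : W₀ ≤ M) {x : ℕ × ℤ} (hx : x.1 < M)
    (h : x.1 = 0 → wt x ≤ W₀) : wt x ≤ 5 * (M : ℝ) := by
  have hM1 : (1 : ℝ) ≤ M := by exact_mod_cast hM
  rcases Nat.eq_zero_or_pos x.1 with h0 | h0
  · have := h h0
    linarith
  · have h1 := wt_le_sqrt (s := x) h0
    have h2 : Real.sqrt x.1 ≤ M := by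
      rw [Real.sqrt_le_left (by linarith)]
      have h3 : (x.1 : ℝ) ≤ M := by exact_mod_cast hx.le
      nlinarith
    linarith

private theorem Psi_le13 (hM : 1 ≤ M) (hW0 : 0 ≤ W₀) (hW : W₀ ≤ M) {x : ℕ × ℤ} (hx : x.1 < M)
    (h : x.1 = 0 → wt x ≤ W₀) : Psi W₀ M x ≤ 62 * (M : ℝ) ^ 2 := by
  have hM1 : (1 : ℝ) ≤ M := by exact_mod_cast hM
  have h1 := FF_le hW0 hM x.1
  have h2 := wt_lt13 hM hW hx h
  unfold Psi
  nlinarith

theorem uu_le_U1 (hV : ∀ x : ℕ × ℤ, (x.1 : ℝ) ≤ V x) (hV' : ∀ x : ℕ × ℤ, av V x ≤ V x) (hM : 1 ≤ M)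
    (hW0 : 0 ≤ W₀) (hW : W₀ ≤ M) (hq : 0 < q)
    (hw0 : ∀ x : ℕ × ℤ, qq x ≤ q → x.1 = 0 → wt x ≤ W₀)
    (hw1 : ∀ x : ℕ × ℤ, qq x ≤ q → (nx1 x).1 = 0 → wt (nx1 x) ≤ W₀)
    (k : ℕ) (x : ℕ × ℤ) :
    uu k x ≤ V x / M + (qq x + k) / q +
      (1 - 1 / (124 * (M : ℝ) ^ 2)) ^ k * (1 + Psi W₀ M x / (62 * (M : ℝ) ^ 2)) := by
  have hM0 : (1 : ℝ) ≤ M := by exact_mod_cast hM
  have hMp : (0 : ℝ) < (M : ℝ) := by linarith
  have hM2 : (1 : ℝ) ≤ (M : ℝ) ^ 2 := by nlinarith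
  have hden : (1 : ℝ) ≤ 124 * (M : ℝ) ^ 2 := by linarith
  set r : ℝ := 1 - 1 / (124 * (M : ℝ) ^ 2) with hr
  have hr0 : 0 ≤ r := by
    rw [hr, sub_nonneg, div_le_one (by linarith)]
    exact hden
  have hVn : ∀ x : ℕ × ℤ, 0 ≤ V x := fun x => (Nat.cast_nonneg _).trans (hV x)
  have hA : ∀ x, 0 ≤ V x / (M : ℝ) := fun x => div_nonneg (hVn x) hMp.le
  have hB : ∀ (k : ℕ) x, 0 ≤ (qq x + k) / q := fun k x =>
    div_nonneg (add_nonneg (qq_nonneg x) (Nat.cast_nonneg k)) hq.le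
  have hG1 : ∀ x, 1 ≤ 1 + Psi W₀ M x / (62 * (M : ℝ) ^ 2) := fun x => by
    have := div_nonneg (Psi_nonneg hW0 M x) (by positivity : (0 : ℝ) ≤ 62 * (M : ℝ) ^ 2)
    linarith
  have hC : ∀ (k : ℕ) x, 0 ≤ r ^ k * (1 + Psi W₀ M x / (62 * (M : ℝ) ^ 2)) := fun k x =>
    mul_nonneg (pow_nonneg hr0 k) (by linarith [hG1 x])
  have hout : ∀ (k : ℕ) (x : ℕ × ℤ), M ≤ x.1 → uu k x ≤ V x / M := by
    intro k x hx
    refine (uu_le_one k x).trans ?_
    rw [le_div_iff₀ hMp, one_mul]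
    have : (M : ℝ) ≤ x.1 := by exact_mod_cast hx
    exact this.trans (hV x)
  induction k generalizing x with
  | zero =>
    have h1 := hG1 x
    have h2 := uu_le_one 0 x
    rw [pow_zero, one_mul]
    linarith [hA x, hB 0 x]
  | succ k ih =>
    by_cases h0 : x = (0, 0)
    · subst h0
      rw [uu_merged]
      linarith [hA (0, 0), hB (k + 1) (0, 0), hC (k + 1) (0, 0)]
    by_cases hx : x.1 < M
    swap
    · push Not at hx
      linarith [hC (k + 1) x, hB (k + 1) x, hout (k + 1) x hx]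
    by_cases hqx : qq x ≤ q
    swap
    · push Not at hqx
      have h2 := uu_le_one (k + 1) x
      have h3 : (1 : ℝ) ≤ (qq x + (k + 1 : ℕ)) / q := by
        rw [le_div_iff₀ hq, one_mul]
        have : (0 : ℝ) ≤ ((k + 1 : ℕ) : ℝ) := Nat.cast_nonneg _
        linarith
      linarith [hC (k + 1) x, hA x]
    have hd : av (Psi W₀ M) x ≤ Psi W₀ M x - 1 := by
      refine Psi_drift h0 hx fun _ => ?_
      by_cases h1 : (nx1 x).1 = 0
      · exact Or.inl (hw1 x hqx h1)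
      · exact Or.inr h1
    have hP := Psi_le13 hM hW0 hW hx (hw0 x hqx)
    have hVd := hV' x
    have hqd := av_qq x
    have hqx0 := qq_nonneg x
    rw [uu_succ]
    have e1 : av (uu k) x ≤ av V x / (M : ℝ) + (av qq x + k) / q +
        r ^ k * (1 + av (Psi W₀ M) x / (62 * (M : ℝ) ^ 2)) := by
      unfold av
      have i0 := ih (nx0 x)
      have i1 := ih (nx1 x)
      have e : (V (nx0 x) + V (nx1 x)) / 2 / (M : ℝ) +
          ((qq (nx0 x) + qq (nx1 x)) / 2 + k) / q +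
          r ^ k * (1 + (Psi W₀ M (nx0 x) + Psi W₀ M (nx1 x)) / 2 / (62 * (M : ℝ) ^ 2)) =
          ((V (nx0 x) / (M : ℝ) + (qq (nx0 x) + k) / q +
            r ^ k * (1 + Psi W₀ M (nx0 x) / (62 * (M : ℝ) ^ 2))) +
          (V (nx1 x) / (M : ℝ) + (qq (nx1 x) + k) / q +
            r ^ k * (1 + Psi W₀ M (nx1 x) / (62 * (M : ℝ) ^ 2)))) / 2 := by
        ring
      rw [e]
      linarith
    have e2 : av V x / (M : ℝ) ≤ V x / (M : ℝ) :=
      div_le_div_of_nonneg_right hVd hMp.le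
    have e3 : (av qq x + k) / q ≤ (qq x + ((k + 1 : ℕ) : ℝ)) / q := by
      refine div_le_div_of_nonneg_right ?_ hq.le
      push_cast
      linarith
    have e4 : 1 + av (Psi W₀ M) x / (62 * (M : ℝ) ^ 2) ≤
        r * (1 + Psi W₀ M x / (62 * (M : ℝ) ^ 2)) := by
      obtain ⟨B, hB⟩ : ∃ B : ℝ, B = 62 * (M : ℝ) ^ 2 := ⟨_, rfl⟩
      have hB0 : 0 < B := by rw [hB]; positivity
      have hrB : r = 1 - 1 / (2 * B) := by rw [hr, hB]; ring_nf
      rw [← hB] at hP ⊢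
      rw [hrB]
      have h1 : av (Psi W₀ M) x / B ≤ (Psi W₀ M x - 1) / B := div_le_div_of_nonneg_right hd hB0.le
      have h2 : (1 - 1 / (2 * B)) * (1 + Psi W₀ M x / B) =
          1 + Psi W₀ M x / B - 1 / (2 * B) * (1 + Psi W₀ M x / B) := by ring
      rw [h2]
      have h3 : 1 / (2 * B) * (1 + Psi W₀ M x / B) ≤ 1 / (2 * B) * 2 := by
        apply mul_le_mul_of_nonneg_left _ (by positivity)
        have : Psi W₀ M x / B ≤ 1 := (div_le_one hB0).2 hP
        linarith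
      have h4 : 1 / (2 * B) * 2 = 1 / B := by field_simp
      have h5 : (Psi W₀ M x - 1) / B = Psi W₀ M x / B - 1 / B := by ring
      linarith
    have e5 : r ^ k * (1 + av (Psi W₀ M) x / (62 * (M : ℝ) ^ 2)) ≤
        r ^ (k + 1) * (1 + Psi W₀ M x / (62 * (M : ℝ) ^ 2)) := by
      have h5 : r ^ (k + 1) * (1 + Psi W₀ M x / (62 * (M : ℝ) ^ 2)) =
          r ^ k * (r * (1 + Psi W₀ M x / (62 * (M : ℝ) ^ 2))) := by ring
      rw [h5]
      exact mul_le_mul_of_nonneg_left e4 (pow_nonneg hr0 k)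
    linarith

theorem uu_two (hV : ∀ x : ℕ × ℤ, (x.1 : ℝ) ≤ V x) (hV' : ∀ x : ℕ × ℤ, av V x ≤ V x) (hM : 1 ≤ M)
    (hW0 : 0 ≤ W₀) (hW : W₀ ≤ M) (hq : 0 < q)
    (hw0 : ∀ x : ℕ × ℤ, qq x ≤ q → x.1 = 0 → wt x ≤ W₀)
    (hw1 : ∀ x : ℕ × ℤ, qq x ≤ q → (nx1 x).1 = 0 → wt (nx1 x) ≤ W₀)
    (k j : ℕ) (x : ℕ × ℤ) :
    uu (j + k) x ≤ V x / M + (qq x + (j + k : ℕ)) / q +
      2 * (1 - 1 / (124 * (M : ℝ) ^ 2)) ^ k * uu j x := by
  have hM0 : (1 : ℝ) ≤ M := by exact_mod_cast hM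
  have hMp : (0 : ℝ) < (M : ℝ) := by linarith
  have hM2 : (1 : ℝ) ≤ (M : ℝ) ^ 2 := by nlinarith
  have hden : (1 : ℝ) ≤ 124 * (M : ℝ) ^ 2 := by linarith
  have hU := uu_le_U1 hV hV' hM hW0 hW hq hw0 hw1 k
  set r : ℝ := 1 - 1 / (124 * (M : ℝ) ^ 2) with hr
  have hr0 : 0 ≤ r := by
    rw [hr, sub_nonneg, div_le_one (by linarith)]
    exact hden
  have hVn : ∀ x : ℕ × ℤ, 0 ≤ V x := fun x => (Nat.cast_nonneg _).trans (hV x)
  have hA : ∀ x, 0 ≤ V x / (M : ℝ) := fun x => div_nonneg (hVn x) hMp.le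
  have hB : ∀ (k : ℕ) x, 0 ≤ (qq x + k) / q := fun k x =>
    div_nonneg (add_nonneg (qq_nonneg x) (Nat.cast_nonneg k)) hq.le
  induction j generalizing x with
  | zero =>
    rw [zero_add]
    have hC : 0 ≤ 2 * r ^ k * uu 0 x := mul_nonneg (mul_nonneg (by norm_num) (pow_nonneg hr0 k))
      (uu_nonneg 0 x)
    by_cases h0 : x = (0, 0)
    · subst h0
      rw [uu_merged]
      linarith [hA (0, 0), hB k (0, 0)]
    by_cases hx : x.1 < M
    swap
    · push Not at hx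
      have h1 : uu k x ≤ V x / M := by
        refine (uu_le_one k x).trans ?_
        rw [le_div_iff₀ hMp, one_mul]
        have : (M : ℝ) ≤ x.1 := by exact_mod_cast hx
        exact this.trans (hV x)
      linarith [hB k x]
    by_cases hqx : qq x ≤ q
    swap
    · push Not at hqx
      have h2 := uu_le_one k x
      have h3 : (1 : ℝ) ≤ (qq x + k) / q := by
        rw [le_div_iff₀ hq, one_mul]
        have : (0 : ℝ) ≤ (k : ℝ) := Nat.cast_nonneg _
        linarith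
      linarith [hA x]
    have hP := Psi_le13 hM hW0 hW hx (hw0 x hqx)
    have h1 : Psi W₀ M x / (62 * (M : ℝ) ^ 2) ≤ 1 := (div_le_one (by positivity)).2 hP
    have h2 : r ^ k * (1 + Psi W₀ M x / (62 * (M : ℝ) ^ 2)) ≤ r ^ k * 2 :=
      mul_le_mul_of_nonneg_left (by linarith) (pow_nonneg hr0 k)
    rw [uu_zero_ne h0, mul_one]
    linarith [hU x]
  | succ j ih =>
    rw [show j + 1 + k = (j + k) + 1 by ring, uu_succ, uu_succ]
    have hqd := av_qq x
    have hqx0 := qq_nonneg x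
    have e1 : av (uu (j + k)) x ≤ av V x / (M : ℝ) + (av qq x + (j + k : ℕ)) / q +
        2 * r ^ k * av (uu j) x := by
      unfold av
      have i0 := ih (nx0 x)
      have i1 := ih (nx1 x)
      have e : (V (nx0 x) + V (nx1 x)) / 2 / (M : ℝ) +
          ((qq (nx0 x) + qq (nx1 x)) / 2 + (j + k : ℕ)) / q +
          2 * r ^ k * ((uu j (nx0 x) + uu j (nx1 x)) / 2) =
          ((V (nx0 x) / (M : ℝ) + (qq (nx0 x) + (j + k : ℕ)) / q + 2 * r ^ k * uu j (nx0 x)) +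
          (V (nx1 x) / (M : ℝ) + (qq (nx1 x) + (j + k : ℕ)) / q + 2 * r ^ k * uu j (nx1 x))) / 2 := by
        ring
      rw [e]
      linarith
    have e2 : av V x / (M : ℝ) ≤ V x / (M : ℝ) :=
      div_le_div_of_nonneg_right (hV' x) hMp.le
    have e3 : (av qq x + (j + k : ℕ)) / q ≤ (qq x + ((j + k + 1 : ℕ) : ℝ)) / q := by
      refine div_le_div_of_nonneg_right ?_ hq.le
      push_cast
      linarith
    linarith

end

private theorem bern13 {l : ℝ} (h0 : 0 ≤ l) (h1 : l ≤ 1) (n : ℕ) (h : 7 ≤ n * l) :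
    (1 - l) ^ n ≤ 1 / 8 := by
  have h2 := one_add_mul_le_pow (a := l) (by linarith) n
  have h3 : (1 - l) ^ n * (1 + l) ^ n ≤ 1 := by
    rw [← mul_pow]
    refine pow_le_one₀ (mul_nonneg (by linarith) (by linarith)) ?_
    nlinarith
  have h4 : 0 ≤ (1 - l) ^ n := pow_nonneg (by linarith) n
  have h5 : 8 ≤ (1 + l) ^ n := by linarith
  have h6 : (1 - l) ^ n * 8 ≤ 1 := (mul_le_mul_of_nonneg_left h5 h4).trans h3
  linarith

private theorem wt_zero13 {x : ℕ × ℤ} (hx : x.1 = 0) {k : ℝ} (hk : 2 ≤ k) (hq : qq x ≤ 2 * k ^ 2) :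
    wt x ≤ 8 + 8 * Real.log k := by
  have h1 := wt_log x
  rw [hx, Nat.cast_zero, zero_add, Real.log_one, mul_zero, add_zero] at h1
  have hZ : Zs x = qq x ^ 2 := by
    unfold qq
    rw [Real.sq_sqrt (Zs_nonneg x)]
  have h2 : Zs x + 1 ≤ 5 * k ^ 4 := by
    rw [hZ]
    have h3 : qq x ^ 2 ≤ (2 * k ^ 2) ^ 2 := pow_le_pow_left₀ (qq_nonneg x) hq 2
    have h4 : (1 : ℝ) ≤ k ^ 4 := one_le_pow₀ (by linarith)
    nlinarith
  have h3 : Real.log (Zs x + 1) ≤ Real.log (5 * k ^ 4) :=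
    Real.log_le_log (by linarith [Zs_nonneg x]) h2
  rw [Real.log_mul (by norm_num) (by positivity), Real.log_pow] at h3
  have h4 : Real.log 5 ≤ 2 := by
    rw [Real.log_le_iff_le_exp (by norm_num)]
    have h5 := Real.add_one_le_exp (1 : ℝ)
    have h6 : Real.exp 2 = Real.exp 1 * Real.exp 1 := by rw [← Real.exp_add]; norm_num
    have h7 := Real.exp_one_gt_d9
    rw [h6]
    nlinarith
  push_cast at h3
  linarith

/-- The sharp rate. -/
theorem uu_sharp : ∃ D : ℝ, 0 < D ∧ ∀ (k : ℕ) (x : ℕ × ℤ), 1 ≤ k →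
    uu k x ≤ D * (x.1 + qq x + 1) / Real.sqrt k := by
  obtain ⟨V, C, hC, hVV⟩ := exists_V1
  have hV : ∀ x : ℕ × ℤ, (x.1 : ℝ) ≤ V x := fun x => (hVV x).1
  have hV' : ∀ x : ℕ × ℤ, av V x ≤ V x := fun x => (hVV x).2.2
  have hVn : ∀ x : ℕ × ℤ, 0 ≤ V x := fun x => (Nat.cast_nonneg _).trans (hV x)
  -- the threshold
  have hlim : ∀ᶠ y : ℝ in Filter.atTop, 8 + 8 * Real.log y ≤ Real.sqrt y / 84 := by
    have h1 : (fun y : ℝ => Real.log y) =o[Filter.atTop] fun y : ℝ => y ^ (1 / 2 : ℝ) :=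
      isLittleO_log_rpow_atTop (by norm_num)
    have h2 := h1.bound (by norm_num : (0 : ℝ) < 1 / 1344)
    have h3 : ∀ᶠ y : ℝ in Filter.atTop, (1344 : ℝ) ≤ y ^ (1 / 2 : ℝ) :=
      (tendsto_rpow_atTop (by norm_num : (0 : ℝ) < 1 / 2)).eventually_ge_atTop _
    filter_upwards [h2, h3, Filter.eventually_ge_atTop (1 : ℝ)] with y hy hy2 hy1
    rw [Real.norm_of_nonneg (Real.log_nonneg hy1), Real.norm_of_nonneg (by positivity)] at hy
    rw [Real.sqrt_eq_rpow]
    linarith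
  obtain ⟨Y, hY⟩ := Filter.eventually_atTop.1 hlim
  obtain ⟨k₀, hk₀⟩ := exists_nat_ge (max Y 1764)
  have hk₀Y : Y ≤ k₀ := (le_max_left _ _).trans hk₀
  have hk₀1 : (1764 : ℝ) ≤ k₀ := (le_max_right _ _).trans hk₀
  obtain ⟨D, hD⟩ : ∃ D : ℝ, D = Real.sqrt k₀ + 150 := ⟨_, rfl⟩
  have hD0 : 0 < D := by rw [hD]; positivity
  have hmain : ∀ (k : ℕ), 1 ≤ k → ∀ x : ℕ × ℤ, uu k x ≤ D * (V x + qq x + 1) / Real.sqrt k := by
    intro k
    induction k using Nat.strong_induction_on with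
    | _ k ih =>
      intro hk x
      have hk1 : (1 : ℝ) ≤ k := by exact_mod_cast hk
      have hsk : 0 < Real.sqrt k := Real.sqrt_pos.2 (by linarith)
      have hX1 : 1 ≤ V x + qq x + 1 := by linarith [hVn x, qq_nonneg x]
      by_cases hkk : k < k₀
      · rw [le_div_iff₀ hsk]
        have h1 : Real.sqrt k ≤ Real.sqrt k₀ := Real.sqrt_le_sqrt (by exact_mod_cast hkk.le)
        have h2 : Real.sqrt k ≤ D := by rw [hD]; linarith
        calc uu k x * Real.sqrt k ≤ 1 * D := mul_le_mul (uu_le_one k x) h2 hsk.le (by norm_num)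
          _ ≤ D * (V x + qq x + 1) := by nlinarith
      push Not at hkk
      have hkk' : (k₀ : ℝ) ≤ k := by exact_mod_cast hkk
      have hk17 : (1764 : ℝ) ≤ k := hk₀1.trans hkk'
      have hs42 : 42 ≤ Real.sqrt k := by
        rw [Real.le_sqrt' (by norm_num)]
        linarith
      obtain ⟨M, hMd⟩ : ∃ M : ℕ, M = ⌊Real.sqrt k / 42⌋₊ := ⟨_, rfl⟩
      have hM1 : 1 ≤ M := by
        rw [hMd]
        exact Nat.one_le_floor_iff _ |>.2 (by rw [le_div_iff₀ (by norm_num)]; linarith)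
      have hMle : (M : ℝ) ≤ Real.sqrt k / 42 := by
        rw [hMd]
        exact Nat.floor_le (by positivity)
      have hMge : Real.sqrt k / 84 ≤ M := by
        have h1 := Nat.lt_floor_add_one (Real.sqrt k / 42)
        rw [← hMd] at h1
        have h2 : (1 : ℝ) ≤ M := by exact_mod_cast hM1
        linarith
      have hMp : (0 : ℝ) < M := by
        have : (1 : ℝ) ≤ M := by exact_mod_cast hM1
        linarith
      obtain ⟨W₀, hW₀⟩ : ∃ W₀ : ℝ, W₀ = 8 + 8 * Real.log k := ⟨_, rfl⟩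
      have hlogk : 0 ≤ Real.log k := Real.log_nonneg hk1
      have hW0 : 0 ≤ W₀ := by rw [hW₀]; linarith
      have hW : W₀ ≤ M := by
        rw [hW₀]
        exact (hY k (hk₀Y.trans hkk')).trans hMge
      have hw0 : ∀ y : ℕ × ℤ, qq y ≤ (k : ℝ) ^ 2 → y.1 = 0 → wt y ≤ W₀ := by
        intro y hy hy0
        rw [hW₀]
        exact wt_zero13 hy0 (by linarith) (by nlinarith [qq_nonneg y])
      have hw1 : ∀ y : ℕ × ℤ, qq y ≤ (k : ℝ) ^ 2 → (nx1 y).1 = 0 → wt (nx1 y) ≤ W₀ := by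
        intro y hy hy0
        rw [hW₀]
        refine wt_zero13 hy0 (by linarith) ((qq_nx1 y).trans ?_)
        nlinarith [qq_nonneg y]
      obtain ⟨j, l, hjl, hj1, hj3, hl⟩ : ∃ j l : ℕ, k = j + l ∧ 1 ≤ j ∧ k ≤ 3 * j ∧ k ≤ 2 * l := by
        refine ⟨k / 2, k - k / 2, ?_, ?_, ?_, ?_⟩
        · omega
        · have : 1764 ≤ k := by exact_mod_cast hk17
          omega
        · have : 1764 ≤ k := by exact_mod_cast hk17
          omega
        · omega
      have hjk : j < k := by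
        have : 1764 ≤ k := by exact_mod_cast hk17
        omega
      have h1 := uu_two hV hV' hM1 hW0 hW (q := (k : ℝ) ^ 2) (by positivity) hw0 hw1 l j x
      rw [← hjl] at h1
      have hb : (1 - 1 / (124 * (M : ℝ) ^ 2)) ^ l ≤ 1 / 8 := by
        have hM2 : (1 : ℝ) ≤ (M : ℝ) ^ 2 := one_le_pow₀ (by exact_mod_cast hM1)
        apply bern13 (by positivity)
        · rw [div_le_one (by positivity)]
          linarith
        · rw [mul_one_div, le_div_iff₀ (by positivity)]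
          have h2 : (M : ℝ) ^ 2 ≤ (Real.sqrt k / 42) ^ 2 := pow_le_pow_left₀ hMp.le hMle 2
          rw [div_pow, Real.sq_sqrt (by linarith)] at h2
          have h3 : (k : ℝ) ≤ 2 * l := by exact_mod_cast hl
          linarith
      have hj := ih j hjk hj1 x
      have hj0 : (0 : ℝ) < j := by exact_mod_cast hj1
      have hsj : 0 < Real.sqrt j := Real.sqrt_pos.2 hj0
      have hsjk : Real.sqrt k ≤ 7 / 4 * Real.sqrt j := by
        rw [Real.sqrt_le_left (by positivity), mul_pow, Real.sq_sqrt hj0.le]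
        have h3 : (k : ℝ) ≤ 3 * j := by exact_mod_cast hj3
        linarith
      have huj0 := uu_nonneg j x
      have e1 : V x / M ≤ 84 * V x / Real.sqrt k := by
        rw [div_le_div_iff₀ hMp hsk]
        have := mul_le_mul_of_nonneg_left hMge (hVn x)
        linarith
      have e2 : (qq x + (k : ℕ)) / (k : ℝ) ^ 2 ≤ (qq x + 1) / Real.sqrt k := by
        have h3 : (qq x + (k : ℕ)) ≤ (qq x + 1) * k := by
          have := qq_nonneg x
          nlinarith
        have h4 : Real.sqrt k ≤ k := by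
          rw [Real.sqrt_le_left (by linarith)]
          nlinarith
        rw [div_le_div_iff₀ (by positivity) hsk]
        calc (qq x + (k : ℕ)) * Real.sqrt k ≤ ((qq x + 1) * k) * k :=
              mul_le_mul h3 h4 hsk.le (by have := qq_nonneg x; positivity)
          _ = (qq x + 1) * (k : ℝ) ^ 2 := by ring
      have e3 : 2 * (1 - 1 / (124 * (M : ℝ) ^ 2)) ^ l * uu j x ≤
          (7 / 16 * D * (V x + qq x + 1)) / Real.sqrt k := by
        have h3 : 2 * (1 - 1 / (124 * (M : ℝ) ^ 2)) ^ l * uu j x ≤ 1 / 4 * uu j x :=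
          mul_le_mul_of_nonneg_right (by linarith) huj0
        have h4 : D * (V x + qq x + 1) / Real.sqrt j ≤
            7 / 4 * (D * (V x + qq x + 1)) / Real.sqrt k := by
          rw [div_le_div_iff₀ hsj hsk]
          have h5 : 0 ≤ D * (V x + qq x + 1) := by positivity
          calc D * (V x + qq x + 1) * Real.sqrt k ≤ D * (V x + qq x + 1) * (7 / 4 * Real.sqrt j) :=
                mul_le_mul_of_nonneg_left hsjk h5
            _ = 7 / 4 * (D * (V x + qq x + 1)) * Real.sqrt j := by ring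
        have h5 : (7 / 16 * D * (V x + qq x + 1)) / Real.sqrt k =
            1 / 4 * (7 / 4 * (D * (V x + qq x + 1)) / Real.sqrt k) := by ring
        rw [h5]
        linarith
      have e4 : uu k x ≤ (84 * V x + (qq x + 1) + 7 / 16 * D * (V x + qq x + 1)) / Real.sqrt k := by
        have h3 : (84 * V x + (qq x + 1) + 7 / 16 * D * (V x + qq x + 1)) / Real.sqrt k =
            84 * V x / Real.sqrt k + (qq x + 1) / Real.sqrt k +
              (7 / 16 * D * (V x + qq x + 1)) / Real.sqrt k := by ring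
        rw [h3]
        linarith
      refine e4.trans (div_le_div_of_nonneg_right ?_ hsk.le)
      have h3 : 150 ≤ D := by rw [hD]; linarith [Real.sqrt_nonneg (k₀ : ℝ)]
      have h4 := hVn x
      have h5 := qq_nonneg x
      nlinarith
  refine ⟨D * (3 + C), by positivity, fun k x hk => ?_⟩
  have hk1 : (1 : ℝ) ≤ k := by exact_mod_cast hk
  have hsk : 0 < Real.sqrt k := Real.sqrt_pos.2 (by linarith)
  refine (hmain k hk x).trans (div_le_div_of_nonneg_right ?_ hsk.le)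
  rw [mul_assoc]
  refine mul_le_mul_of_nonneg_left ?_ hD0.le
  have h1 := (hVV x).2.1
  have h2 := qq_nonneg x
  have h3 : (0 : ℝ) ≤ x.1 := Nat.cast_nonneg _
  nlinarith

end Pool.Agent.Helper8.RU
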